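import Pool.Agent.Lib.MP_7f581e_ntR.Defs

/-!
Embedding problems: definitions and formal properties.
-/

set_option autoImplicit false

universe u

namespace MP7fE

/-- `SolvesOver K F f`: for every finite Galois extension `M` of `K` with Galois group `G`, the
embedding problem given by the epimorphism `f : E → G` has a proper solution over the extension
`F` of `K`: there is a finite Galois extension `L` of `F` with group `E`, containing `M`, such
that the action of `E` on `M` is the one given by `f`. -/
def SolvesOver (K F : Type u) [Field K] [Field F] [Algebra K F] {E G : Type} [Group E] [Group G]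
    (f : E →* G) : Prop :=
  ∀ (M : Type u) [Field M] [Algebra K M] [FiniteDimensional K M] [IsGalois K M]
    (e : (M ≃ₐ[K] M) ≃* G),
    ∃ (L : Type u) (_ : Field L) (_ : Algebra F L) (_ : FiniteDimensional F L)
      (_ : IsGalois F L) (e' : (L ≃ₐ[F] L) ≃* E) (i : M →+* L),
      (∀ a : K, i (algebraMap K M a) = algebraMap F L (algebraMap K F a)) ∧
      ∀ (σ : L ≃ₐ[F] L) (x : M), σ (i x) = i (e.symm (f (e' σ)) x)

/-- Embedding problems over `K`. -/
abbrev Solves (K : Type u) [Field K] {E G : Type} [Group E] [Group G] (f : E →* G) : Prop :=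
  SolvesOver K K f

variable {K F : Type u} [Field K] [Field F] [Algebra K F]

/-- Solutions of embedding problems can be composed. -/
theorem Solves.comp {E G H : Type} [Group E] [Group G] [Group H] {f : G →* H} {g : E →* G}
    (hf : Solves K f) (hg : SolvesOver K F g) : SolvesOver K F (f.comp g) := by
  intro M _ _ _ _ e
  obtain ⟨L, _, _, _, _, e', i, h1, h2⟩ := hf M e
  obtain ⟨L', _, _, h3, h4, e'', i', h5, h6⟩ := hg L e'
  refine ⟨L', inferInstance, inferInstance, h3, h4, e'', i'.comp i, ?_, ?_⟩
  · intro a
    rw [RingHom.comp_apply, h1, ← h5]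
    rfl
  · intro σ x
    rw [RingHom.comp_apply, h6, h2, MulEquiv.apply_symm_apply]
    rfl

/-- Passing to a quotient of the group of a solution. -/
theorem SolvesOver.of_surjective {E' E G : Type} [Group E'] [Group E] [Group G] {f' : E' →* G}
    {f : E →* G} (q : E' →* E) (hq : Function.Surjective q) (h : ∀ x, f (q x) = f' x)
    (hf' : SolvesOver K F f') : SolvesOver K F f := by
  intro M _ _ _ _ e
  obtain ⟨L, _, _, _, _, e', i, h1, h2⟩ := hf' M e
  let φ : (L ≃ₐ[F] L) →* E := q.comp e'.toMonoidHom
  have hφ : Function.Surjective φ := hq.comp e'.surjective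
  have hg : IsGalois F (IntermediateField.fixedField φ.ker) :=
    IsGalois.of_fixedField_normal_subgroup φ.ker
  have hi : ∀ x : M, i x ∈ IntermediateField.fixedField φ.ker := by
    intro x
    rintro ⟨σ, hσ⟩
    change σ (i x) = i x
    rw [h2]
    have h3 : f' (e' σ) = 1 := by
      rw [← h]
      have h4 : q (e' σ) = 1 := hσ
      rw [h4, map_one]
    rw [h3, map_one]
    rfl
  refine ⟨IntermediateField.fixedField φ.ker, inferInstance, inferInstance, inferInstance, hg,
    (IsGalois.normalAutEquivQuotient φ.ker).symm.trans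
      (QuotientGroup.quotientKerEquivOfSurjective φ hφ),
    (i.codRestrict (IntermediateField.fixedField φ.ker) hi), ?_, ?_⟩
  · intro a
    apply Subtype.ext
    exact h1 a
  · intro σ x
    obtain ⟨τ, hτ⟩ := (IsGalois.normalAutEquivQuotient φ.ker).surjective σ
    obtain ⟨τ, rfl⟩ := QuotientGroup.mk_surjective τ
    subst hτ
    rw [MulEquiv.trans_apply, MulEquiv.symm_apply_apply]
    apply Subtype.ext
    have h5 := h2 τ x
    rw [← h] at h5
    rw [IsGalois.normalAutEquivQuotient_apply]
    exact (AlgEquiv.restrictNormal_commutes τ (IntermediateField.fixedField φ.ker)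
      ⟨i x, hi x⟩).trans h5

/-- Solvable embedding problems give realizations. -/
theorem Solves.occurs {E G : Type} [Group E] [Group G] {f : E →* G} (hf : Solves K f)
    (hG : MP7fR.Occurs G K) : MP7fR.Occurs E K := by
  obtain ⟨M, _, _, _, _, ⟨e⟩⟩ := hG
  obtain ⟨L, _, _, h1, h2, e', -⟩ := hf M e
  exact ⟨L, inferInstance, inferInstance, h1, h2, ⟨e'⟩⟩

end MP7fE
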