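import Pool.Agent.Lib.MP_7f581e_ntR.Defs

/-!
The list of simple groups which are allowed as composition factors of kernels of embedding
problems.
-/

set_option autoImplicit false

namespace MP7fE

open Matrix

theorem su_one (n : ℕ) (F : Type) [Field F] (s : F →+* F) :
    (1 : SpecialLinearGroup (Fin n) F).1 * ((1 : SpecialLinearGroup (Fin n) F).1.map s)ᵀ = 1 := by
  change (1 : Matrix (Fin n) (Fin n) F) * ((1 : Matrix (Fin n) (Fin n) F).map s)ᵀ = 1
  rw [Matrix.map_one s (map_zero s) (map_one s), Matrix.transpose_one, mul_one]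

theorem su_mul {n : ℕ} {F : Type} [Field F] {s : F →+* F} {A B : SpecialLinearGroup (Fin n) F}
    (hA : A.1 * (A.1.map s)ᵀ = 1) (hB : B.1 * (B.1.map s)ᵀ = 1) :
    (A * B).1 * ((A * B).1.map s)ᵀ = 1 := by
  change (A.1 * B.1) * ((A.1 * B.1).map s)ᵀ = 1
  rw [Matrix.map_mul, Matrix.transpose_mul, mul_assoc, ← mul_assoc B.1, hB, one_mul, hA]

theorem su_inv' {n : ℕ} {F : Type} [Field F] {s : F →+* F} {A : SpecialLinearGroup (Fin n) F}
    (hA : A.1 * (A.1.map s)ᵀ = 1) : (A⁻¹).1 * ((A⁻¹).1.map s)ᵀ = 1 := by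
  have h1 : (A⁻¹).1 * A.1 = 1 := congrArg Subtype.val (inv_mul_cancel A)
  have h2 : (A.1.map s)ᵀ * ((A⁻¹).1.map s)ᵀ = 1 := by
    rw [← Matrix.transpose_mul, ← Matrix.map_mul, h1, Matrix.map_one s (map_zero s) (map_one s),
      Matrix.transpose_one]
  have h3 : (A⁻¹).1 = (A.1.map s)ᵀ := by
    calc (A⁻¹).1 = (A⁻¹).1 * (A.1 * (A.1.map s)ᵀ) := by rw [hA, mul_one]
      _ = _ := by rw [← mul_assoc, h1, one_mul]
  rw [h3] at h2 ⊢
  exact h2

/-- The special unitary group: the matrices `A` in `SL_n(F)` with `A * s(A)ᵀ = 1`, where the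
endomorphism `s` of the field `F` is applied to the entries. -/
def SU (n : ℕ) (F : Type) [Field F] (s : F →+* F) :
    Subgroup (SpecialLinearGroup (Fin n) F) where
  carrier := {A | A.1 * (A.1.map s)ᵀ = 1}
  one_mem' := su_one n F s
  mul_mem' := su_mul
  inv_mem' := su_inv'

/-- The symplectic group of `2n × 2n` matrices. -/
def Sp (n : ℕ) (F : Type) [Field F] : Type := symplecticGroup (Fin n) F

instance groupSp (n : ℕ) (F : Type) [Field F] : Group (Sp n F) :=
  SymplecticGroup.instGroupSubtypeMatrixSumMemSubmonoidSymplecticGroup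

/-- The groups `SL_n(q)`, `n ≥ 2`, `q ≥ 4` if `n = 2`; `Sp_2n(q)`, `n ≥ 2`, `p` odd if `n = 2`;
`SU_n(q)`, `n ≥ 3`, `q ≥ 3` if `n = 3` (over the field with `q ^ 2` elements), where `q` is a
power of `p`. -/
def IsMatrixGroup (p : ℕ) (H : Type) [Group H] : Prop :=
  ∃ (F : Type) (_ : Field F) (n m : ℕ),
    (Nat.card F = p ^ m ∧ 2 ≤ n ∧ (n = 2 → 4 ≤ p ^ m) ∧
      Nonempty (H ≃* SpecialLinearGroup (Fin n) F)) ∨
    (Nat.card F = p ^ m ∧ 2 ≤ n ∧ (n = 2 → p ≠ 2) ∧ Nonempty (H ≃* Sp n F)) ∨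
    (Nat.card F = p ^ (2 * m) ∧ 0 < m ∧ 3 ≤ n ∧ (n = 3 → 3 ≤ p ^ m) ∧
      ∃ s : F →+* F, (∀ x, s x = x ^ p ^ m) ∧ Nonempty (H ≃* SU n F s))

/-- The simple groups which are the quotient of one of the groups above by its centre. -/
def IsClassical (p : ℕ) (S : Type) [Group S] : Prop :=
  IsSimpleGroup S ∧ ∃ (H : Type) (_ : Group H), IsMatrixGroup p H ∧
    Nonempty (S ≃* H ⧸ Subgroup.center H)

/-- The groups above whose quotient by the centre is simple, and these quotients. -/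
def IsQuasiClassical (p : ℕ) (H : Type) [Group H] : Prop :=
  IsClassical p H ∨ (IsMatrixGroup p H ∧ IsSimpleGroup (H ⧸ Subgroup.center H))

/-- The automorphism group of `S` is a split extension of the outer automorphism group by the
group of inner automorphisms: there is a subgroup `T` of automorphisms such that every automorphism
is the product of an element of `T` and an inner automorphism, and such that the only inner
automorphism in `T` is the identity. -/
def AutSplits (S : Type) [Group S] : Prop :=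
  ∃ T : Subgroup (MulAut S), (∀ t ∈ T, ∀ s : S, t = MulAut.conj s → t = 1) ∧
    ∀ α : MulAut S, ∃ t ∈ T, ∃ s : S, α = t * MulAut.conj s

/-- The alternating groups `A_n`, `n ≥ 5`; `A_6` only if `p = 2`. -/
def IsAlt (p : ℕ) (S : Type) [Group S] : Prop :=
  ∃ n : ℕ, 5 ≤ n ∧ (n = 6 → p = 2) ∧ Nonempty (S ≃* alternatingGroup (Fin n))

/-- The finite nonabelian simple groups with only inner automorphisms which occur over `k(X)`. -/
def IsComplete (k : Type) [Field k] (S : Type) [Group S] : Prop :=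
  Finite S ∧ IsSimpleGroup S ∧ (∃ a b : S, a * b ≠ b * a) ∧
    (∀ α : S ≃* S, ∃ h : S, ∀ a, α a = h * a * h⁻¹) ∧ MP7fR.Occurs S (RatFunc k)

/-- The simple groups which are allowed as composition factors. Here `p` is a prime number and
`k` a finite field of characteristic `p`. -/
def IsFactor (p : ℕ) (k : Type) [Field k] (S : Type) [Group S] : Prop :=
  Nat.card S = p ∨ IsAlt p S ∨ (IsClassical p S ∧ AutSplits S) ∨ IsComplete k S

theorem AutSplits.congr {S S' : Type} [Group S] [Group S'] (e : S ≃* S') (h : AutSplits S) :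
    AutSplits S' := by
  obtain ⟨T, h1, h2⟩ := h
  let c : MulAut S ≃* MulAut S' := MulAut.congr e
  have hc : ∀ s : S, c (MulAut.conj s) = MulAut.conj (e s) := by
    intro s
    ext x
    change e (s * e.symm x * s⁻¹) = e s * x * (e s)⁻¹
    rw [map_mul, map_mul, map_inv, MulEquiv.apply_symm_apply]
  refine ⟨T.map c.toMonoidHom, ?_, ?_⟩
  · rintro _ ⟨t, ht, rfl⟩ s hs
    obtain ⟨s, rfl⟩ := e.surjective s
    have h3 : t = MulAut.conj s := by
      apply c.injective
      rw [hc]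
      exact hs
    have h4 := h1 t ht s h3
    rw [h4]
    exact map_one c
  · intro α
    obtain ⟨α, rfl⟩ := c.surjective α
    obtain ⟨t, ht, s, rfl⟩ := h2 α
    exact ⟨c t, ⟨t, ht, rfl⟩, e s, by rw [map_mul, hc]⟩

theorem IsClassical.congr {p : ℕ} {S T : Type} [Group S] [Group T] (f : S ≃* T)
    (h : IsClassical p S) : IsClassical p T := by
  obtain ⟨hs, H, _, hH, ⟨e⟩⟩ := h
  exact ⟨MulEquiv.isSimpleGroup f.symm, H, _, hH, ⟨f.symm.trans e⟩⟩

theorem isFactor_congr (p : ℕ) (k : Type) [Field k] (S T : Type) [Group S] [Group T] (f : S ≃* T)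
    (h : IsFactor p k S) : IsFactor p k T := by
  rcases h with hS | ⟨n, h5, h6, ⟨e⟩⟩ | ⟨hc, hs⟩ |
    ⟨hfin, hsim, ⟨a, b, hab⟩, hout, ⟨L, h1, h2, h3, h4, ⟨e⟩⟩⟩
  · exact Or.inl ((Nat.card_congr f.toEquiv).symm.trans hS)
  · exact Or.inr (Or.inl ⟨n, h5, h6, ⟨f.symm.trans e⟩⟩)
  · exact Or.inr (Or.inr (Or.inl ⟨hc.congr f, hs.congr f⟩))
  · refine Or.inr (Or.inr (Or.inr ⟨Finite.of_equiv S f.toEquiv,
      MulEquiv.isSimpleGroup f.symm, ⟨f a, f b, ?_⟩, ?_, ⟨L, h1, h2, h3, h4, ⟨e.trans f⟩⟩⟩))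
    · rw [← map_mul, ← map_mul]
      exact fun h => hab (f.injective h)
    · intro α
      obtain ⟨h, hh⟩ := hout ((f.trans α).trans f.symm)
      refine ⟨f h, fun a => ?_⟩
      have h1 := congrArg f (hh (f.symm a))
      rw [map_mul, map_mul, map_inv] at h1
      simpa using h1

end MP7fE
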