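import Pool.Agent.Lib.MP_7f581e_ntA.Kernel2
import Pool.Agent.Lib.MP_7f581e_ntA.KernelO
import Pool.Agent.Lib.MP_7f581e_ntT.AllOdd

/-!
Embedding problems whose kernel is a power of an alternating group.
-/

set_option autoImplicit false

universe u

namespace MP7fE

/-- Over every infinite field `K`, every finite embedding problem whose kernel is isomorphic to
`A_n ^ k`, `n ≥ 5`, `n ≠ 6`, is properly solvable over `K(t_1, …, t_k)`. -/
theorem solvesOver_alt {K : Type u} [Field K] [Infinite K] {n k : ℕ}
    (hn : 5 ≤ n) (h6 : n ≠ 6) {E : Type} [Group E] [Finite E] (N : Subgroup E) [N.Normal]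
    (φ : N ≃* (Fin k → alternatingGroup (Fin n))) :
    SolvesOver K (FractionRing (MvPolynomial (Fin k) K)) (QuotientGroup.mk' N) := by
  classical
  by_cases h2 : (2 : K) = 0
  · have hc : CharP K 2 := CharTwo.of_one_ne_zero_of_two_eq_zero one_ne_zero h2
    rcases n.even_or_odd with he | ho
    · obtain ⟨s, hs⟩ : ∃ s : K, s ∉ ({0, 1} : Finset K) := Infinite.exists_notMem_finset _
      rw [Finset.mem_insert, Finset.mem_singleton, not_or] at hs
      have h6' : 6 ≤ n := by
        obtain ⟨r, hr⟩ := he
        omega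
      exact MP7fA.solvesOver_altKernel hn h6 (MP7fT.gaEven n he h6' K s hs.1 hs.2) N φ
    · exact MP7fA.solvesOver_altKernel hn h6 (MP7fT.gaOdd n ho hn K) N φ
  · obtain ⟨g⟩ := MP7fT.nonempty_gao n hn K h2
    exact MP7fA.solvesOver_altKernelo hn h6 g N φ

end MP7fE
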