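import Pool.Agent.Lib.MP_7f581e_nt.AutPow
import Pool.Agent.Lib.MP_7f581e_ntE.Factor

/-!
If the automorphism group of the simple group `S` splits over the inner automorphisms then every
extension whose kernel is a power of `S` splits.
-/

set_option autoImplicit false

universe u

namespace MP7fE



section complement

variable {S : Type} [Group S] {κ : Type} (T : Subgroup (MulAut S))

/-- The automorphisms of the power which permute the factors up to elements of `T`. -/
def wrSub : Subgroup (MulAut (κ → S)) where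
  carrier := {ψ | ∃ (π : Equiv.Perm κ) (x : κ → MulAut S), (∀ k, x k ∈ T) ∧
    ∀ z k, ψ z (π k) = x k (z k)}
  one_mem' := ⟨1, fun _ => 1, fun _ => T.one_mem, fun _ _ => rfl⟩
  mul_mem' := by
    rintro ψ ψ' ⟨π, x, hx, h⟩ ⟨π', x', hx', h'⟩
    refine ⟨π * π', fun k => x (π' k) * x' k, fun k => T.mul_mem (hx _) (hx' _), ?_⟩
    intro z k
    change ψ (ψ' z) (π (π' k)) = x (π' k) (x' k (z k))
    rw [h, h']
  inv_mem' := by
    rintro ψ ⟨π, x, hx, h⟩
    refine ⟨π⁻¹, fun k => (x (π⁻¹ k))⁻¹, fun k => T.inv_mem (hx _), ?_⟩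
    intro z k
    obtain ⟨w, rfl⟩ : ∃ w, z = ψ w := ⟨ψ⁻¹ z, by rw [← MulAut.mul_apply, mul_inv_cancel,
      MulAut.one_apply]⟩
    have h1 : ψ w k = x (π⁻¹ k) (w (π⁻¹ k)) := by
      have h2 := h w (π⁻¹ k)
      rwa [← Equiv.Perm.mul_apply, mul_inv_cancel, Equiv.Perm.one_apply] at h2
    rw [h1, ← MulAut.mul_apply, ← MulAut.mul_apply, inv_mul_cancel, inv_mul_cancel,
      MulAut.one_apply, MulAut.one_apply]

variable {E : Type} [Group E] (N : Subgroup E) [N.Normal] (θ : N ≃* (κ → S))

/-- The action by conjugation on the power. -/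
def conjPow : E →* MulAut (κ → S) :=
  (MulAut.congr θ).toMonoidHom.comp (MulAut.conjNormal (H := N))

theorem conjPow_apply (e : E) (z : κ → S) :
    conjPow N θ e z = θ (MulAut.conjNormal e (θ.symm z)) := rfl

theorem conjPow_coe (n : N) (z : κ → S) : conjPow N θ (n : E) z = θ n * z * (θ n)⁻¹ := by
  have h1 : MulAut.conjNormal (n : E) (θ.symm z) = n * θ.symm z * n⁻¹ := by
    apply Subtype.ext
    rw [MulAut.conjNormal_apply]
    rfl
  rw [conjPow_apply, h1, map_mul, map_mul, map_inv, MulEquiv.apply_symm_apply]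

/-- **The complement.** -/
theorem exists_complement [Finite κ] [IsSimpleGroup S] (hz : Subgroup.center S = ⊥)
    (h1 : ∀ t ∈ T, ∀ s : S, t = MulAut.conj s → t = 1)
    (h2 : ∀ α : MulAut S, ∃ t ∈ T, ∃ s : S, α = t * MulAut.conj s) :
    Subgroup.IsComplement' ((wrSub T).comap (conjPow N θ)) N := by
  classical
  apply Subgroup.isComplement'_of_disjoint_and_mul_eq_univ
  · rw [Subgroup.disjoint_def]
    rintro e he hn
    obtain ⟨n, rfl⟩ : ∃ n : N, (n : E) = e := ⟨⟨e, hn⟩, rfl⟩
    obtain ⟨π, x, hx, h⟩ : conjPow N θ (n : E) ∈ wrSub T := he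
    have h3 : ∀ z k, (θ n * z * (θ n)⁻¹) (π k) = x k (z k) := by
      intro z k
      rw [← conjPow_coe]
      exact h z k
    have h4 : ∀ k, π k = k := by
      intro k
      by_contra hne
      obtain ⟨s, hs⟩ := exists_ne (1 : S)
      have h5 := h3 (Pi.mulSingle k s) k
      rw [Pi.mul_apply, Pi.mul_apply, Pi.mulSingle_eq_same, Pi.mulSingle_eq_of_ne hne, mul_one,
        ← Pi.mul_apply, mul_inv_cancel, Pi.one_apply] at h5
      exact hs ((MulEquiv.map_eq_one_iff _).mp h5.symm)
    have h5 : ∀ k, θ n k ∈ Subgroup.center S := by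
      intro k
      have h6 : x k = MulAut.conj (θ n k) := by
        ext t
        have h7 := h3 (fun _ => t) k
        rw [h4] at h7
        exact h7.symm
      have h7 := h1 _ (hx k) _ h6
      rw [h6] at h7
      rw [Subgroup.mem_center_iff]
      intro t
      have h8 : MulAut.conj (θ n k) t = t := by rw [h7]; rfl
      rw [MulAut.conj_apply] at h8
      exact (mul_inv_eq_iff_eq_mul.mp h8).symm
    have h6 : θ n = 1 := by
      funext k
      have h7 := h5 k
      rw [hz, Subgroup.mem_bot] at h7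
      exact h7
    have h7 : n = 1 := (MulEquiv.map_eq_one_iff θ).mp h6
    rw [h7]
    rfl
  · rw [Set.eq_univ_iff_forall]
    intro e
    obtain ⟨π, φ, h⟩ := Pool.Agent.Lib.MP_7f581e_nt.AutAlt.aut_pi hz (conjPow N θ e)
    choose t ht s hs using fun k => h2 (φ k)
    refine ⟨e * ((θ.symm s : N) : E)⁻¹, ?_, ((θ.symm s : N) : E), (θ.symm s).2,
      inv_mul_cancel_right _ _⟩
    refine ⟨π, t, ht, ?_⟩
    intro z k
    have h3 : conjPow N θ (e * ((θ.symm s : N) : E)⁻¹) z =
        conjPow N θ e (s⁻¹ * z * s) := by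
      rw [map_mul, MulAut.mul_apply]
      congr 1
      have h4 := conjPow_coe N θ (θ.symm s)⁻¹ z
      rw [map_inv, MulEquiv.apply_symm_apply, inv_inv] at h4
      exact h4
    rw [h3, h, hs]
    change t k (s k * ((s k)⁻¹ * z k * s k) * (s k)⁻¹) = t k (z k)
    congr 1
    group

end complement

/-- If the automorphism group splits, then every extension whose kernel is a power splits. -/
theorem AutSplits.exists_section {S : Type} [Group S] [IsSimpleGroup S]
    (hz : Subgroup.center S = ⊥) (h : AutSplits S) {κ : Type} [Finite κ] {E : Type} [Group E]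
    (N : Subgroup E) [N.Normal] (θ : N ≃* (κ → S)) :
    ∃ s : E ⧸ N →* E, ∀ q, QuotientGroup.mk' N (s q) = q := by
  obtain ⟨T, h1, h2⟩ := h
  have hc := exists_complement T N θ hz h1 h2
  refine ⟨(Subgroup.subtype _).comp hc.QuotientMulEquiv.toMonoidHom, fun q => ?_⟩
  obtain ⟨d, rfl⟩ := hc.QuotientMulEquiv.symm.surjective q
  change QuotientGroup.mk' N (hc.QuotientMulEquiv (hc.QuotientMulEquiv.symm d)) = _
  rw [MulEquiv.apply_symm_apply]
  rfl

end MP7fE
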