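import Pool.Agent.Lib.MP_7f581e_ntE.Defs
import Pool.Agent.Lib.MP_7f581e_ntC.Factors

/-!
Embedding problems whose kernel has a subnormal series with factors in a given class.
-/

set_option autoImplicit false

universe u

namespace MP7fE

open MP7fC

variable {K F : Type u} [Field K] [Field F] [Algebra K F]

/-- Replacing the quotient by an isomorphic group. -/
theorem SolvesOver.congr_right {E G G' : Type} [Group E] [Group G] [Group G'] {f : E →* G}
    (θ : G ≃* G') (h : SolvesOver K F f) : SolvesOver K F (θ.toMonoidHom.comp f) := by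
  intro M _ _ _ _ e
  obtain ⟨L, _, _, h1, h2, e', i, h3, h4⟩ := h M (e.trans θ.symm)
  exact ⟨L, inferInstance, inferInstance, h1, h2, e', i, h3, h4⟩

/-- Trivial embedding problems. -/
theorem solves_of_equiv {E G : Type} [Group E] [Group G] (θ : E ≃* G) :
    Solves K θ.toMonoidHom := by
  intro M _ _ h1 h2 e
  refine ⟨M, inferInstance, inferInstance, h1, h2, e.trans θ.symm, RingHom.id M, fun _ => rfl, ?_⟩
  intro σ x
  change σ x = (e.symm (θ ((e.trans θ.symm) σ))) x
  rw [MulEquiv.trans_apply, MulEquiv.apply_symm_apply, MulEquiv.symm_apply_apply]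

theorem solves_of_factors {𝒮 : (S : Type) → [Group S] → Prop}
    (hiso : ∀ (S T : Type) [Group S] [Group T], (S ≃* T) → 𝒮 S → 𝒮 T)
    (hsim : ∀ (S : Type) [Group S], 𝒮 S → IsSimpleGroup S)
    (hstep : ∀ (E : Type) [Group E] [Finite E] (N : Subgroup E) [N.Normal] (S : Type) [Group S]
      (k : ℕ), 𝒮 S → (N ≃* (Fin k → S)) → Solves K (QuotientGroup.mk' N)) :
    ∀ (E : Type) [Group E] [Finite E] (N : Subgroup E) [N.Normal], HasFactors 𝒮 N →
      Solves K (QuotientGroup.mk' N) := by
  suffices H : ∀ (m : ℕ) (E : Type) [Group E] [Finite E] (N : Subgroup E) [N.Normal],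
      Nat.card E = m → HasFactors 𝒮 N → Solves K (QuotientGroup.mk' N) from
    fun E _ _ N _ hN => H _ E N rfl hN
  intro m
  induction m using Nat.strong_induction_on with
  | _ m ih =>
    intro E _ _ N _ hm hN
    by_cases hbot : N = ⊥
    · subst hbot
      exact solves_of_equiv (QuotientGroup.quotientBot (G := E)).symm
    · obtain ⟨M, hM, hMN, hM1, S, hS, hSs, k, ⟨φ⟩⟩ := exists_minNormal N hbot
      have h1 : HasFactors 𝒮 M := by
        refine hN.of_injective hiso hsim M (Subgroup.inclusion hMN)
          (Subgroup.inclusion_injective hMN) ?_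
        constructor
        rintro _ ⟨x, rfl⟩ g
        exact ⟨⟨g * x * g⁻¹, hM.conj_mem x x.2 g⟩, rfl⟩
      have h2 : HasFactors 𝒮 S := by
        refine h1.of_injective hiso hsim S S.subtype S.subtype_injective ?_
        rw [Subgroup.range_subtype]
        exact hS
      have h3 : 𝒮 S := h2.mem_of_isSimpleGroup hiso hsim
      have hlt : Nat.card (E ⧸ M) < m := by
        rw [← hm]
        have h4 := Subgroup.card_eq_card_quotient_mul_card_subgroup M
        have h5 : 1 < Nat.card M := by
          rw [← Subgroup.one_lt_card_iff_ne_bot] at hM1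
          exact hM1
        have h6 : 0 < Nat.card (E ⧸ M) := Nat.card_pos
        rw [h4]
        nlinarith
      have hn : (N.map (QuotientGroup.mk' M)).Normal :=
        Subgroup.Normal.map inferInstance _ (QuotientGroup.mk'_surjective M)
      have h7 : Solves K (QuotientGroup.mk' (N.map (QuotientGroup.mk' M))) := by
        refine ih _ hlt (E ⧸ M) (N.map (QuotientGroup.mk' M)) rfl ?_
        let f' : N →* N.map (QuotientGroup.mk' M) :=
          ((QuotientGroup.mk' M).comp N.subtype).codRestrict (N.map (QuotientGroup.mk' M))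
            fun x => ⟨x, x.2, rfl⟩
        refine hN.of_surjective hiso hsim _ f' ?_
        rintro ⟨_, x, hx, rfl⟩
        exact ⟨⟨x, hx⟩, rfl⟩
      exact (h7.comp (hstep E M S k h3 φ)).congr_right
        (QuotientGroup.quotientQuotientEquivQuotient M N hMN)

end MP7fE
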