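import Pool.Agent.Lib.MP_7f581e_ntE.Defs

set_option autoImplicit false

universe u

namespace MP7fE

open IntermediateField

section Step

variable {K : Type u} [Field K]

/-- A proper solution of an embedding problem, inside the separable closure. -/
theorem Solves.exists_hom {E G : Type} [Group E] [Group G] {f : E →* G} (hf : Solves K f)
    (ψ : (SeparableClosure K ≃ₐ[K] SeparableClosure K) →* G) (hψ : Function.Surjective ψ)
    (ho : IsOpen (ψ.ker : Set (SeparableClosure K ≃ₐ[K] SeparableClosure K))) :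
    ∃ φ : (SeparableClosure K ≃ₐ[K] SeparableClosure K) →* E, Function.Surjective φ ∧
      IsOpen (φ.ker : Set (SeparableClosure K ≃ₐ[K] SeparableClosure K)) ∧ f.comp φ = ψ := by
  let Ω := SeparableClosure K
  let H : ClosedSubgroup (Ω ≃ₐ[K] Ω) := ⟨ψ.ker, Subgroup.isClosed_of_isOpen _ ho⟩
  have hH : H.toSubgroup.Normal := MonoidHom.normal_ker ψ
  let M : IntermediateField K Ω := IntermediateField.fixedField ψ.ker
  have hM : M.fixingSubgroup = ψ.ker := InfiniteGalois.fixingSubgroup_fixedField H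
  have h1 : FiniteDimensional K M ∧ IsGalois K M := by
    rw [← InfiniteGalois.isOpen_and_normal_iff_finite_and_isGalois, hM]
    exact ⟨ho, MonoidHom.normal_ker ψ⟩
  obtain ⟨hfd, hgal⟩ := h1
  let e : (M ≃ₐ[K] M) ≃* G := (InfiniteGalois.normalAutEquivQuotient H).symm.trans
    (QuotientGroup.quotientKerEquivOfSurjective ψ hψ)
  have he : ∀ σ : Ω ≃ₐ[K] Ω, e (AlgEquiv.restrictNormalHom M σ) = ψ σ := by
    intro σ
    have h2 : AlgEquiv.restrictNormalHom M σ =
        InfiniteGalois.normalAutEquivQuotient H (QuotientGroup.mk σ) := rfl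
    rw [h2, MulEquiv.trans_apply, MulEquiv.symm_apply_apply]
    rfl
  obtain ⟨L, _, _, hLf, hLg, e', i, h3, h4⟩ := hf M e
  let _ : Algebra M L := i.toAlgebra
  have : IsScalarTower K M L := IsScalarTower.of_algebraMap_eq (fun a => (h3 a).symm)
  have : Algebra.IsSeparable M L := Algebra.isSeparable_tower_top_of_isSeparable K M L
  let j : L →ₐ[M] Ω := IsSepClosed.lift
  let _ : Algebra L Ω := j.toRingHom.toAlgebra
  have : IsScalarTower K L Ω := IsScalarTower.of_algebraMap_eq (fun a => by
    have h5 : algebraMap K L a = algebraMap M L (algebraMap K M a) :=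
      IsScalarTower.algebraMap_apply K M L a
    have h6 : j (algebraMap M L (algebraMap K M a)) = algebraMap M Ω (algebraMap K M a) :=
      j.commutes _
    change _ = j (algebraMap K L a)
    rw [h5, h6]
    rfl)
  let ρ : (Ω ≃ₐ[K] Ω) →* (L ≃ₐ[K] L) := AlgEquiv.restrictNormalHom L
  have hρ : Function.Surjective ρ := AlgEquiv.restrictNormalHom_surjective Ω
  have hρ' : ∀ (σ : Ω ≃ₐ[K] Ω) (x : L), j (ρ σ x) = σ (j x) := fun σ x =>
    AlgEquiv.restrictNormal_commutes σ L x
  refine ⟨e'.toMonoidHom.comp ρ, e'.surjective.comp hρ, ?_, ?_⟩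
  · have h7 : (e'.toMonoidHom.comp ρ).ker =
        ((j.restrictScalars K).fieldRange).fixingSubgroup := by
      ext σ
      rw [MonoidHom.mem_ker, IntermediateField.mem_fixingSubgroup_iff]
      change e' (ρ σ) = 1 ↔ _
      rw [map_eq_one_iff e' e'.injective]
      constructor
      · rintro h8 _ ⟨x, rfl⟩
        change σ (j x) = j x
        rw [← hρ', h8]
        rfl
      · intro h8
        apply AlgEquiv.ext
        intro x
        refine j.injective (?_ : j (ρ σ x) = j x)
        rw [hρ']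
        exact h8 (j x) ⟨x, rfl⟩
    rw [h7]
    have : FiniteDimensional K (j.restrictScalars K).fieldRange :=
      (AlgEquiv.ofInjectiveField (j.restrictScalars K)).toLinearEquiv.finiteDimensional
    exact IntermediateField.fixingSubgroup_isOpen _
  · ext σ
    change f (e' (ρ σ)) = ψ σ
    rw [← he, ← MulEquiv.symm_apply_eq, MulEquiv.symm_apply_eq]
    have h8 : e.symm (f (e' (ρ σ))) = AlgEquiv.restrictNormalHom M σ := by
      apply AlgEquiv.ext
      intro x
      apply (algebraMap M Ω).injective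
      have h9 := h4 (ρ σ) x
      have h10 : ∀ y : M, algebraMap M Ω y = j (i y) := fun y => (j.commutes y).symm
      rw [h10, ← h9, hρ', ← h10]
      exact (AlgEquiv.restrictNormal_commutes σ M x).symm
    rw [← h8, MulEquiv.apply_symm_apply]

end Step

section Limit

variable {Γ P : Type*} [Group Γ] [TopologicalSpace Γ] [IsTopologicalGroup Γ] [CompactSpace Γ]
  [Group P] [TopologicalSpace P] [IsTopologicalGroup P] [CompactSpace P] [T2Space P]

/-- A compatible sequence of continuous epimorphisms onto the quotients of a profinite group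
has a limit. -/
theorem exists_limit_hom (U : ℕ → Subgroup P) [∀ n, (U n).Normal]
    (hUo : ∀ n, IsOpen (U n : Set P)) (hU : ∀ n, U (n + 1) ≤ U n)
    (hb : ∀ W : Set P, IsOpen W → (1 : P) ∈ W → ∃ n, (U n : Set P) ⊆ W)
    (φ : ∀ n, Γ →* P ⧸ U n) (hφ : ∀ n, Function.Surjective (φ n))
    (hφo : ∀ n, IsOpen ((φ n).ker : Set Γ))
    (hc : ∀ n, (QuotientGroup.map (U (n + 1)) (U n) (MonoidHom.id P) (hU n)).comp (φ (n + 1)) =
      φ n) :
    ∃ ψ : Γ →* P, Continuous ψ ∧ Function.Surjective ψ ∧
      ∀ n σ, (QuotientGroup.mk (ψ σ) : P ⧸ U n) = φ n σ := by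
  have hinj : ∀ p : P, (∀ n, p ∈ U n) → p = 1 := by
    intro p hp
    by_contra h
    obtain ⟨n, hn⟩ := hb {p}ᶜ isOpen_compl_singleton (by
      intro h'
      exact h (Set.mem_singleton_iff.mp h').symm)
    exact hn (hp n) rfl
  have huniq : ∀ p q : P, (∀ n, (QuotientGroup.mk p : P ⧸ U n) = QuotientGroup.mk q) →
      p = q := by
    intro p q h
    have h1 : p⁻¹ * q = 1 := hinj _ (fun n => QuotientGroup.eq.mp (h n))
    exact inv_mul_eq_one.mp h1
  have hcl : ∀ (n : ℕ) (x : P ⧸ U n), IsClosed {p : P | (QuotientGroup.mk p : P ⧸ U n) = x} := by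
    intro n x
    obtain ⟨q, rfl⟩ := QuotientGroup.mk_surjective x
    have h1 : {p : P | (QuotientGroup.mk p : P ⧸ U n) = QuotientGroup.mk q} =
        (fun p : P => q⁻¹ * p) ⁻¹' (U n : Set P) := by
      ext p
      rw [Set.mem_ofPred_eq, eq_comm, QuotientGroup.eq]
      rfl
    rw [h1]
    exact (Subgroup.isClosed_of_isOpen _ (hUo n)).preimage (continuous_const_mul _)
  have hcl2 : ∀ (n : ℕ) (x : P ⧸ U n), IsClosed {σ : Γ | φ n σ = x} := by
    intro n x
    obtain ⟨τ, rfl⟩ := hφ n x
    have h1 : {σ : Γ | φ n σ = φ n τ} =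
        (fun σ : Γ => τ⁻¹ * σ) ⁻¹' ((φ n).ker : Set Γ) := by
      ext σ
      rw [Set.mem_ofPred_eq, Set.mem_preimage, SetLike.mem_coe, MonoidHom.mem_ker, map_mul, map_inv,
        inv_mul_eq_one, eq_comm]
    rw [h1]
    exact (Subgroup.isClosed_of_isOpen _ (hφo n)).preimage (continuous_const_mul _)
  have hex : ∀ σ : Γ, ∃ p : P, ∀ n, (QuotientGroup.mk p : P ⧸ U n) = φ n σ := by
    intro σ
    have h1 := IsCompact.nonempty_iInter_of_sequence_nonempty_isCompact_isClosed
      (fun n => {p : P | (QuotientGroup.mk p : P ⧸ U n) = φ n σ})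
      (by
        intro n p hp
        rw [Set.mem_ofPred_eq] at hp ⊢
        rw [← hc n, MonoidHom.comp_apply, ← hp]
        rfl)
      (fun n => QuotientGroup.mk_surjective (φ n σ))
      (hcl 0 _).isCompact (fun n => hcl n _)
    obtain ⟨p, hp⟩ := h1
    exact ⟨p, fun n => Set.mem_iInter.mp hp n⟩
  choose ψ hψ using hex
  let ψ' : Γ →* P := MonoidHom.mk' ψ (by
    intro a b
    apply huniq
    intro n
    rw [hψ, QuotientGroup.mk_mul, hψ, hψ, map_mul])
  refine ⟨ψ', ?_, ?_, fun n σ => hψ σ n⟩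
  · apply continuous_of_continuousAt_one
    rw [ContinuousAt, map_one]
    intro W hW
    obtain ⟨W', hW', hWo, hW1⟩ := mem_nhds_iff.mp hW
    obtain ⟨n, hn⟩ := hb W' hWo hW1
    rw [Filter.mem_map]
    refine Filter.mem_of_superset ((hφo n).mem_nhds (one_mem _)) ?_
    intro σ hσ
    apply hW'
    apply hn
    have h1 : (QuotientGroup.mk (ψ σ) : P ⧸ U n) = 1 := by
      rw [hψ]
      exact hσ
    exact (QuotientGroup.eq_one_iff _).mp h1
  · intro p
    have h1 := IsCompact.nonempty_iInter_of_sequence_nonempty_isCompact_isClosed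
      (fun n => {σ : Γ | φ n σ = QuotientGroup.mk p})
      (by
        intro n σ hσ
        rw [Set.mem_ofPred_eq] at hσ ⊢
        rw [← hc n, MonoidHom.comp_apply, hσ]
        rfl)
      (fun n => hφ n _)
      (hcl2 0 _).isCompact (fun n => hcl2 n _)
    obtain ⟨σ, hσ⟩ := h1
    refine ⟨σ, huniq _ _ ?_⟩
    intro n
    exact (hψ σ n).trans (Set.mem_iInter.mp hσ n)

end Limit

section Chain

variable {P : Type*} [Group P] [TopologicalSpace P] [IsTopologicalGroup P] [CompactSpace P]
  [TotallyDisconnectedSpace P] [FirstCountableTopology P]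

/-- A metrizable profinite group has a descending sequence of open normal subgroups which is a
neighbourhood basis of `1`; it may start with any given open normal subgroup. -/
theorem exists_chain (U : Subgroup P) [U.Normal] (hU : IsOpen (U : Set P)) :
    ∃ V : ℕ → Subgroup P, V 0 = U ∧ (∀ n, (V n).Normal) ∧ (∀ n, IsOpen (V n : Set P)) ∧
      (∀ n, V (n + 1) ≤ V n) ∧
      ∀ W : Set P, IsOpen W → (1 : P) ∈ W → ∃ n, (V n : Set P) ⊆ W := by
  obtain ⟨B, hB⟩ := (nhds (1 : P)).exists_antitone_basis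
  have h1 : ∀ n, ∃ N : OpenNormalSubgroup P, (N : Set P) ⊆ B n := by
    intro n
    obtain ⟨W, hW, hWo, hW1⟩ := mem_nhds_iff.mp (hB.mem n)
    obtain ⟨N, hN⟩ := ProfiniteGrp.exist_openNormalSubgroup_sub_open_nhds_of_one hWo hW1
    exact ⟨N, hN.trans hW⟩
  choose N hN using h1
  let V : ℕ → OpenNormalSubgroup P := fun n =>
    Nat.rec (motive := fun _ => OpenNormalSubgroup P)
      { toSubgroup := U, isOpen' := hU, isNormal' := inferInstance } (fun n X => X ⊓ N n) n
  have hVs : ∀ n, V (n + 1) = V n ⊓ N n := fun n => rfl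
  refine ⟨fun n => (V n).toSubgroup, rfl, fun n => (V n).isNormal', fun n => (V n).isOpen', ?_, ?_⟩
  · intro n
    have h2 : V (n + 1) ≤ V n := by
      rw [hVs]
      exact inf_le_left
    exact h2
  · intro W hWo hW1
    obtain ⟨n, -, hn⟩ := hB.toHasBasis.mem_iff.mp (hWo.mem_nhds hW1)
    refine ⟨n + 1, ?_⟩
    have h2 : V (n + 1) ≤ N n := by
      rw [hVs]
      exact inf_le_right
    exact fun x hx => hn (hN n (h2 hx))

end Chain

section Main

variable {K : Type u} [Field K]

/-- A finite Galois extension gives an epimorphism from the absolute Galois group. -/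
theorem exists_hom_of_galois {G : Type} [Group G] (M : Type u) [Field M] [Algebra K M]
    [FiniteDimensional K M] [IsGalois K M] (e : (M ≃ₐ[K] M) ≃* G) :
    ∃ (j : M →ₐ[K] SeparableClosure K)
      (φ : (SeparableClosure K ≃ₐ[K] SeparableClosure K) →* G), Function.Surjective φ ∧
      IsOpen (φ.ker : Set (SeparableClosure K ≃ₐ[K] SeparableClosure K)) ∧
      ∀ σ x, σ (j x) = j (e.symm (φ σ) x) := by
  let Ω := SeparableClosure K
  let j : M →ₐ[K] Ω := IsSepClosed.lift
  let _ : Algebra M Ω := j.toRingHom.toAlgebra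
  have : IsScalarTower K M Ω := IsScalarTower.of_algebraMap_eq (fun a => (j.commutes a).symm)
  let ρ : (Ω ≃ₐ[K] Ω) →* (M ≃ₐ[K] M) := AlgEquiv.restrictNormalHom M
  have hρ : Function.Surjective ρ := AlgEquiv.restrictNormalHom_surjective Ω
  have hρ' : ∀ (σ : Ω ≃ₐ[K] Ω) (x : M), j (ρ σ x) = σ (j x) := fun σ x =>
    AlgEquiv.restrictNormal_commutes σ M x
  refine ⟨j, e.toMonoidHom.comp ρ, e.surjective.comp hρ, ?_, ?_⟩
  · have h7 : (e.toMonoidHom.comp ρ).ker = (j.fieldRange).fixingSubgroup := by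
      ext σ
      rw [MonoidHom.mem_ker, IntermediateField.mem_fixingSubgroup_iff]
      change e (ρ σ) = 1 ↔ _
      rw [map_eq_one_iff e e.injective]
      constructor
      · rintro h8 _ ⟨x, rfl⟩
        change σ (j x) = j x
        rw [← hρ', h8]
        rfl
      · intro h8
        apply AlgEquiv.ext
        intro x
        refine j.injective (?_ : j (ρ σ x) = j x)
        rw [hρ']
        exact h8 (j x) ⟨x, rfl⟩
    rw [h7]
    have : FiniteDimensional K j.fieldRange :=
      (AlgEquiv.ofInjectiveField j).toLinearEquiv.finiteDimensional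
    exact IntermediateField.fixingSubgroup_isOpen _
  · intro σ x
    change σ (j x) = j (e.symm (e (ρ σ)) x)
    rw [MulEquiv.symm_apply_apply, hρ']

variable {P : Type} [Group P] [TopologicalSpace P] [IsTopologicalGroup P]
  [CompactSpace P] [T2Space P]

omit [IsTopologicalGroup P] [CompactSpace P] in
/-- A continuous epimorphism from the absolute Galois group gives a Galois extension. -/
theorem exists_galois_of_hom
    (ψ : (SeparableClosure K ≃ₐ[K] SeparableClosure K) →* P) (hc : Continuous ψ)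
    (hs : Function.Surjective ψ) :
    ∃ (L : IntermediateField K (SeparableClosure K)) (_ : IsGalois K L)
      (e : (L ≃ₐ[K] L) ≃ₜ* P), ∀ σ, e (AlgEquiv.restrictNormalHom L σ) = ψ σ := by
  let Ω := SeparableClosure K
  let H : ClosedSubgroup (Ω ≃ₐ[K] Ω) := ⟨ψ.ker, isClosed_singleton.preimage hc⟩
  have hH : H.toSubgroup.Normal := MonoidHom.normal_ker ψ
  let L : IntermediateField K Ω := IntermediateField.fixedField ψ.ker
  have hL : L.fixingSubgroup = ψ.ker := InfiniteGalois.fixingSubgroup_fixedField H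
  have hgal : IsGalois K L := by
    rw [← InfiniteGalois.normal_iff_isGalois, hL]
    exact MonoidHom.normal_ker ψ
  let e : (L ≃ₐ[K] L) ≃* P := (InfiniteGalois.normalAutEquivQuotient H).symm.trans
    (QuotientGroup.quotientKerEquivOfSurjective ψ hs)
  have he : ∀ σ : Ω ≃ₐ[K] Ω, e (AlgEquiv.restrictNormalHom L σ) = ψ σ := by
    intro σ
    have h2 : AlgEquiv.restrictNormalHom L σ =
        InfiniteGalois.normalAutEquivQuotient H (QuotientGroup.mk σ) := rfl
    rw [h2, MulEquiv.trans_apply, MulEquiv.symm_apply_apply]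
    rfl
  have hρc : Continuous (AlgEquiv.restrictNormalHom (F := K) (K₁ := Ω) L) :=
    InfiniteGalois.restrictNormalHom_continuous L
  have hρs : Function.Surjective (AlgEquiv.restrictNormalHom (F := K) (K₁ := Ω) L) :=
    AlgEquiv.restrictNormalHom_surjective Ω
  have hq : Topology.IsQuotientMap (AlgEquiv.restrictNormalHom (F := K) (K₁ := Ω) L) :=
    (hρc.isClosedMap).isQuotientMap hρc hρs
  have hec : Continuous e := by
    rw [hq.continuous_iff]
    have h3 : e ∘ (AlgEquiv.restrictNormalHom (F := K) (K₁ := Ω) L) = ψ := by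
      ext σ
      exact he σ
    rw [h3]
    exact hc
  let e' : (L ≃ₐ[K] L) ≃ₜ* P :=
    { e with
      continuous_toFun := hec
      continuous_invFun := (hec.homeoOfEquivCompactToT2 (f := e.toEquiv)).symm.continuous }
  exact ⟨L, hgal, e', he⟩

/-- Embedding problems with profinite kernel: let `P` be a metrizable profinite group and `U` an
open normal subgroup of `P`. If the finite embedding problems `P ⧸ V → P ⧸ V'` with `V ≤ V' ≤ U`
open normal subgroups are properly solvable over `K`, then for every Galois extension `M` of `K`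
with group `P ⧸ U` there is a Galois extension `L` of `K`, containing `M`, with group `P`, and
inducing the given identification of the Galois group of `M` with `P ⧸ U`. -/
theorem solves_profinite [TotallyDisconnectedSpace P] [FirstCountableTopology P]
    (U : Subgroup P) [U.Normal] (hU : IsOpen (U : Set P))
    (hS : ∀ (V V' : Subgroup P) [V.Normal] [V'.Normal] (h : V ≤ V'), IsOpen (V : Set P) →
      V' ≤ U → Solves K (QuotientGroup.map V V' (MonoidHom.id P) h))
    (M : Type u) [Field M] [Algebra K M] [FiniteDimensional K M] [IsGalois K M]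
    (e : (M ≃ₐ[K] M) ≃* P ⧸ U) :
    ∃ (L : Type u) (_ : Field L) (_ : Algebra K L) (_ : IsGalois K L)
      (e' : (L ≃ₐ[K] L) ≃ₜ* P) (i : M →ₐ[K] L),
      ∀ (σ : L ≃ₐ[K] L) (x : M), σ (i x) = i (e.symm (QuotientGroup.mk (e' σ)) x) := by
  obtain ⟨V, h0, hn, ho, hV, hb⟩ := exists_chain U hU
  have hn' : ∀ n, (V n).Normal := hn
  subst h0
  have hV0 : ∀ n, V n ≤ V 0 := by
    intro n
    induction n with
    | zero => exact le_rfl
    | succ n ih => exact (hV n).trans ih
  obtain ⟨j, φ₀, hs0, ho0, hj⟩ := exists_hom_of_galois M e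
  let Γ := SeparableClosure K ≃ₐ[K] SeparableClosure K
  have hstep : ∀ (n : ℕ) (φ : Γ →* P ⧸ V n), Function.Surjective φ ∧ IsOpen (φ.ker : Set Γ) →
      ∃ φ' : Γ →* P ⧸ V (n + 1), (Function.Surjective φ' ∧ IsOpen (φ'.ker : Set Γ)) ∧
        (QuotientGroup.map (V (n + 1)) (V n) (MonoidHom.id P) (hV n)).comp φ' = φ := by
    intro n φ hφ
    obtain ⟨φ', h1, h2, h3⟩ := (hS (V (n + 1)) (V n) (hV n) (ho _) (hV0 n)).exists_hom φ
      hφ.1 hφ.2
    exact ⟨φ', ⟨h1, h2⟩, h3⟩
  choose s hs1 hs2 using hstep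
  let T : (n : ℕ) → {φ : Γ →* P ⧸ V n // Function.Surjective φ ∧ IsOpen (φ.ker : Set Γ)} :=
    fun n => Nat.rec (motive := fun n => {φ : Γ →* P ⧸ V n //
      Function.Surjective φ ∧ IsOpen (φ.ker : Set Γ)}) ⟨φ₀, hs0, ho0⟩
      (fun n x => ⟨s n x.1 x.2, hs1 n x.1 x.2⟩) n
  obtain ⟨ψ, hψc, hψs, hψ⟩ := exists_limit_hom V ho hV hb (fun n => (T n).1)
    (fun n => (T n).2.1) (fun n => (T n).2.2) (fun n => hs2 n (T n).1 (T n).2)
  obtain ⟨L, hL, e', he'⟩ := exists_galois_of_hom ψ hψc hψs
  have hψ0 : ∀ σ, (QuotientGroup.mk (ψ σ) : P ⧸ V 0) = φ₀ σ := hψ 0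
  have hLf : ∀ y : SeparableClosure K, (∀ σ : Γ, ψ σ = 1 → σ y = y) → y ∈ L := by
    intro y hy
    have h1 : y ∈ IntermediateField.fixedField L.fixingSubgroup := by
      rw [IntermediateField.mem_fixedField_iff]
      intro σ hσ
      apply hy
      rw [← he']
      have h2 : AlgEquiv.restrictNormalHom L σ = 1 := by
        rw [← MonoidHom.mem_ker, IntermediateField.restrictNormalHom_ker]
        exact hσ
      rw [h2, map_one]
    rwa [InfiniteGalois.fixedField_fixingSubgroup] at h1
  have hjL : ∀ x, j x ∈ L := by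
    intro x
    apply hLf
    intro σ hσ
    rw [hj, ← hψ0, hσ]
    have h3 : ((1 : P) : P ⧸ V 0) = 1 := rfl
    rw [h3, map_one]
    rfl
  refine ⟨L, inferInstance, inferInstance, hL, e', j.codRestrict L.toSubalgebra hjL, ?_⟩
  intro σ x
  obtain ⟨τ, rfl⟩ := AlgEquiv.restrictNormalHom_surjective (SeparableClosure K) σ
  apply Subtype.ext
  rw [he', hψ0]
  exact (AlgEquiv.restrictNormal_commutes τ L ⟨j x, hjL x⟩).trans (hj τ x)

/-- If all finite embedding problems `P ⧸ V → P ⧸ V'` are properly solvable over `K`, then `P` is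
the Galois group of a Galois extension of `K`. -/
theorem exists_galois_profinite [TotallyDisconnectedSpace P] [FirstCountableTopology P]
    (hS : ∀ (V V' : Subgroup P) [V.Normal] [V'.Normal] (h : V ≤ V'), IsOpen (V : Set P) →
      Solves K (QuotientGroup.map V V' (MonoidHom.id P) h)) :
    ∃ (L : Type u) (_ : Field L) (_ : Algebra K L) (_ : IsGalois K L),
      Nonempty ((L ≃ₐ[K] L) ≃ₜ* P) := by
  have h1 : Subsingleton (P ⧸ (⊤ : Subgroup P)) := QuotientGroup.subsingleton_quotient_top
  have h2 : Subsingleton (K ≃ₐ[K] K) := by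
    refine ⟨fun a b => AlgEquiv.ext fun x => ?_⟩
    rw [← Algebra.algebraMap_self_apply (R := K) x, a.commutes, b.commutes]
  let e : (K ≃ₐ[K] K) ≃* P ⧸ (⊤ : Subgroup P) :=
    { toFun := fun _ => 1
      invFun := fun _ => 1
      left_inv := fun _ => Subsingleton.elim _ _
      right_inv := fun _ => Subsingleton.elim _ _
      map_mul' := fun _ _ => Subsingleton.elim _ _ }
  obtain ⟨L, _, _, h3, e', -, -⟩ := solves_profinite (K := K) (⊤ : Subgroup P) isOpen_univ
    (fun V V' _ _ h ho _ => hS V V' h ho) K e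
  exact ⟨L, inferInstance, inferInstance, h3, ⟨e'⟩⟩

end Main

end MP7fE
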