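import Pool.Agent.Lib.MP_7f581e_ntE.PKer
import Pool.Agent.Lib.MP_7f581e_ntE.Induct
import Pool.Agent.Lib.MP_7f581e_ntE.Profinite
import Pool.Agent.Lib.MP_7f581e_ntC.Prod
import Pool.Agent.Lib.HilbertFq.Main

/-!
Consequences of the solvability of embedding problems whose kernels are powers of simple groups
of a given class: kernels with composition factors in the class, profinite kernels, regular
realizations.
-/

set_option autoImplicit false
set_option linter.unusedSectionVars false

universe u v

namespace MP7fE

open MP7fR MP7fC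

/-- Classes of groups. -/
abbrev GroupClass : Type 1 := (S : Type) → [Group S] → Prop

/-- The class `𝒮` consists of simple groups and every embedding problem over a Hilbertian field
containing `k` whose kernel is a power of a member of `𝒮` has a proper solution. -/
structure Good (k : Type) [Field k] (𝒮 : GroupClass) : Prop where
  congr : ∀ (S T : Type) [Group S] [Group T], (S ≃* T) → 𝒮 S → 𝒮 T
  simple : ∀ (S : Type) [Group S], 𝒮 S → IsSimpleGroup S
  step : ∀ {K : Type u} [Field K] [Algebra k K], IsHilbertian K → ∀ (E : Type) [Group E]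
    [Finite E] (N : Subgroup E) [N.Normal] (S : Type) [Group S] (n : ℕ), 𝒮 S →
    (N ≃* (Fin n → S)) → Solves K (QuotientGroup.mk' N)

/-- Every split embedding problem over a Hilbertian field containing `k` whose kernel is a power
of a member of `𝒬` has a proper solution. -/
structure GoodSplit (k : Type) [Field k] (𝒬 : GroupClass) : Prop where
  step : ∀ {K : Type u} [Field K] [Algebra k K], IsHilbertian K → ∀ (E Q : Type) [Group E]
    [Finite E] [Group Q] [Finite Q] (f : E →* Q) (s : Q →* E) (_ : ∀ q, f (s q) = q) (H : Type)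
    [Group H] (n : ℕ), 𝒬 H → (f.ker ≃* (Fin n → H)) → Solves K f

section powers

/-- The power of a homomorphism. -/
def powHom {E Q : Type} [Group E] [Group Q] (m : ℕ) (f : E →* Q) :
    (Fin m → E) →* (Fin m → Q) where
  toFun x := fun i => f (x i)
  map_one' := funext fun _ => map_one f
  map_mul' _ _ := funext fun _ => map_mul f _ _

theorem powHom_surjective {E Q : Type} [Group E] [Group Q] (m : ℕ) (f : E →* Q)
    (hf : Function.Surjective f) : Function.Surjective (powHom m f) := by
  intro y
  choose x hx using fun i => hf (y i)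
  exact ⟨x, funext hx⟩

/-- The kernel of the power. -/
def kerPow {E Q : Type} [Group E] [Group Q] (m : ℕ) (f : E →* Q) :
    (Fin m → f.ker) →* (powHom m f).ker where
  toFun x := ⟨fun i => (x i : E), by
    rw [MonoidHom.mem_ker]
    exact funext fun i => (x i).2⟩
  map_one' := rfl
  map_mul' _ _ := rfl

theorem kerPow_surjective {E Q : Type} [Group E] [Group Q] (m : ℕ) (f : E →* Q) :
    Function.Surjective (kerPow m f) := by
  rintro ⟨x, hx⟩
  exact ⟨fun i => ⟨x i, congrFun (MonoidHom.mem_ker.mp hx) i⟩, rfl⟩

theorem kerPow_injective {E Q : Type} [Group E] [Group Q] (m : ℕ) (f : E →* Q) :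
    Function.Injective (kerPow m f) := by
  intro x y h
  funext i
  apply Subtype.ext
  exact congrFun (congrArg Subtype.val h) i

/-- Powers of powers. -/
def powPow (H : Type) [Group H] (n m : ℕ) : (Fin n → Fin m → H) ≃* (Fin (n * m) → H) where
  toFun y l := y (finProdFinEquiv.symm l).1 (finProdFinEquiv.symm l).2
  invFun x i j := x (finProdFinEquiv (i, j))
  left_inv y := funext fun i => funext fun j => by
    change y (finProdFinEquiv.symm (finProdFinEquiv (i, j))).1
      (finProdFinEquiv.symm (finProdFinEquiv (i, j))).2 = y i j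
    rw [Equiv.symm_apply_apply]
  right_inv x := funext fun l => by
    change x (finProdFinEquiv ((finProdFinEquiv.symm l).1, (finProdFinEquiv.symm l).2)) = x l
    rw [Prod.mk.eta, Equiv.apply_symm_apply]
  map_mul' _ _ := rfl

theorem hasFactors_kerPow {𝒮 : GroupClass}
    (hiso : ∀ (S T : Type) [Group S] [Group T], (S ≃* T) → 𝒮 S → 𝒮 T)
    (hsim : ∀ (S : Type) [Group S], 𝒮 S → IsSimpleGroup S)
    {E Q : Type} [Group E] [Group Q] {f : E →* Q}
    (h : HasFactors 𝒮 f.ker) (m : ℕ) : HasFactors 𝒮 (powHom m f).ker :=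
  (h.pow hiso hsim m).of_surjective hiso hsim _ (kerPow m f) (kerPow_surjective m f)

/-- Powers of groups which occur regularly over a finite field. -/
theorem occursRegularly_pow {k : Type} [Field k] [Finite k] {E : Type} [Group E] [Finite E]
    (h : OccursRegularly E k) (m : ℕ) : OccursRegularly (Fin m → E) k := by
  have hH : IsHilbertian (RatFunc k) := MP7fR.isHilbertian_ratFunc k
  refine (per_group (G := Fin m → E) (Nat.lt_succ_self _) (k := k) ?_).1 k
  set n := (Nat.card (Abelianization (Fin m → E))).primeFactors.card + 1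
  have h1 : Occurs (Fin (n * m) → E) (RatFunc k) := occurs_pow h hH (n * m)
  exact MP7fS.occurs_congr (powPow E n m).symm h1

end powers

section main

variable {p : ℕ} [Fact p.Prime] {k : Type} [Field k] [Finite k] [CharP k p] {𝒮 𝒬 : GroupClass}

omit [Finite k] in
theorem Good.solves (h𝒮 : Good.{u} k 𝒮) {K : Type u} [Field K] [Algebra k K] (hK : IsHilbertian K)
    (E : Type) [Group E] [Finite E] (N : Subgroup E) [N.Normal] (hN : HasFactors 𝒮 N) :
    Solves K (QuotientGroup.mk' N) :=
  solves_of_factors h𝒮.congr h𝒮.simple (h𝒮.step hK) E N hN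

omit [Finite k] in
theorem Good.solves_surjective (h𝒮 : Good.{u} k 𝒮) {K : Type u} [Field K] [Algebra k K]
    (hK : IsHilbertian K) {E G : Type} [Group E] [Finite E] [Group G] {f : E →* G}
    (hf : Function.Surjective f) (hN : HasFactors 𝒮 f.ker) : Solves K f :=
  SolvesOver.of_mk hf (h𝒮.solves hK E f.ker hN)

omit [Finite k] in
/-- Embedding problems with profinite kernel. -/
theorem Good.profinite (h𝒮 : Good.{u} k 𝒮) {K : Type u} [Field K] [Algebra k K]
    (hK : IsHilbertian K) {P : Type} [Group P] [TopologicalSpace P] [IsTopologicalGroup P]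
    [CompactSpace P] [T2Space P] [TotallyDisconnectedSpace P] [FirstCountableTopology P]
    (U : Subgroup P) [U.Normal] (hU : IsOpen (U : Set P))
    (hfac : ∀ (V : Subgroup P) [V.Normal], IsOpen (V : Set P) → V ≤ U →
      HasFactors 𝒮 (U.map (QuotientGroup.mk' V)))
    (M : Type u) [Field M] [Algebra K M] [FiniteDimensional K M] [IsGalois K M]
    (e : (M ≃ₐ[K] M) ≃* P ⧸ U) :
    ∃ (L : Type u) (_ : Field L) (_ : Algebra K L) (_ : IsGalois K L)
      (e' : (L ≃ₐ[K] L) ≃ₜ* P) (i : M →ₐ[K] L),
      ∀ (σ : L ≃ₐ[K] L) (x : M), σ (i x) = i (e.symm (QuotientGroup.mk (e' σ)) x) := by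
  refine solves_profinite U hU ?_ M e
  intro V V' _ _ h hV hV'
  have hfin : Finite (P ⧸ V) := Subgroup.quotient_finite_of_isOpen V hV
  refine h𝒮.solves_surjective hK ?_ ?_
  · intro x
    obtain ⟨x, rfl⟩ := QuotientGroup.mk_surjective x
    exact ⟨x, rfl⟩
  · set f := QuotientGroup.map V V' (MonoidHom.id P) h with hf
    have hle : f.ker ≤ U.map (QuotientGroup.mk' V) := by
      intro x hx
      obtain ⟨x, rfl⟩ := QuotientGroup.mk_surjective x
      have h1 : ((x : P) : P ⧸ V') = 1 := hx
      exact ⟨x, hV' ((QuotientGroup.eq_one_iff x).mp h1), rfl⟩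
    refine (hfac V hV (h.trans hV')).of_injective h𝒮.congr h𝒮.simple _ (Subgroup.inclusion hle)
      (Subgroup.inclusion_injective hle) ?_
    constructor
    rintro _ ⟨x, rfl⟩ g
    exact ⟨⟨g * x * g⁻¹, (inferInstance : f.ker.Normal).conj_mem x x.2 g⟩, rfl⟩

theorem occurs_of_subsingleton {K : Type u} [Field K] (E : Type) [Group E] [Subsingleton E] :
    Occurs E K := by
  refine ⟨K, inferInstance, inferInstance, inferInstance, inferInstance, ⟨?_⟩⟩
  have h1 : Subsingleton (K ≃ₐ[K] K) := ⟨fun f g => AlgEquiv.ext fun x => by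
    rw [← Algebra.algebraMap_self_apply x, AlgEquiv.commutes, AlgEquiv.commutes]⟩
  let _ : Unique (K ≃ₐ[K] K) := Unique.mk' _
  let _ : Unique E := { default := 1, uniq := fun a => Subsingleton.elim _ _ }
  exact MulEquiv.ofUnique

/-- Closure of regular realizability under extensions. -/
theorem Good.closure_regular (h𝒮 : Good.{0} k 𝒮)
    {E : Type} [Group E] [Finite E] (N : Subgroup E) [N.Normal] (hN : HasFactors 𝒮 N)
    (h : OccursRegularly (E ⧸ N) k) (K : Type v) [Field K] [Algebra k K] :
    OccursRegularly E K := by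
  have hk : HasFactors 𝒮 (QuotientGroup.mk' N).ker := by
    rw [QuotientGroup.ker_mk']
    exact hN
  refine (per_group (Nat.lt_succ_self _) (k := k) ?_).1 K
  have hH : IsHilbertian (RatFunc k) := MP7fR.isHilbertian_ratFunc k
  have h1 := occurs_pow h hH ((Nat.card (Abelianization E)).primeFactors.card + 1)
  exact (h𝒮.solves_surjective hH (powHom_surjective _ _ (QuotientGroup.mk'_surjective N))
    (hasFactors_kerPow h𝒮.congr h𝒮.simple hk _)).occurs h1

end main

end MP7fE
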