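import Pool.Agent.Lib.MP_7f581e_ntE.Defs
import Pool.Agent.Lib.MP_7f581e_ntS.PKerF

/-!
Embedding problems whose kernel is a `p`-group, over Hilbertian fields of characteristic `p`.
-/

set_option autoImplicit false
set_option linter.unusedSectionVars false

universe u

namespace MP7fE

open MP7fR MP7fS

section formal

variable {K F : Type u} [Field K] [Field F] [Algebra K F]

/-- Changing the target by an isomorphism. -/
theorem SolvesOver.congr_target {E G G' : Type} [Group E] [Group G] [Group G'] {f : E →* G}
    (h : SolvesOver K F f) (e : G ≃* G') : SolvesOver K F (e.toMonoidHom.comp f) := by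
  intro M _ _ _ _ e0
  obtain ⟨L, _, _, h1, h2, e', i, h3, h4⟩ := h M (e0.trans e.symm)
  refine ⟨L, inferInstance, inferInstance, h1, h2, e', i, h3, ?_⟩
  intro σ x
  rw [h4]
  rfl

/-- Changing the source by an isomorphism. -/
theorem SolvesOver.congr_source {E E' G : Type} [Group E] [Group E'] [Group G] {f : E →* G}
    (h : SolvesOver K F f) (e : E' ≃* E) : SolvesOver K F (f.comp e.toMonoidHom) :=
  h.of_surjective e.symm.toMonoidHom e.symm.surjective (fun x => by
    change f (e (e.symm x)) = f x
    rw [e.apply_symm_apply])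

/-- An epimorphism is solvable as soon as the projection to the quotient by its kernel is. -/
theorem SolvesOver.of_mk {E G : Type} [Group E] [Group G] {f : E →* G}
    (hf : Function.Surjective f) (h : SolvesOver K F (QuotientGroup.mk' f.ker)) :
    SolvesOver K F f := by
  have h1 := h.congr_target (QuotientGroup.quotientKerEquivOfSurjective f hf)
  have h2 : (QuotientGroup.quotientKerEquivOfSurjective f hf).toMonoidHom.comp
      (QuotientGroup.mk' f.ker) = f := by
    ext x
    rfl
  rwa [h2] at h1

/-- Changing the extension field by an isomorphism. -/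
theorem SolvesOver.congr_field {E G : Type} [Group E] [Group G] {f : E →* G}
    (h : SolvesOver K F f) {F' : Type u} [Field F'] [Algebra K F'] (ε : F ≃ₐ[K] F') :
    SolvesOver K F' f := by
  intro M _ _ _ _ e
  obtain ⟨L, _, _, h1, h2, e', i, h3, h4⟩ := h M e
  let _ : Algebra F' L := ((algebraMap F L).comp (ε.symm : F' →+* F)).toAlgebra
  have hal : ∀ x : F, algebraMap F' L (ε x) = algebraMap F L x := by
    intro x
    change algebraMap F L (ε.symm (ε x)) = _
    rw [ε.symm_apply_apply]
  have hal' : ∀ x : F', algebraMap F' L x = algebraMap F L (ε.symm x) := fun x => rfl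
  have hcomp : RingHom.comp (algebraMap F' L) ε.toRingEquiv = algebraMap F L := by
    ext x
    exact hal x
  have hfin : FiniteDimensional F' L := by
    apply Module.Finite.of_equiv_equiv ε.toRingEquiv (RingEquiv.refl L)
    ext x
    exact hal x
  have hgal : IsGalois F' L := by
    apply IsGalois.of_equiv_equiv (F := F) (E := L) (f := ε.toRingEquiv) (g := RingEquiv.refl L)
    ext x
    exact hal x
  let toF : (L ≃ₐ[F'] L) ≃* (L ≃ₐ[F] L) :=
    { toFun := fun σ => AlgEquiv.ofRingEquiv (f := σ.toRingEquiv) (fun x => by
        rw [← hal]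
        exact σ.commutes (ε x))
      invFun := fun σ => AlgEquiv.ofRingEquiv (f := σ.toRingEquiv) (fun x => σ.commutes _)
      left_inv := fun σ => by
        ext x
        rfl
      right_inv := fun σ => by
        ext x
        rfl
      map_mul' := fun σ τ => by
        ext x
        rfl }
  refine ⟨L, inferInstance, inferInstance, hfin, hgal, toF.trans e', i, ?_, ?_⟩
  · intro a
    rw [h3, hal', ε.symm.commutes]
  · intro σ x
    exact h4 (toF σ) x

/-- Composition of quotient maps. -/
theorem Solves.mk_of_le {E : Type} [Group E] {A N : Subgroup E} [A.Normal] [N.Normal]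
    (hAN : A ≤ N) (h1 : Solves K (QuotientGroup.mk' (N.map (QuotientGroup.mk' A))))
    (h2 : SolvesOver K F (QuotientGroup.mk' A)) : SolvesOver K F (QuotientGroup.mk' N) := by
  have h3 := Solves.comp h1 h2
  have h4 := h3.congr_target (QuotientGroup.quotientQuotientEquivQuotient A N hAN)
  have h5 : (QuotientGroup.quotientQuotientEquivQuotient A N hAN).toMonoidHom.comp
      ((QuotientGroup.mk' (N.map (QuotientGroup.mk' A))).comp (QuotientGroup.mk' A)) =
      QuotientGroup.mk' N := by
    ext x
    rfl
  rwa [h5] at h4

/-- The trivial kernel. -/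
theorem solves_mk_bot {E : Type} [Group E] : Solves K (QuotientGroup.mk' (⊥ : Subgroup E)) := by
  intro M _ _ _ _ e
  refine ⟨M, inferInstance, inferInstance, inferInstance, inferInstance,
    e.trans QuotientGroup.quotientBot, RingHom.id M, fun a => rfl, fun σ x => ?_⟩
  change σ x = e.symm (((QuotientGroup.quotientBot (e σ) : E)) : E ⧸ (⊥ : Subgroup E)) x
  have h1 : (((QuotientGroup.quotientBot (e σ) : E)) : E ⧸ (⊥ : Subgroup E)) = e σ := by
    obtain ⟨y, hy⟩ := QuotientGroup.mk_surjective (e σ)
    rw [← hy]
    rfl
  rw [h1, e.symm_apply_apply]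

/-- A solution in a big Galois extension gives a finite solution. -/
theorem solution_of_hom {M Ω : Type u} [Field M] [Algebra K M] [Field Ω] [Algebra F Ω]
    [IsGalois F Ω] {E : Type} [Group E] (Φ : (Ω ≃ₐ[F] Ω) →* E) (hΦ : Function.Surjective Φ)
    (L : IntermediateField F Ω) [FiniteDimensional F L] (hL : Φ.ker = L.fixingSubgroup)
    (i : M →+* Ω) (h1 : ∀ a : K, i (algebraMap K M a) = algebraMap F Ω (algebraMap K F a))
    (ac : E →* (M ≃ₐ[K] M)) (h2 : ∀ (σ : Ω ≃ₐ[F] Ω) (x : M), σ (i x) = i (ac (Φ σ) x)) :
    ∃ (L : Type u) (_ : Field L) (_ : Algebra F L) (_ : FiniteDimensional F L)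
      (_ : IsGalois F L) (e' : (L ≃ₐ[F] L) ≃* E) (i : M →+* L),
      (∀ a : K, i (algebraMap K M a) = algebraMap F L (algebraMap K F a)) ∧
      ∀ (σ : L ≃ₐ[F] L) (x : M), σ (i x) = i (ac (e' σ) x) := by
  have hn : L.fixingSubgroup.Normal := by
    rw [← hL]
    infer_instance
  have hg : IsGalois F L := (InfiniteGalois.normal_iff_isGalois L).mp hn
  have hs : Function.Surjective (AlgEquiv.restrictNormalHom (F := F) (K₁ := Ω) L) :=
    AlgEquiv.restrictNormalHom_surjective Ω
  have hk : (AlgEquiv.restrictNormalHom (F := F) (K₁ := Ω) L).ker = Φ.ker := by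
    rw [hL]
    exact IntermediateField.restrictNormalHom_ker L
  let e' : (L ≃ₐ[F] L) ≃* E := (QuotientGroup.quotientKerEquivOfSurjective _ hs).symm.trans
    ((QuotientGroup.quotientMulEquivOfEq hk).trans
      (QuotientGroup.quotientKerEquivOfSurjective Φ hΦ))
  have he' : ∀ σ : Ω ≃ₐ[F] Ω, e' (AlgEquiv.restrictNormalHom L σ) = Φ σ := by
    intro σ
    have h3 : (QuotientGroup.quotientKerEquivOfSurjective _ hs).symm
        (AlgEquiv.restrictNormalHom L σ) = (σ : (Ω ≃ₐ[F] Ω) ⧸
          (AlgEquiv.restrictNormalHom (F := F) (K₁ := Ω) L).ker) := by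
      rw [MulEquiv.symm_apply_eq]
      rfl
    change (QuotientGroup.quotientKerEquivOfSurjective Φ hΦ)
      (QuotientGroup.quotientMulEquivOfEq hk
        ((QuotientGroup.quotientKerEquivOfSurjective _ hs).symm
          (AlgEquiv.restrictNormalHom L σ))) = _
    rw [h3]
    rfl
  have hi : ∀ x : M, i x ∈ L := by
    intro x
    rw [← InfiniteGalois.fixedField_fixingSubgroup L, IntermediateField.mem_fixedField_iff]
    intro σ hσ
    rw [← hL] at hσ
    have h3 : Φ σ = 1 := hσ
    rw [h2, h3, map_one]
    rfl
  refine ⟨L, inferInstance, inferInstance, inferInstance, hg, e',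
    i.codRestrict L hi, ?_, ?_⟩
  · intro a
    apply Subtype.ext
    exact h1 a
  · intro σ x
    obtain ⟨τ, rfl⟩ := hs σ
    rw [he']
    apply Subtype.ext
    exact (AlgEquiv.restrictNormal_commutes τ L ⟨i x, hi x⟩).trans (h2 τ x)

end formal

section pker

variable {p : ℕ} [Fact p.Prime]

theorem exists_ext {K M : Type u} [Field K] [Field M] [Algebra K M] {E : Type} [Group E]
    [Finite E] (A : Subgroup E) [hAn : A.Normal] (hcomm : ∀ a ∈ A, ∀ b ∈ A, a * b = b * a)
    (hexp : ∀ a ∈ A, a ^ p = 1) (e : (M ≃ₐ[K] M) ≃* (E ⧸ A)) :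
    ∃ (n : ℕ) (X : Ext p n K M E), ∀ x, X.pi x = e.symm (QuotientGroup.mk' A x) := by
  classical
  obtain ⟨n, ⟨e0⟩⟩ : ∃ n : ℕ, Nonempty (Multiplicative (Fin n → ZMod p) ≃* A) := by
    let _ : CommGroup A := { (inferInstance : Group A) with
      mul_comm := fun a b => Subtype.ext (hcomm _ a.2 _ b.2) }
    exact exists_equiv A (fun a => Subtype.ext (hexp _ a.2))
  let th : Multiplicative (Fin n → ZMod p) →* E := A.subtype.comp e0.toMonoidHom
  have hth : ∀ w : Multiplicative (Fin n → ZMod p), th w = ((e0 w : A) : E) := fun _ => rfl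
  let cj : E → ((Fin n → ZMod p) →+ (Fin n → ZMod p)) := fun x =>
    AddMonoidHom.toMultiplicative.symm
      ((e0.symm.toMonoidHom.comp (MulAut.conjNormal (H := A) x).toMonoidHom).comp e0.toMonoidHom)
  have hcj : ∀ (x : E) (v : Fin n → ZMod p), th (Multiplicative.ofAdd (cj x v)) =
      x * th (Multiplicative.ofAdd v) * x⁻¹ := by
    intro x v
    have h1 : Multiplicative.ofAdd (cj x v) =
        e0.symm (MulAut.conjNormal (H := A) x (e0 (Multiplicative.ofAdd v))) := rfl
    rw [h1, hth, e0.apply_symm_apply, hth]
    exact MulAut.conjNormal_apply x (e0 (Multiplicative.ofAdd v))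
  have hinj : Function.Injective th := fun v w h => e0.injective (Subtype.ext h)
  have hinj' : ∀ v w : Fin n → ZMod p, th (Multiplicative.ofAdd v) = th (Multiplicative.ofAdd w) →
      v = w := fun v w h => Multiplicative.ofAdd.injective (hinj h)
  let P0 : E → Matrix (Fin n) (Fin n) (ZMod p) := fun x =>
    LinearMap.toMatrix' (AddMonoidHom.toZModLinearMap p (cj x))
  have hP0 : ∀ x w, (P0 x).mulVec w = cj x w := by
    intro x w
    rw [← Matrix.toLin'_apply, Matrix.toLin'_toMatrix']
    rfl
  have hPext : ∀ P Q : Matrix (Fin n) (Fin n) (ZMod p), (∀ w, P.mulVec w = Q.mulVec w) → P = Q := by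
    intro P Q h
    apply Matrix.toLin'.injective
    apply LinearMap.ext
    intro w
    rw [Matrix.toLin'_apply, Matrix.toLin'_apply, h]
  refine ⟨n, { th := th
               th_inj := hinj
               pi := (e.symm.toMonoidHom).comp (QuotientGroup.mk' A)
               pi_surj := e.symm.surjective.comp (QuotientGroup.mk'_surjective A)
               ker := ?_
               P := { toFun := P0
                      map_one' := ?_
                      map_mul' := ?_ }
               hP := ?_ }, fun x => rfl⟩
  · intro x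
    have h1 : ((e.symm.toMonoidHom).comp (QuotientGroup.mk' A)) x = 1 ↔ x ∈ A := by
      change e.symm ((x : E) : E ⧸ A) = 1 ↔ _
      rw [map_eq_one_iff _ e.symm.injective, QuotientGroup.eq_one_iff]
    rw [h1]
    constructor
    · intro hx
      refine ⟨Multiplicative.toAdd (e0.symm ⟨x, hx⟩), ?_⟩
      rw [hth, ofAdd_toAdd, e0.apply_symm_apply]
    · rintro ⟨w, rfl⟩
      rw [hth]
      exact (e0 (Multiplicative.ofAdd w)).2
  · apply hPext
    intro w
    rw [hP0, Matrix.one_mulVec]
    apply hinj'
    rw [hcj]
    group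
  · intro x y
    apply hPext
    intro w
    rw [← Matrix.mulVec_mulVec, hP0, hP0, hP0]
    apply hinj'
    rw [hcj, hcj, hcj]
    group
  · intro x w
    change x * th (Multiplicative.ofAdd w) * x⁻¹ = th (Multiplicative.ofAdd ((P0 x).mulVec w))
    rw [hP0, hcj]

/-- One step: elementary abelian kernel. -/
theorem solvesOver_of_elemAbelian {K : Type u} [Field K] [CharP K p] [Infinite K] {E : Type}
    [Group E] [Finite E] (A : Subgroup E) [hAn : A.Normal] (hcomm : ∀ a ∈ A, ∀ b ∈ A, a * b = b * a)
    (hexp : ∀ a ∈ A, a ^ p = 1) : SolvesOver K (RatFunc K) (QuotientGroup.mk' A) := by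
  intro M _ _ _ _ e
  have : CharP M p := charP_of_injective_algebraMap (algebraMap K M).injective p
  obtain ⟨n, X, hX⟩ := exists_ext A hcomm hexp e
  obtain ⟨Φ, h1, L, h2, h3, i, h4, h5⟩ := X.sol_aux (SeparableClosure (RatFunc K))
  obtain ⟨L', _, _, h6, h7, e', i', h8, h9⟩ := solution_of_hom (K := K) (M := M) Φ h1 L h3 i h4
    X.pi h5
  refine ⟨L', inferInstance, inferInstance, h6, h7, e', i', h8, ?_⟩
  intro σ x
  rw [h9, hX]

/-- **Embedding problems whose kernel is a `p`-group.** -/
theorem solves_of_pKernel_aux {K : Type u} [Field K] [CharP K p] [Infinite K]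
    (hspec : ∀ {E G : Type} [Group E] [Finite E] [Group G] (f : E →* G),
      SolvesOver K (RatFunc K) f → Solves K f) :
    ∀ (k : ℕ) {E : Type} [Group E] [Finite E] (N : Subgroup E) [N.Normal], Nat.card N ≤ k →
      IsPGroup p N → Solves K (QuotientGroup.mk' N) := by
  intro k
  induction k with
  | zero =>
    intro E _ _ N _ h0 _
    exact absurd (Nat.card_pos (α := N)) (by omega)
  | succ k ih =>
    intro E _ _ N hNn hk hN
    rcases subsingleton_or_nontrivial N with hsub | hnt
    · have hbot : N = ⊥ := Subgroup.eq_bot_of_subsingleton N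
      subst hbot
      exact solves_mk_bot
    · have hZ : Nontrivial (Subgroup.center N) := hN.center_nontrivial
      -- the elements of order dividing `p` in the centre of `N`
      let A : Subgroup E :=
        { carrier := {a | a ∈ N ∧ (∀ b ∈ N, a * b = b * a) ∧ a ^ p = 1}
          mul_mem' := by
            rintro a b ⟨ha1, ha2, ha3⟩ ⟨hb1, hb2, hb3⟩
            refine ⟨mul_mem ha1 hb1, fun c hc => ?_, ?_⟩
            · rw [mul_assoc, hb2 c hc, ← mul_assoc, ha2 c hc, mul_assoc]
            · rw [Commute.mul_pow (ha2 b hb1), ha3, hb3, one_mul]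
          one_mem' := ⟨one_mem _, fun b _ => by rw [one_mul, mul_one], one_pow _⟩
          inv_mem' := by
            rintro a ⟨ha1, ha2, ha3⟩
            refine ⟨inv_mem ha1, fun c hc => ?_, by rw [inv_pow, ha3, inv_one]⟩
            have := ha2 c hc
            exact (Commute.inv_left (show Commute a c from this)).eq }
      have hAn : A.Normal := by
        constructor
        rintro a ⟨ha1, ha2, ha3⟩ g
        refine ⟨hNn.conj_mem a ha1 g, fun b hb => ?_, ?_⟩
        · have hb' : g⁻¹ * b * g ∈ N := by
            have := hNn.conj_mem b hb g⁻¹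
            rwa [inv_inv] at this
          have h1 := ha2 _ hb'
          calc g * a * g⁻¹ * b = g * (a * (g⁻¹ * b * g)) * g⁻¹ := by group
            _ = g * ((g⁻¹ * b * g) * a) * g⁻¹ := by rw [h1]
            _ = b * (g * a * g⁻¹) := by group
        · rw [conj_pow, ha3]
          group
      have hAN : A ≤ N := fun a ha => ha.1
      have hAcomm : ∀ a ∈ A, ∀ b ∈ A, a * b = b * a := fun a ha b hb => ha.2.1 b hb.1
      have hAexp : ∀ a ∈ A, a ^ p = 1 := fun a ha => ha.2.2
      have hAne : A ≠ ⊥ := by
        have hZp : IsPGroup p (Subgroup.center N) := hN.to_subgroup _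
        have hdvd : p ∣ Nat.card (Subgroup.center N) := by
          obtain ⟨m, hm⟩ := (IsPGroup.iff_card (p := p)).mp hZp
          rw [hm]
          apply dvd_pow_self
          rintro rfl
          rw [pow_zero] at hm
          have := (Nat.card_eq_one_iff_unique.mp hm).1
          exact not_subsingleton _ this
        obtain ⟨z, hz⟩ := exists_prime_orderOf_dvd_card' p hdvd
        intro hbot
        have hzA : ((z : N) : E) ∈ A := by
          refine ⟨(z : N).2, fun b hb => ?_, ?_⟩
          · have := Subgroup.mem_center_iff.mp z.2 ⟨b, hb⟩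
            exact (congrArg Subtype.val this).symm
          · have h1 : z ^ p = 1 := by
              rw [← hz]
              exact pow_orderOf_eq_one z
            have h2 := congrArg (fun t : Subgroup.center N => ((t : N) : E)) h1
            simpa using h2
        rw [hbot, Subgroup.mem_bot] at hzA
        have hz1 : z = 1 := Subtype.ext (Subtype.ext hzA)
        rw [hz1, orderOf_one] at hz
        exact (Fact.out : p.Prime).one_lt.ne hz
      -- the quotient
      have hnorm : (N.map (QuotientGroup.mk' A)).Normal :=
        Subgroup.Normal.map hNn _ (QuotientGroup.mk'_surjective A)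
      have hq : Solves K (QuotientGroup.mk' (N.map (QuotientGroup.mk' A))) := by
        apply ih (N.map (QuotientGroup.mk' A))
        · have h1 : Nat.card (N.map (QuotientGroup.mk' A)) < Nat.card N := by
            let f : N →* N.map (QuotientGroup.mk' A) := (QuotientGroup.mk' A).subgroupMap N
            have hf : Function.Surjective f := (QuotientGroup.mk' A).subgroupMap_surjective N
            apply lt_of_le_of_ne (Nat.card_le_card_of_surjective f hf)
            intro heq
            have hbij : Function.Bijective f :=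
              (Nat.bijective_iff_surjective_and_card f).mpr ⟨hf, heq.symm⟩
            apply hAne
            rw [Subgroup.eq_bot_iff_forall]
            intro a ha
            have h2 : f ⟨a, hAN ha⟩ = f 1 := by
              apply Subtype.ext
              change ((a : E) : E ⧸ A) = ((1 : E) : E ⧸ A)
              rw [QuotientGroup.mk_one, QuotientGroup.eq_one_iff]
              exact ha
            exact congrArg Subtype.val (hbij.1 h2)
          omega
        · exact hN.map (QuotientGroup.mk' A)
      exact Solves.mk_of_le hAN hq (hspec _ (solvesOver_of_elemAbelian A hAcomm hAexp))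

end pker

end MP7fE
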