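import Pool.Agent.Lib.MP_7f581e_ntS.PslF
import Pool.Agent.Lib.MP_7f581e_ntL.V7
import Pool.Agent.Lib.MP_7f581e_ntE.PKer

/-!
Embedding problems whose kernel is a power of `PSL(2,F)`, over Hilbertian fields.
-/

set_option autoImplicit false
set_option linter.unusedSectionVars false

universe u

namespace MP7fE

open Matrix MP7fR MP7fS MP7fU SemidirectProduct

/-- **Embedding problems with kernel a power of `PSL(2,F)`** over rational function fields. -/
theorem solvesOver_of_psl_kernel {p m : ℕ} [Fact p.Prime] {F : Type} [Field F] [Finite F]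
    [CharP F p] (hcard : Nat.card F = p ^ m) (hpm : p = 2 ∨ Odd m) (hF : 4 ≤ Nat.card F) {k : ℕ}
    {E : Type} [Group E] [Finite E] (N : Subgroup E) [N.Normal] (θ : N ≃* (Fin k → PSL2 F))
    {K : Type u} [Field K] [CharP K p] :
    ∃ r : ℕ, SolvesOver K (FractionRing (MvPolynomial (Fin r) K)) (QuotientGroup.mk' N) := by
  let _ : Algebra (ZMod p) F := ZMod.algebra F p
  obtain ⟨E0, ρ, n, h1, h2, h3, h4, h5⟩ := psl_split' hcard hpm hF N θ
  have hρ : ∀ (g : E0) (b : BM k F), ρ g ((adjInv p k F).j b) = (adjInv p k F).j (ρ g b) :=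
    fun g b => h1 g b
  obtain ⟨r, hr⟩ := lang_SL2_emb (p := p) (K := K) k ρ hρ
  refine ⟨r, ?_⟩
  have hcomm : ∀ g : E0, (n.comp (toSL (p := p) (k := k) (F := F))).comp
      (uactU (adjInv p k F) ρ hρ g).toMonoidHom =
      (MulAut.conj (E0.subtype g)).toMonoidHom.comp (n.comp toSL) := by
    intro g
    ext x
    change n (toSL (uactU (adjInv p k F) ρ _ g x)) = g * n (toSL x) * (g : E)⁻¹
    apply h2
    rw [inc_toSL, inc_toSL]
    exact (coe_uactU (adjInv p k F) ρ hρ g x).symm
  let q : (adjInv p k F).U ⋊[uactU (adjInv p k F) ρ hρ] E0 →* E :=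
    SemidirectProduct.lift (n.comp toSL) E0.subtype hcomm
  have hq : ∀ (x : (adjInv p k F).U) (g : E0), q ⟨x, g⟩ = n (toSL x) * g := fun x g => rfl
  have hqs : Function.Surjective q := by
    intro g
    obtain ⟨x, e0, rfl⟩ := h3 g
    obtain ⟨y, rfl⟩ := toSL_surj (p := p) x
    exact ⟨⟨y, e0⟩, rfl⟩
  let ε : E0 ≃* E ⧸ N := MulEquiv.ofBijective ((QuotientGroup.mk' N).comp E0.subtype) (by
    constructor
    · rw [injective_iff_map_eq_one]
      intro e he
      exact h5 e ((QuotientGroup.eq_one_iff _).mp he)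
    · intro y
      obtain ⟨g, rfl⟩ := QuotientGroup.mk'_surjective N y
      obtain ⟨x, e0, rfl⟩ := h3 g
      refine ⟨e0, ?_⟩
      change (QuotientGroup.mk' N) (e0 : E) = _
      have h6 : QuotientGroup.mk' N (n x) = 1 := (QuotientGroup.eq_one_iff _).mpr (h4 x)
      rw [map_mul, h6, one_mul])
  refine (hr.congr_target ε).of_surjective q hqs ?_
  rintro ⟨x, g⟩
  rw [hq, map_mul]
  have h6 : QuotientGroup.mk' N (n (toSL x)) = 1 := (QuotientGroup.eq_one_iff _).mpr (h4 _)
  rw [h6, one_mul]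
  rfl

end MP7fE
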