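import Pool.Agent.Lib.MP_7f581e_ntE.SpecialMv
import Pool.Agent.Lib.MP_7f581e_ntE.Psl

/-!
Embedding problems over Hilbertian fields `K` of characteristic `p` whose kernel is a `p`-group
or a power of a simple group `PSL_2(q)`, `q` a power of `p`.
-/

set_option autoImplicit false

universe u

namespace MP7fE

open MP7fR MP7fS

/-- Over a Hilbertian field of characteristic `p`, every finite embedding problem whose kernel is
a `p`-group has a proper solution. -/
theorem solves_of_pKernel {p : ℕ} [Fact p.Prime] {K : Type u} [Field K] [CharP K p]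
    (hK : IsHilbertian K) {E : Type} [Group E] [Finite E] (N : Subgroup E) [N.Normal]
    (hN : IsPGroup p N) : Solves K (QuotientGroup.mk' N) := by
  have := MP7fL.infinite_of_isHilbertian hK
  exact solves_of_pKernel_aux (p := p) (K := K) (fun f h => solves_of_ratFunc hK f h)
    (Nat.card N) N le_rfl hN

/-- Over a Hilbertian field of characteristic `p`, every finite embedding problem whose kernel is
a power of the simple group `PSL_2(q)`, `q = p^m`, with `p = 2` or `m` odd, has a proper
solution. -/
theorem solves_of_psl_kernel {p m : ℕ} [Fact p.Prime] {F : Type} [Field F] [Finite F]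
    [CharP F p] (hcard : Nat.card F = p ^ m) (hpm : p = 2 ∨ Odd m) (hF : 4 ≤ Nat.card F) {k : ℕ}
    {E : Type} [Group E] [Finite E] (N : Subgroup E) [N.Normal] (θ : N ≃* (Fin k → PSL2 F))
    {K : Type u} [Field K] [CharP K p] (hK : IsHilbertian K) :
    Solves K (QuotientGroup.mk' N) := by
  obtain ⟨r, hr⟩ := solvesOver_of_psl_kernel hcard hpm hF N θ (K := K)
  exact solves_of_mv hK _ (Fin r) hr

end MP7fE
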