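import Pool.Agent.Lib.MP_7f581e_ntE.Factor
import Pool.Agent.Lib.MP_7f581e_ntL.Y1

/-!
The two forms of the special unitary group.
-/

set_option autoImplicit false

universe u

namespace MP7fE

open Matrix MP7fY

section quotient

theorem map_center {G H : Type*} [Group G] [Group H] (e : G ≃* H) :
    (Subgroup.center G).map (e : G →* H) = Subgroup.center H := by
  ext x
  rw [Subgroup.mem_map, Subgroup.mem_center_iff]
  constructor
  · rintro ⟨y, hy, rfl⟩ g
    have hy' := Subgroup.mem_center_iff.mp hy (e.symm g)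
    have h1 := congrArg e hy'
    rw [map_mul, map_mul, MulEquiv.apply_symm_apply] at h1
    exact h1
  · intro hx
    refine ⟨e.symm x, ?_, MulEquiv.apply_symm_apply e x⟩
    rw [Subgroup.mem_center_iff]
    intro g
    apply e.injective
    rw [map_mul, map_mul, MulEquiv.apply_symm_apply]
    exact hx (e g)

/-- The quotients by the centre. -/
noncomputable def centerQuot {G H : Type*} [Group G] [Group H] (e : G ≃* H) :
    G ⧸ Subgroup.center G ≃* H ⧸ Subgroup.center H :=
  QuotientGroup.congr _ _ e (map_center e)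

end quotient

variable {n : ℕ} {F : Type} [Field F] {s : F →+* F}

theorem su_inv {A : Matrix (Fin n) (Fin n) F} (h : A * (A.map s)ᵀ = 1) : (A.map s)ᵀ * A = 1 :=
  mul_eq_one_comm.mp h

/-- The two forms of the special unitary group. -/
def suEquiv : SU n F s ≃* SG s (1 : Matrix (Fin n) (Fin n) F) where
  toFun A := ⟨⟨A.1.1, (A.1.1.map s)ᵀ, A.2, su_inv A.2⟩, by
    refine ⟨?_, A.1.2⟩
    change (A.1.1.map s)ᵀ * 1 * A.1.1 = 1
    rw [mul_one]
    exact su_inv A.2⟩
  invFun g := ⟨⟨g.1.1, g.2.2⟩, by
    have h : (g.1.1.map s)ᵀ * 1 * g.1.1 = 1 := g.2.1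
    rw [mul_one] at h
    exact mul_eq_one_comm.mp h⟩
  left_inv _ := rfl
  right_inv _ := Subtype.ext (Units.ext rfl)
  map_mul' _ _ := Subtype.ext (Units.ext rfl)

end MP7fE
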