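import Pool.Agent.Lib.MP_7f581e_ntE.Defs
import Pool.Agent.Lib.MP_7f581e_ntR.Reg

/-!
Specialization of solutions of embedding problems.
-/

set_option autoImplicit false

universe u

namespace MP7fE

open IntermediateField Polynomial
open scoped Pointwise

/-- The residue field step, with constants. -/
theorem residue_emb {A E L K M : Type u} [CommRing A] [IsDomain A] [IsIntegrallyClosed A]
    [Field E] [Field L] [Algebra A E] [IsFractionRing A E] [Algebra E L] [Algebra A L]
    [IsScalarTower A E L] [FiniteDimensional E L] [IsGalois E L]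
    (a : L) (ha : IsIntegral A a) (hdeg : Module.finrank E L = (minpoly A a).natDegree)
    (P : Ideal A) [hP : P.IsMaximal]
    (hirr : Irreducible ((minpoly A a).map (Ideal.Quotient.mk P)))
    (hsep : derivative ((minpoly A a).map (Ideal.Quotient.mk P)) ≠ 0)
    [Field K] [Field M] [Algebra K M] [FiniteDimensional K M] [IsGalois K M] (j : K →+* A)
    (i : M →+* L) (hi : ∀ c : K, i (algebraMap K M c) = algebraMap A L (j c)) :
    ∃ (F : Type u) (_ : Field F) (r : A ⧸ P ≃+* F) (L1 : Type u) (_ : Field L1)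
      (_ : Algebra F L1) (_ : FiniteDimensional F L1) (_ : IsGalois F L1)
      (e1 : (L1 ≃ₐ[F] L1) ≃* (L ≃ₐ[E] L)) (i1 : M →+* L1),
      (∀ c : K, i1 (algebraMap K M c) = algebraMap F L1 (r (Ideal.Quotient.mk P (j c)))) ∧
      ∀ (σ : L1 ≃ₐ[F] L1) (x y : M), e1 σ (i x) = i y → σ (i1 x) = i1 y := by
  let B := integralClosure A L
  have : IsFractionRing B L := integralClosure.isFractionRing_of_finite_extension E L
  let _ := IsIntegralClosure.MulSemiringAction A E L B
  have hinv : Algebra.IsInvariant A B (L ≃ₐ[E] L) := Algebra.isInvariant_of_isGalois A E L B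
  have hcomm : SMulCommClass (L ≃ₐ[E] L) A B :=
    ⟨fun g x y => map_smul (galRestrict A E L B g) x y⟩
  have hinj : Function.Injective (algebraMap A L) := by
    rw [IsScalarTower.algebraMap_eq A E L]
    exact (algebraMap E L).injective.comp (IsFractionRing.injective A E)
  have hfaith : FaithfulSMul A B := by
    rw [faithfulSMul_iff_algebraMap_injective]
    intro x y hxy
    exact hinj (congrArg (algebraMap B L) hxy)
  obtain ⟨Q, hQ, hQP⟩ := Ideal.exists_maximal_ideal_liesOver_of_isIntegral (S := B) P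
  let _ : Field (A ⧸ P) := Ideal.Quotient.field P
  let _ : Field (B ⧸ Q) := Ideal.Quotient.field Q
  have hnorm : Normal (A ⧸ P) (B ⧸ Q) := Ideal.Quotient.normal (L ≃ₐ[E] L) P Q
  set f : (A ⧸ P)[X] := (minpoly A a).map (Ideal.Quotient.mk P) with hf
  have hfm : f.Monic := (minpoly.monic ha).map _
  let b : B := ⟨a, ha⟩
  let c : B ⧸ Q := Ideal.Quotient.mk Q b
  have hcomp : (algebraMap (A ⧸ P) (B ⧸ Q)).comp (Ideal.Quotient.mk P) =
        (Ideal.Quotient.mk Q).comp (algebraMap A B) := by
      ext x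
      rfl
  have hb0 : aeval b (minpoly A a) = 0 := by
    apply Subtype.ext
    have h1 : aeval ((algebraMap B L) b) (minpoly A a) = 0 := minpoly.aeval A a
    rw [aeval_algebraMap_apply] at h1
    exact h1
  have hc0 : aeval c f = 0 := by
    rw [hf, aeval_def, eval₂_map, hcomp]
    have h2 := congrArg (Ideal.Quotient.mk Q) hb0
    rw [aeval_def, hom_eval₂, map_zero] at h2
    exact h2
  have hmin : minpoly (A ⧸ P) c = f :=
    (minpoly.eq_of_irreducible_of_monic hirr hc0 hfm).symm
  have hfsep : f.Separable := (separable_iff_derivative_ne_zero hirr).mpr hsep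
  have hsplit : (f.map (algebraMap (A ⧸ P) (B ⧸ Q))).Splits := by
    rw [← hmin]
    exact hnorm.splits c
  -- the constants
  have hint : ∀ x : M, i x ∈ integralClosure A L := by
    intro x
    refine ⟨(minpoly K x).map j, (minpoly.monic (Algebra.IsIntegral.isIntegral x)).map j, ?_⟩
    rw [eval₂_map]
    have h1 : (algebraMap A L).comp j = i.comp (algebraMap K M) := by
      ext c
      exact (hi c).symm
    rw [h1, ← hom_eval₂, ← aeval_def, minpoly.aeval, map_zero]
  let iB : M →+* B := i.codRestrict (integralClosure A L) hint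
  let iQ : M →+* B ⧸ Q := (Ideal.Quotient.mk Q).comp iB
  let jP : K →+* A ⧸ P := (Ideal.Quotient.mk P).comp j
  have hiQ : iQ.comp (algebraMap K M) = (algebraMap (A ⧸ P) (B ⧸ Q)).comp jP := by
    have h1 : iB.comp (algebraMap K M) = (algebraMap A B).comp j := by
      ext c
      exact hi c
    change ((Ideal.Quotient.mk Q).comp iB).comp (algebraMap K M) =
      (algebraMap (A ⧸ P) (B ⧸ Q)).comp ((Ideal.Quotient.mk P).comp j)
    rw [RingHom.comp_assoc, h1, ← RingHom.comp_assoc, ← hcomp, RingHom.comp_assoc]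
  obtain ⟨θ, hθ⟩ := Field.exists_primitive_element K M
  set g : (A ⧸ P)[X] := (minpoly K θ).map jP with hg
  have hgsep : g.Separable := by
    have h1 : (minpoly K θ).Separable := Algebra.IsSeparable.isSeparable K θ
    rw [hg]
    exact h1.map
  have hgsplit : (g.map (algebraMap (A ⧸ P) (B ⧸ Q))).Splits := by
    rw [hg, Polynomial.map_map, ← hiQ, ← Polynomial.map_map]
    exact ((inferInstance : Normal K M).splits θ).map iQ
  have hθint : IsIntegral K θ := Algebra.IsIntegral.isIntegral θ
  let M0 := IntermediateField.adjoin (A ⧸ P) (f.rootSet (B ⧸ Q))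
  have hMs : f.IsSplittingField (A ⧸ P) M0 :=
    IntermediateField.adjoin_rootSet_isSplittingField hsplit
  have hMg : IsGalois (A ⧸ P) M0 := IsGalois.of_separable_splitting_field hfsep
  have hMf : FiniteDimensional (A ⧸ P) M0 := IsSplittingField.finiteDimensional M0 f
  let N0 := IntermediateField.adjoin (A ⧸ P) (g.rootSet (B ⧸ Q))
  have hNs : g.IsSplittingField (A ⧸ P) N0 :=
    IntermediateField.adjoin_rootSet_isSplittingField hgsplit
  have hNg : IsGalois (A ⧸ P) N0 := IsGalois.of_separable_splitting_field hgsep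
  have hNf : FiniteDimensional (A ⧸ P) N0 := IsSplittingField.finiteDimensional N0 g
  have hθN : iQ θ ∈ N0 := by
    apply IntermediateField.subset_adjoin
    rw [mem_rootSet]
    refine ⟨(hgsep.ne_zero), ?_⟩
    rw [hg, aeval_def, eval₂_map, ← hiQ, ← hom_eval₂, ← aeval_def, minpoly.aeval, map_zero]
  have hxN : ∀ x : M, iQ x ∈ N0 := by
    intro x
    have h1 : x ∈ Algebra.adjoin K {θ} := by
      rw [← IntermediateField.adjoin_simple_toSubalgebra_of_isAlgebraic hθint.isAlgebraic, hθ]
      trivial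
    obtain ⟨q, rfl⟩ := (Algebra.adjoin_singleton_eq_range_aeval K θ ▸ h1 :
      x ∈ (aeval θ : K[X] →ₐ[K] M).range)
    have h2 : iQ (aeval θ q) = aeval (iQ θ) (q.map jP) := by
      rw [aeval_def, hom_eval₂, hiQ, aeval_def, eval₂_map]
    change iQ (aeval θ q) ∈ N0
    rw [h2]
    exact Subalgebra.aeval_coe N0.toSubalgebra ⟨iQ θ, hθN⟩ (q.map jP) ▸ Subtype.property _
  let M1 := M0 ⊔ N0
  have hM1n : Normal (A ⧸ P) M1 := inferInstance
  have hM1s : Algebra.IsSeparable (A ⧸ P) M1 := inferInstance
  have hM1g : IsGalois (A ⧸ P) M1 := {}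
  have hM1f : FiniteDimensional (A ⧸ P) M1 := inferInstance
  have hcM : c ∈ M1 := by
    apply (le_sup_left : M0 ≤ M1)
    apply IntermediateField.subset_adjoin
    rw [mem_rootSet]
    exact ⟨hfm.ne_zero, hc0⟩
  have hn1 : f.natDegree ≤ Module.finrank (A ⧸ P) M1 := by
    have h1 : minpoly (A ⧸ P) (⟨c, hcM⟩ : M1) = f := by
      rw [← hmin]
      exact minpoly.algebraMap_eq (algebraMap M1 (B ⧸ Q)).injective (⟨c, hcM⟩ : M1) |>.symm
    rw [← h1]
    exact minpoly.natDegree_le _
  have hfn : f.natDegree = Module.finrank E L := by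
    rw [hf, (minpoly.monic ha).natDegree_map, hdeg]
  have hcard1 : Nat.card (M1 ≃ₐ[A ⧸ P] M1) = Module.finrank (A ⧸ P) M1 :=
    IsGalois.card_aut_eq_finrank _ _
  have hcard2 : Nat.card (L ≃ₐ[E] L) = Module.finrank E L := IsGalois.card_aut_eq_finrank _ _
  let S : Subgroup (L ≃ₐ[E] L) := MulAction.stabilizer (L ≃ₐ[E] L) Q
  let r : S →* (M1 ≃ₐ[A ⧸ P] M1) :=
    (AlgEquiv.restrictNormalHom (F := A ⧸ P) (K₁ := B ⧸ Q) M1).comp
      (Ideal.Quotient.stabilizerHom Q P (L ≃ₐ[E] L))
  have hr : Function.Surjective r :=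
    (AlgEquiv.restrictNormalHom_surjective (F := A ⧸ P) (K₁ := M1) (B ⧸ Q)).comp
      (Ideal.Quotient.stabilizerHom_surjective (L ≃ₐ[E] L) P Q)
  have hcard3 : Nat.card (M1 ≃ₐ[A ⧸ P] M1) ≤ Nat.card S := Nat.card_le_card_of_surjective r hr
  have hcard4 : Nat.card S ≤ Nat.card (L ≃ₐ[E] L) :=
    Nat.card_le_card_of_injective _ S.subtype_injective
  have hS : S = ⊤ := Subgroup.eq_top_of_card_eq S (by omega)
  have hbij : Function.Bijective r := by
    have h1 : Nat.card S = Nat.card (M1 ≃ₐ[A ⧸ P] M1) := by omega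
    exact (Nat.bijective_iff_surjective_and_card r).mpr ⟨hr, h1⟩
  let eS : (L ≃ₐ[E] L) ≃* S := (Subgroup.topEquiv.symm).trans (MulEquiv.subgroupCongr hS.symm)
  let eR := MulEquiv.ofBijective r hbij
  refine ⟨A ⧸ P, inferInstance, RingEquiv.refl _, M1, inferInstance, inferInstance, hM1f, hM1g,
    (eS.trans eR).symm,
    iQ.codRestrict M1 fun x => (le_sup_right : N0 ≤ M1) (hxN x), ?_, ?_⟩
  · intro c
    apply Subtype.ext
    exact RingHom.congr_fun hiQ c
  · intro σ x y hxy
    obtain ⟨τ, rfl⟩ := (eS.trans eR).surjective σ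
    rw [MulEquiv.symm_apply_apply] at hxy
    apply Subtype.ext
    have h1 : ((eS.trans eR) τ) = r (eS τ) := rfl
    rw [h1]
    have h2 : ((r (eS τ)) ⟨iQ x, (le_sup_right : N0 ≤ M1) (hxN x)⟩ : B ⧸ Q) =
        Ideal.Quotient.stabilizerHom Q P (L ≃ₐ[E] L) (eS τ) (iQ x) :=
      AlgEquiv.restrictNormal_commutes _ M1 _
    refine h2.trans ?_
    change Ideal.Quotient.stabilizerHom Q P (L ≃ₐ[E] L) (eS τ) (Ideal.Quotient.mk Q (iB x)) =
      Ideal.Quotient.mk Q (iB y)
    rw [Ideal.Quotient.stabilizerHom_apply]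
    refine congrArg (Ideal.Quotient.mk Q) (Subtype.ext ?_)
    have h3 : ((galRestrict A E L B τ (iB x) : B) : L) = τ (i x) :=
      algebraMap_galRestrict_apply A τ (iB x)
    exact h3.trans hxy

/-- Transport of a solution along an isomorphism of base fields. -/
theorem exists_transport {F F' L K M : Type u} [Field F] [Field F'] [Field L] [Field K] [Field M]
    [Algebra K M] [Algebra F' L] (r : F ≃+* F') [FiniteDimensional F' L] [IsGalois F' L] {E : Type}
    [Group E] (e : (L ≃ₐ[F'] L) ≃* E) :
    ∃ (_ : Algebra F L) (_ : FiniteDimensional F L) (_ : IsGalois F L)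
      (e' : (L ≃ₐ[F] L) ≃* E), (∀ x : F, algebraMap F L x = algebraMap F' L (r x)) ∧
      ∀ σ : L ≃ₐ[F] L, ∃ τ : L ≃ₐ[F'] L, e τ = e' σ ∧ ∀ x, σ x = τ x := by
  let _ : Algebra F F' := r.toRingHom.toAlgebra
  let _ : Algebra F L := ((algebraMap F' L).comp r.toRingHom).toAlgebra
  have htow : IsScalarTower F F' L := IsScalarTower.of_algebraMap_eq (fun _ => rfl)
  have hsurj : Function.Surjective (algebraMap F F') := r.surjective
  have hfdF : Module.Finite F F' := by
    refine Module.Finite.of_surjective (Algebra.linearMap F F') ?_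
    exact hsurj
  refine ⟨inferInstance, Module.Finite.trans F' L, ?_,
    (AlgEquiv.extendScalarsHomOfSurjective (A := L) hsurj).trans e, fun x => rfl, ?_⟩
  · refine IsGalois.of_equiv_equiv (F := F') (E := L) (f := r.symm) (g := RingEquiv.refl L) ?_
    ext x
    change algebraMap F' L (r (r.symm x)) = algebraMap F' L x
    rw [r.apply_symm_apply]
  · intro σ
    exact ⟨AlgEquiv.extendScalarsHomOfSurjective (A := L) hsurj σ, rfl, fun x => rfl⟩

/-- Specialization of one parameter. -/
theorem solvesOver_of_ratFunc {K K1 : Type u} [Field K] [Field K1] [Algebra K K1]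
    (hK : MP7fR.IsHilbertian K1) {E G : Type} [Group E] [Finite E] [Group G] (f : E →* G)
    (h : SolvesOver K (RatFunc K1) f) : SolvesOver K K1 f := by
  intro M _ _ _ _ e0
  obtain ⟨L, _, _, hfd, hgal, e, i, hi1, hi2⟩ := h M e0
  let _ : Algebra K1[X] L :=
    ((algebraMap (RatFunc K1) L).comp (algebraMap K1[X] (RatFunc K1))).toAlgebra
  have htow : IsScalarTower K1[X] (RatFunc K1) L := IsScalarTower.of_algebraMap_eq (fun _ => rfl)
  obtain ⟨pb, hint⟩ := MP7fR.exists_integral_powerBasis (R := K1[X]) (F := RatFunc K1) (L := L)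
  have hmin : minpoly (RatFunc K1) pb.gen =
      (minpoly K1[X] pb.gen).map (algebraMap K1[X] (RatFunc K1)) :=
    minpoly.isIntegrallyClosed_eq_field_fractions' (RatFunc K1) hint
  have hirr : Irreducible ((minpoly K1[X] pb.gen).map (algebraMap K1[X] (RatFunc K1))) := by
    rw [← hmin]
    exact minpoly.irreducible pb.isIntegral_gen
  have hsep : ((minpoly K1[X] pb.gen).map (algebraMap K1[X] (RatFunc K1))).Separable := by
    rw [← hmin]
    exact Algebra.IsSeparable.isSeparable (RatFunc K1) pb.gen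
  have hder : derivative (minpoly K1[X] pb.gen) ≠ 0 := by
    intro h0
    have h1 := (separable_iff_derivative_ne_zero hirr).mp hsep
    apply h1
    rw [derivative_map, h0, Polynomial.map_zero]
  obtain ⟨k, hk⟩ : ∃ k, (derivative (minpoly K1[X] pb.gen)).coeff k ≠ 0 := by
    by_contra hcon
    push Not at hcon
    apply hder
    ext1 k
    rw [hcon k, coeff_zero]
  obtain ⟨a, ha, hairr⟩ := hK (minpoly K1[X] pb.gen) hirr hsep _ hk
  have hsurj : Function.Surjective (evalRingHom a : K1[X] →+* K1) := fun c => ⟨C c, by simp⟩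
  let P : Ideal K1[X] := RingHom.ker (evalRingHom a)
  have hP : P.IsMaximal := RingHom.ker_isMaximal_of_surjective _ hsurj
  let r : K1[X] ⧸ P ≃+* K1 := RingHom.quotientKerEquivOfSurjective hsurj
  have hr : r.toRingHom.comp (Ideal.Quotient.mk P) = evalRingHom a := by
    refine RingHom.ext fun p => ?_
    rfl
  have hmapr : ((minpoly K1[X] pb.gen).map (Ideal.Quotient.mk P)).map r.toRingHom =
      (minpoly K1[X] pb.gen).map (evalRingHom a) := by
    rw [Polynomial.map_map, hr]
  have hirrP : Irreducible ((minpoly K1[X] pb.gen).map (Ideal.Quotient.mk P)) := by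
    rw [← MulEquiv.irreducible_iff (Polynomial.mapEquiv r)]
    have : (Polynomial.mapEquiv r) ((minpoly K1[X] pb.gen).map (Ideal.Quotient.mk P)) =
        (minpoly K1[X] pb.gen).map (evalRingHom a) := hmapr
    rw [this]
    exact hairr
  have hsepP : derivative ((minpoly K1[X] pb.gen).map (Ideal.Quotient.mk P)) ≠ 0 := by
    intro h0
    apply ha
    have h1 := congrArg (fun q => (q.map r.toRingHom).coeff k) h0
    simp only [Polynomial.map_zero, coeff_zero] at h1
    rw [← derivative_map, hmapr, derivative_map, coeff_map] at h1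
    exact h1
  have hi3 : ∀ c : K, i (algebraMap K M c) =
      algebraMap K1[X] L (((C : K1 →+* K1[X]).comp (algebraMap K K1)) c) := by
    intro c
    rw [hi1]
    change _ = algebraMap (RatFunc K1) L (algebraMap K1[X] (RatFunc K1) (C (algebraMap K K1 c)))
    congr 1
  obtain ⟨F, _, r₀, L1, _, _, h1, h2, e1, i1, h3, h4⟩ := residue_emb (E := RatFunc K1) pb.gen hint
    (by rw [pb.finrank, ← pb.natDegree_minpoly, hmin, (minpoly.monic hint).natDegree_map])
    P hirrP hsepP ((C : K1 →+* K1[X]).comp (algebraMap K K1)) i hi3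
  obtain ⟨_, h5, h6, e2, h7, h8⟩ := exists_transport (K := K) (M := M) (r.symm.trans r₀) (e1.trans e)
  refine ⟨L1, inferInstance, inferInstance, h5, h6, e2, i1, ?_, ?_⟩
  · intro c
    rw [h3, h7]
    congr 1
    change r₀ _ = r₀ (r.symm _)
    congr 1
    apply r.injective
    rw [r.apply_symm_apply]
    change (C (algebraMap K K1 c)).eval a = _
    rw [eval_C]
  · intro σ x
    obtain ⟨τ, h9, h10⟩ := h8 σ
    rw [h10]
    apply h4
    rw [← h9]
    exact hi2 (e1 τ) x

/-- Over a Hilbertian field, an embedding problem which is solvable over `K(X)` is solvable. -/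
theorem solves_of_ratFunc {K : Type u} [Field K] (hK : MP7fR.IsHilbertian K) {E G : Type}
    [Group E] [Finite E] [Group G] (f : E →* G) (h : SolvesOver K (RatFunc K) f) : Solves K f :=
  solvesOver_of_ratFunc hK f h

end MP7fE
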