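import Pool.Agent.Lib.MP_7f581e_ntL.WH8
import Pool.Agent.Lib.MP_7f581e_ntE.Special
import Pool.Agent.Lib.MP_7f581e_ntE.PKer

/-!
Specialization of several parameters, for embedding problems.
-/

set_option autoImplicit false

universe u

namespace MP7fE

open Polynomial

theorem isFractionRing_mv' (σ : Type) (A F : Type u) [CommRing A] [IsDomain A] [Field F]
    [Algebra A F] [IsFractionRing A F] :
    ∃ (_ : Algebra (MvPolynomial σ A) (FractionRing (MvPolynomial σ F))),
      IsFractionRing (MvPolynomial σ A) (FractionRing (MvPolynomial σ F)) ∧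
      ∀ p : MvPolynomial σ A, algebraMap (MvPolynomial σ A) (FractionRing (MvPolynomial σ F)) p =
        algebraMap (MvPolynomial σ F) (FractionRing (MvPolynomial σ F))
          (MvPolynomial.map (algebraMap A F) p) := by
  classical
  let T := FractionRing (MvPolynomial σ F)
  let φ : MvPolynomial σ A →+* T :=
    (algebraMap (MvPolynomial σ F) T).comp (MvPolynomial.map (algebraMap A F))
  have hφ : Function.Injective φ :=
    (IsFractionRing.injective (MvPolynomial σ F) T).comp
      (MvPolynomial.map_injective _ (IsFractionRing.injective A F))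
  let _ : Algebra (MvPolynomial σ A) T := φ.toAlgebra
  have hfaith : FaithfulSMul (MvPolynomial σ A) T := by
    rw [faithfulSMul_iff_algebraMap_injective]
    exact hφ
  refine ⟨inferInstance, ?_, fun p => rfl⟩
  have hclear : ∀ p : MvPolynomial σ F, ∃ (d : A) (q : MvPolynomial σ A), d ≠ 0 ∧
      MvPolynomial.map (algebraMap A F) q = MvPolynomial.C (algebraMap A F d) * p := by
    intro p
    obtain ⟨b, hb⟩ := IsLocalization.exist_integer_multiples_of_finset (nonZeroDivisors A)
      (p.support.image p.coeff)
    have h1 : ∀ m, ∃ c : A, algebraMap A F c = algebraMap A F b * p.coeff m := by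
      intro m
      by_cases h0 : p.coeff m = 0
      · exact ⟨0, by rw [h0]; simp⟩
      · obtain ⟨c, hc⟩ := hb _ (Finset.mem_image.mpr ⟨m, MvPolynomial.mem_support_iff.mpr h0, rfl⟩)
        exact ⟨c, by rw [hc, Algebra.smul_def]⟩
    choose c hc using h1
    refine ⟨b, ∑ m ∈ p.support, MvPolynomial.monomial m (c m), nonZeroDivisors.coe_ne_zero b, ?_⟩
    rw [map_sum]
    simp only [MvPolynomial.map_monomial, hc]
    conv_rhs => rw [← MvPolynomial.support_sum_monomial_coeff p]
    rw [Finset.mul_sum]
    exact Finset.sum_congr rfl fun m _ => by rw [MvPolynomial.C_mul_monomial]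
  apply IsFractionRing.of_field
  intro z
  obtain ⟨x, y, hy, rfl⟩ := IsFractionRing.div_surjective (A := MvPolynomial σ F) z
  obtain ⟨d, q, hd, hq⟩ := hclear x
  obtain ⟨e, r, he, hr⟩ := hclear y
  refine ⟨q * MvPolynomial.C e, r * MvPolynomial.C d, ?_⟩
  have hAF : Function.Injective (algebraMap A F) := IsFractionRing.injective A F
  have hd' : algebraMap (MvPolynomial σ F) T (MvPolynomial.C (algebraMap A F d)) ≠ 0 := by
    intro h0
    apply hd
    apply hAF
    rw [map_zero]
    apply MvPolynomial.C_injective σ F
    apply IsFractionRing.injective (MvPolynomial σ F) T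
    rw [h0, map_zero, map_zero]
  have he' : algebraMap (MvPolynomial σ F) T (MvPolynomial.C (algebraMap A F e)) ≠ 0 := by
    intro h0
    apply he
    apply hAF
    rw [map_zero]
    apply MvPolynomial.C_injective σ F
    apply IsFractionRing.injective (MvPolynomial σ F) T
    rw [h0, map_zero, map_zero]
  have hy' : algebraMap (MvPolynomial σ F) T y ≠ 0 := by
    intro h0
    apply nonZeroDivisors.ne_zero hy
    apply IsFractionRing.injective (MvPolynomial σ F) T
    rw [h0, map_zero]
  change _ = φ (q * MvPolynomial.C e) / φ (r * MvPolynomial.C d)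
  simp only [φ, RingHom.comp_apply, map_mul, hq, hr, MvPolynomial.map_C]
  have key : ∀ {T' : Type u} [Field T'] (x' y' d' e' : T'), y' ≠ 0 → d' ≠ 0 → e' ≠ 0 →
      x' / y' = (d' * x' * e') / (e' * y' * d') := by
    intro T' _ x' y' d' e' h1 h2 h3
    field_simp
  exact key _ _ _ _ hy' hd' he'

theorem exists_algEquiv {K A A' F F' : Type u} [Field K] [CommRing A] [CommRing A'] [Field F]
    [Field F'] [Algebra A F] [IsFractionRing A F] [Algebra A' F'] [IsFractionRing A' F']
    [Algebra K F] [Algebra K F'] (h : A ≃+* A') (c : K → A) (c' : K → A')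
    (hc : ∀ x, algebraMap K F x = algebraMap A F (c x))
    (hc' : ∀ x, algebraMap K F' x = algebraMap A' F' (c' x)) (hh : ∀ x, h (c x) = c' x) :
    Nonempty (F ≃ₐ[K] F') := by
  refine ⟨AlgEquiv.ofRingEquiv (f := IsFractionRing.ringEquivOfRingEquiv (K := F) (L := F') h) ?_⟩
  intro x
  rw [hc, IsFractionRing.ringEquivOfRingEquiv_algebraMap, hh, hc']

/-- Specialization of several parameters. -/
theorem solvesOver_of_mv {K : Type u} [Field K] {E G : Type} [Group E] [Finite E] [Group G]
    (f : E →* G) (σ : Type) [Finite σ] :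
    ∀ (K1 : Type u) [Field K1] [Algebra K K1] [Infinite K1], MP7fL.WH K1 →
      SolvesOver K (FractionRing (MvPolynomial σ K1)) f → SolvesOver K K1 f := by
  have hfin := Fintype.ofFinite σ
  refine Fintype.induction_empty_option (P := fun σ _ => ∀ (K1 : Type u) [Field K1]
    [Algebra K K1] [Infinite K1], MP7fL.WH K1 →
      SolvesOver K (FractionRing (MvPolynomial σ K1)) f → SolvesOver K K1 f) ?_ ?_ ?_ σ
  · intro α β _ e ih K1 _ _ _ hK h
    apply ih K1 hK
    obtain ⟨ε⟩ := exists_algEquiv (K := K) (F := FractionRing (MvPolynomial β K1))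
      (F' := FractionRing (MvPolynomial α K1)) (MvPolynomial.renameEquiv K1 e).symm.toRingEquiv
      (fun x => MvPolynomial.C (algebraMap K K1 x)) (fun x => MvPolynomial.C (algebraMap K K1 x))
      (fun x => IsScalarTower.algebraMap_apply K (MvPolynomial β K1) _ x)
      (fun x => IsScalarTower.algebraMap_apply K (MvPolynomial α K1) _ x)
      (fun x => (MvPolynomial.renameEquiv K1 e).symm.commutes (algebraMap K K1 x))
    exact h.congr_field ε
  · intro K1 _ _ _ hK h
    have hKK : IsFractionRing K1 K1 := IsFractionRing.of_field K1 K1 fun z => ⟨z, 1, by simp⟩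
    obtain ⟨ε⟩ := exists_algEquiv (K := K) (F := FractionRing (MvPolynomial PEmpty.{1} K1))
      (F' := K1) (MvPolynomial.isEmptyRingEquiv K1 PEmpty.{1})
      (fun x => MvPolynomial.C (algebraMap K K1 x)) (fun x => algebraMap K K1 x)
      (fun x => IsScalarTower.algebraMap_apply K (MvPolynomial PEmpty.{1} K1) _ x)
      (fun x => rfl)
      (fun x => (MvPolynomial.isEmptyAlgEquiv K1 PEmpty.{1}).commutes (algebraMap K K1 x))
    exact h.congr_field ε
  · intro α _ ih K1 _ _ _ hK h
    have hinf : Infinite (RatFunc K1) := Infinite.of_injective (algebraMap K1 (RatFunc K1))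
      (algebraMap K1 (RatFunc K1)).injective
    apply solvesOver_of_ratFunc (MP7fL.wh_isHilbertian hK)
    apply ih (RatFunc K1) (MP7fL.wh_ratFunc hK)
    obtain ⟨_, hfr, hal⟩ := isFractionRing_mv' α K1[X] (RatFunc K1)
    obtain ⟨ε⟩ := exists_algEquiv (K := K) (F := FractionRing (MvPolynomial (Option α) K1))
      (F' := FractionRing (MvPolynomial α (RatFunc K1)))
      (MvPolynomial.optionEquivRight K1 α).toRingEquiv
      (fun x => MvPolynomial.C (algebraMap K K1 x))
      (fun x => MvPolynomial.C (C (algebraMap K K1 x)))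
      (fun x => IsScalarTower.algebraMap_apply K (MvPolynomial (Option α) K1) _ x)
      (fun x => by
        rw [hal, MvPolynomial.map_C]
        exact IsScalarTower.algebraMap_apply K (MvPolynomial α (RatFunc K1)) _ x)
      (fun x => (MvPolynomial.optionEquivRight K1 α).commutes (algebraMap K K1 x))
    exact h.congr_field ε

/-- Over a Hilbertian field `K`, an embedding problem which is solvable over `K(t_1, …, t_n)` is
solvable. -/
theorem solves_of_mv {K : Type u} [Field K] (hK : MP7fR.IsHilbertian K) {E G : Type} [Group E]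
    [Finite E] [Group G] (f : E →* G) (σ : Type) [Finite σ]
    (h : SolvesOver K (FractionRing (MvPolynomial σ K)) f) : Solves K f :=
  have := MP7fL.infinite_of_isHilbertian hK
  solvesOver_of_mv f σ K (MP7fL.wh_of_isHilbertian hK) h

end MP7fE
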