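import Pool.Agent.Lib.MP_7f581e_ntL.Z17
import Pool.Agent.Lib.MP_7f581e_ntM.USolve
import Pool.Agent.Lib.MP_7f581e_ntE.Unitary
import Pool.Agent.Lib.MP_7f581e_ntL.Y7
import Pool.Agent.Lib.MP_7f581e_ntG.SplitSL2
import Pool.Agent.Lib.MP_7f581e_ntM.SLSolve
import Pool.Agent.Lib.MP_7f581e_ntE.SolvesP
import Pool.Agent.Lib.MP_7f581e_ntE.Alt
import Pool.Agent.Lib.MP_7f581e_ntE.General
import Pool.Agent.Lib.MP_7f581e_ntE.AutSplit
import Pool.Agent.Lib.MP_7f581e_ntX.Kernel
import Pool.Agent.Lib.MP_7f581e_ntK.Kernel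

section

/-!
Embedding problems with kernel a power of `SU(N, q)` or of `PSU(N, q)`, `N ≥ 3`.
-/

set_option autoImplicit false
set_option linter.unusedSectionVars false

universe u

namespace MP7fM

open Matrix MP7fZ MP7fV MP7fU MP7fS MP7fG MP7fY MP7fE MP7fW

section

variable {p m N : ℕ} [Fact p.Prime] {F : Type} [Field F] [Finite F] [CharP F p]
  {κ : Type} [Finite κ] {K : Type u} [Field K] [CharP K p]

/-- Split embedding problems with kernel a power of `SU(N, q)`, `N ≥ 3`, over rational function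
fields. -/
theorem exists_solvesOver_su (hm : 0 < m) (hcard : Nat.card F = p ^ (2 * m)) (h3 : 3 ≤ N)
    (hq : N = 3 → 2 < p ^ m)
    [IsSimpleGroup (PSG (sF p m F) (1 : Matrix (Fin N) (Fin N) F))]
    {E Q : Type} [Group E] [Group Q] [Finite Q]
    (f : E →* Q) (s : Q →* E) (hfs : ∀ q, f (s q) = q)
    (θ : f.ker ≃* (κ → SG (sF p m F) (1 : Matrix (Fin N) (Fin N) F))) :
    ∃ r : ℕ, SolvesOver K (FractionRing (MvPolynomial (Fin r) K)) f := by
  obtain ⟨ρ, h1, h2⟩ := exists_su_of_lang hm hcard h3 hq f s hfs θ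
  obtain ⟨r, hr⟩ := langSU1_all (K := K) hm hcard h3 ρ h1
  exact ⟨r, h2 hr⟩

/-- Split embedding problems with kernel a power of `PSU(N, q)`, `N ≥ 3`, over rational function
fields. -/
theorem exists_solvesOver_psu (hm : 0 < m) (hcard : Nat.card F = p ^ (2 * m)) (h3 : 3 ≤ N)
    (hq : N = 3 → 2 < p ^ m)
    [IsSimpleGroup (PSG (sF p m F) (1 : Matrix (Fin N) (Fin N) F))]
    {E Q : Type} [Group E] [Group Q] [Finite Q]
    (f : E →* Q) (s : Q →* E) (hfs : ∀ q, f (s q) = q)
    (θ : f.ker ≃* (κ → PSG (sF p m F) (1 : Matrix (Fin N) (Fin N) F))) :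
    ∃ r : ℕ, SolvesOver K (FractionRing (MvPolynomial (Fin r) K)) f := by
  obtain ⟨ρ, h1, h2⟩ := exists_psu_of_lang hm hcard h3 hq f s hfs θ
  obtain ⟨r, hr⟩ := langSU1_all (K := K) hm hcard h3 ρ h1
  exact ⟨r, h2 hr⟩

/-- Embedding problems with kernel a power of `PSU(N, q)`, `N ≥ 3`, `q = p ^ m`, such that
`Aut (PSU(N, q))` splits over `PSU(N, q)`, over rational function fields. -/
theorem exists_solvesOver_psu_kernel (hm : 0 < m) (hcard : Nat.card F = p ^ (2 * m))
    (h3 : 3 ≤ N) (hq : N = 3 → 2 < p ^ m)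
    (hd : Nat.gcd (Nat.gcd (N.gcd (p ^ m + 1)) ((p ^ m + 1) / N.gcd (p ^ m + 1))) m = 1)
    [IsSimpleGroup (PSG (sF p m F) (1 : Matrix (Fin N) (Fin N) F))]
    {E : Type} [Group E] [Finite E] (N0 : Subgroup E) [N0.Normal]
    (θ : N0 ≃* (κ → PSG (sF p m F) (1 : Matrix (Fin N) (Fin N) F))) :
    ∃ r : ℕ, SolvesOver K (FractionRing (MvPolynomial (Fin r) K)) (QuotientGroup.mk' N0) := by
  obtain ⟨Q, _, _, ρ, h1, h2⟩ := exists_psu_lang hm hcard h3 hq hd N0 θ
  obtain ⟨r, hr⟩ := langSU1_all (K := K) hm hcard h3 ρ h1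
  exact ⟨r, h2 hr⟩

/-- **Split embedding problems with kernel a power of `SU(N, q)`, `N ≥ 3`, over Hilbertian
fields.** -/
theorem solves_of_split_su (hm : 0 < m) (hcard : Nat.card F = p ^ (2 * m)) (h3 : 3 ≤ N)
    (hq : N = 3 → 2 < p ^ m)
    [IsSimpleGroup (PSG (sF p m F) (1 : Matrix (Fin N) (Fin N) F))]
    {E Q : Type} [Group E] [Finite E] [Group Q] [Finite Q]
    (f : E →* Q) (s : Q →* E) (hfs : ∀ q, f (s q) = q)
    (θ : f.ker ≃* (κ → SG (sF p m F) (1 : Matrix (Fin N) (Fin N) F)))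
    (hK : MP7fR.IsHilbertian K) : Solves K f := by
  obtain ⟨r, hr⟩ := exists_solvesOver_su (K := K) hm hcard h3 hq f s hfs θ
  exact solves_of_mv hK _ _ hr

/-- **Split embedding problems with kernel a power of `PSU(N, q)`, `N ≥ 3`, over Hilbertian
fields.** -/
theorem solves_of_split_psu (hm : 0 < m) (hcard : Nat.card F = p ^ (2 * m)) (h3 : 3 ≤ N)
    (hq : N = 3 → 2 < p ^ m)
    [IsSimpleGroup (PSG (sF p m F) (1 : Matrix (Fin N) (Fin N) F))]
    {E Q : Type} [Group E] [Finite E] [Group Q] [Finite Q]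
    (f : E →* Q) (s : Q →* E) (hfs : ∀ q, f (s q) = q)
    (θ : f.ker ≃* (κ → PSG (sF p m F) (1 : Matrix (Fin N) (Fin N) F)))
    (hK : MP7fR.IsHilbertian K) : Solves K f := by
  obtain ⟨r, hr⟩ := exists_solvesOver_psu (K := K) hm hcard h3 hq f s hfs θ
  exact solves_of_mv hK _ _ hr

/-- **Embedding problems with kernel a power of `PSU(N, q)`, `N ≥ 3`, `q = p ^ m`, such that
`gcd (d, (q + 1) / d, m) = 1`, `d = gcd (N, q + 1)`, over Hilbertian fields.** -/
theorem solves_psu_exact (hm : 0 < m) (hcard : Nat.card F = p ^ (2 * m))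
    (h3 : 3 ≤ N) (hq : N = 3 → 2 < p ^ m)
    (hd : Nat.gcd (Nat.gcd (N.gcd (p ^ m + 1)) ((p ^ m + 1) / N.gcd (p ^ m + 1))) m = 1)
    [IsSimpleGroup (PSG (sF p m F) (1 : Matrix (Fin N) (Fin N) F))]
    {E : Type} [Group E] [Finite E] (N0 : Subgroup E) [N0.Normal]
    (θ : N0 ≃* (κ → PSG (sF p m F) (1 : Matrix (Fin N) (Fin N) F)))
    (hK : MP7fR.IsHilbertian K) : Solves K (QuotientGroup.mk' N0) := by
  obtain ⟨r, hr⟩ := exists_solvesOver_psu_kernel (K := K) hm hcard h3 hq hd N0 θ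
  exact solves_of_mv hK _ _ hr

end

end MP7fM

end

section

/-!
Embedding problems whose kernel is a power of a classical group in characteristic `p`.
-/

set_option autoImplicit false

universe u

namespace MP7fE

open Matrix MP7fR

theorem finite_of_card {p m : ℕ} [Fact p.Prime] {F : Type} (h1 : Nat.card F = p ^ m) :
    Finite F :=
  Nat.finite_of_card_ne_zero (by rw [h1]; exact pow_ne_zero _ (Fact.out : p.Prime).ne_zero)

theorem charP_of_card {p m : ℕ} [Fact p.Prime] {F : Type} [Field F] (h1 : Nat.card F = p ^ m) :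
    CharP F p := by
  have := finite_of_card h1
  have := Fintype.ofFinite F
  obtain ⟨q, hq⟩ := CharP.exists F
  obtain ⟨n, hq', hn⟩ := FiniteField.card F q
  have h2 : p ∣ q ^ (n : ℕ) := by
    rw [← hn, ← Nat.card_eq_fintype_card, h1]
    have h3 : m ≠ 0 := by
      rintro rfl
      rw [pow_zero] at h1
      have := Nat.card_eq_one_iff_unique.mp h1
      exact zero_ne_one (this.1.elim (0 : F) 1)
    exact dvd_pow_self p h3
  have h3 := (Fact.out : p.Prime).dvd_of_dvd_pow h2
  rw [(Nat.prime_dvd_prime_iff_eq (Fact.out : p.Prime) hq').mp h3]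
  exact hq

/-- The power of an isomorphism. -/
def powEquiv {S T : Type} [Group S] [Group T] (k : ℕ) (e : S ≃* T) :
    (Fin k → S) ≃* (Fin k → T) where
  toFun x := fun i => e (x i)
  invFun x := fun i => e.symm (x i)
  left_inv x := funext fun i => e.symm_apply_apply (x i)
  right_inv x := funext fun i => e.apply_symm_apply (x i)
  map_mul' _ _ := funext fun _ => map_mul e _ _

theorem two_zero {p : ℕ} [Fact p.Prime] {F : Type} [Field F] [CharP F p] {n : ℕ} (h2 : 2 ≤ n)
    (h : n = 2 → p ≠ 2) (h0 : (2 : F) = 0) : 3 ≤ n := by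
  by_contra hn
  have h1 : n = 2 := by omega
  apply h h1
  have h3 : ((2 : ℕ) : F) = 0 := by exact_mod_cast h0
  rw [CharP.cast_eq_zero_iff F p] at h3
  exact (Nat.prime_dvd_prime_iff_eq (Fact.out : p.Prime) Nat.prime_two).mp h3

section solve

variable {p : ℕ} [Fact p.Prime] {K : Type u} [Field K] [CharP K p] (hK : IsHilbertian K)
  {E Q : Type} [Group E] [Finite E] [Group Q] [Finite Q] (f : E →* Q) (s : Q →* E)
  (hfs : ∀ q, f (s q) = q) {H : Type} [Group H] (hH : IsMatrixGroup p H)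
  (hS : IsSimpleGroup (H ⧸ Subgroup.center H)) (r : ℕ)

include hK hfs hH hS in
/-- Split embedding problems whose kernel is a power of a matrix group. -/
theorem solves_matrix (θ : f.ker ≃* (Fin r → H)) : Solves K f := by
  obtain ⟨F, _, n, m, ⟨hF, hn, hq, ⟨e⟩⟩ | ⟨hF, hn, hp, ⟨e⟩⟩ |
    ⟨hF, hm, hn, hq, σ, hσ, ⟨e⟩⟩⟩ := hH
  · have := finite_of_card hF
    have := charP_of_card hF
    rcases Nat.lt_or_ge 2 n with h3 | h3
    · exact MP7fM.solves_of_split_sln p h3 f s hfs (θ.trans (powEquiv r e)) hK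
    · obtain rfl : n = 2 := le_antisymm h3 hn
      exact MP7fY.solves_of_sl2_split (p := p) (by rw [hF]; exact hq rfl) f s hfs
        (θ.trans (powEquiv r e)) hK
  · have := finite_of_card hF
    have := charP_of_card hF
    have e' : H ≃* MP7fP.Sp n F := e
    have h1 : IsSimpleGroup (MP7fP.PSp n F) := MulEquiv.isSimpleGroup (centerQuot e').symm
    exact MP7fY.solves_of_sp_split (p := p) hn (two_zero hn hp) f s hfs
      (θ.trans (powEquiv r e')) hK
  · have := finite_of_card hF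
    have := charP_of_card hF
    obtain rfl : σ = MP7fY.sF p m F := RingHom.ext fun x => (hσ x).trans
      (MP7fY.sF_apply x).symm
    have e' : H ≃* MP7fY.SG (MP7fY.sF p m F) (1 : Matrix (Fin n) (Fin n) F) := e.trans suEquiv
    have h1 : IsSimpleGroup (MP7fY.PSG (MP7fY.sF p m F) (1 : Matrix (Fin n) (Fin n) F)) :=
      MulEquiv.isSimpleGroup (centerQuot e').symm
    exact MP7fM.solves_of_split_su (p := p) hm hF hn hq f s hfs (θ.trans (powEquiv r e')) hK

include hK hfs hH hS in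
/-- Split embedding problems whose kernel is a power of the quotient of a matrix group by the
centre. -/
theorem solves_matrix_quot (θ : f.ker ≃* (Fin r → H ⧸ Subgroup.center H)) : Solves K f := by
  obtain ⟨F, _, n, m, ⟨hF, hn, hq, ⟨e⟩⟩ | ⟨hF, hn, hp, ⟨e⟩⟩ |
    ⟨hF, hm, hn, hq, σ, hσ, ⟨e⟩⟩⟩ := hH
  · have := finite_of_card hF
    have := charP_of_card hF
    rcases Nat.lt_or_ge 2 n with h3 | h3
    · exact MP7fM.solves_of_split_psln p h3 f s hfs (θ.trans (powEquiv r (centerQuot e))) hK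
    · obtain rfl : n = 2 := le_antisymm h3 hn
      exact MP7fY.solves_of_psl2_split (p := p) (by rw [hF]; exact hq rfl) f s hfs
        (θ.trans (powEquiv r (centerQuot e))) hK
  · have := finite_of_card hF
    have := charP_of_card hF
    have e' : H ≃* MP7fP.Sp n F := e
    have h1 : IsSimpleGroup (MP7fP.PSp n F) := MulEquiv.isSimpleGroup (centerQuot e').symm
    exact MP7fY.solves_of_psp_split (p := p) hn (two_zero hn hp) f s hfs
      (θ.trans (powEquiv r (centerQuot e'))) hK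
  · have := finite_of_card hF
    have := charP_of_card hF
    obtain rfl : σ = MP7fY.sF p m F := RingHom.ext fun x => (hσ x).trans
      (MP7fY.sF_apply x).symm
    have e' : H ≃* MP7fY.SG (MP7fY.sF p m F) (1 : Matrix (Fin n) (Fin n) F) := e.trans suEquiv
    have h1 : IsSimpleGroup (MP7fY.PSG (MP7fY.sF p m F) (1 : Matrix (Fin n) (Fin n) F)) :=
      MulEquiv.isSimpleGroup (centerQuot e').symm
    exact MP7fM.solves_of_split_psu (p := p) hm hF hn hq f s hfs
      (θ.trans (powEquiv r (centerQuot e'))) hK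

end solve

theorem IsMatrixGroup.finite {p : ℕ} [Fact p.Prime] {H : Type} [Group H]
    (hH : IsMatrixGroup p H) : Finite H := by
  obtain ⟨F, _, n, m, ⟨hF, hn, hq, ⟨e⟩⟩ | ⟨hF, hn, hp, ⟨e⟩⟩ |
    ⟨hF, hm, hn, hq, σ, hσ, ⟨e⟩⟩⟩ := hH
  · have := finite_of_card hF
    exact Finite.of_equiv _ e.symm.toEquiv
  · have := finite_of_card hF
    have h1 : Finite (Sp n F) := inferInstanceAs (Finite (MP7fP.Sp n F))
    exact Finite.of_equiv _ e.symm.toEquiv
  · have := finite_of_card hF
    exact Finite.of_equiv _ e.symm.toEquiv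

/-- The centre of the simple quotient is trivial. -/
theorem IsMatrixGroup.center {p : ℕ} [Fact p.Prime] {H : Type} [Group H]
    (hH : IsMatrixGroup p H) (hS : IsSimpleGroup (H ⧸ Subgroup.center H)) :
    Subgroup.center (H ⧸ Subgroup.center H) = ⊥ := by
  have key : ∀ {T : Type} [Group T], (H ⧸ Subgroup.center H) ≃* T → Subgroup.center T = ⊥ →
      Subgroup.center (H ⧸ Subgroup.center H) = ⊥ := by
    intro T _ e hT
    rw [eq_bot_iff]
    intro x hx
    rw [Subgroup.mem_bot]
    have h1 : e x ∈ Subgroup.center T := by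
      rw [← map_center e]
      exact ⟨x, hx, rfl⟩
    rw [hT, Subgroup.mem_bot] at h1
    exact (MulEquiv.map_eq_one_iff e).mp h1
  obtain ⟨F, _, n, m, ⟨hF, hn, hq, ⟨e⟩⟩ | ⟨hF, hn, hp, ⟨e⟩⟩ |
    ⟨hF, hm, hn, hq, σ, hσ, ⟨e⟩⟩⟩ := hH
  · have := finite_of_card hF
    have := charP_of_card hF
    refine key (centerQuot e) ?_
    rcases Nat.lt_or_ge 2 n with h3 | h3
    · exact MP7fG.center_psl (F := F) h3
    · obtain rfl : n = 2 := le_antisymm h3 hn
      exact MP7fS.psl2_center (F := F) (by rw [hF]; exact hq rfl)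
  · have := finite_of_card hF
    have := charP_of_card hF
    have e' : H ≃* MP7fP.Sp n F := e
    have h1 : IsSimpleGroup (MP7fP.PSp n F) := MulEquiv.isSimpleGroup (centerQuot e').symm
    exact key (centerQuot e') (MP7fW.center_psp (F := F) hn)
  · have := finite_of_card hF
    have := charP_of_card hF
    obtain rfl : σ = MP7fY.sF p m F := RingHom.ext fun x => (hσ x).trans
      (MP7fY.sF_apply x).symm
    have e' : H ≃* MP7fY.SG (MP7fY.sF p m F) (1 : Matrix (Fin n) (Fin n) F) := e.trans suEquiv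
    have h1 : IsSimpleGroup (MP7fY.PSG (MP7fY.sF p m F) (1 : Matrix (Fin n) (Fin n) F)) :=
      MulEquiv.isSimpleGroup (centerQuot e').symm
    obtain ⟨a, b, hab⟩ := MP7fH.noncomm_one (N := n) (F := F) hm hF hn
    exact key (centerQuot e') (MP7fW.center_eq_bot hab)

end MP7fE

end

section

/-!
The class of simple groups `IsFactor p k` is good.
-/

set_option autoImplicit false

universe u

namespace MP7fE

open MP7fR MP7fC

theorem isPGroup_of_pi {p : ℕ} [Fact p.Prime] {S : Type} [Group S] {k : ℕ} {E : Type} [Group E]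
    (N : Subgroup E) (φ : N ≃* (Fin k → S)) (hS : Nat.card S = p) : IsPGroup p N := by
  have : Finite S := Nat.finite_of_card_ne_zero (by rw [hS]; exact (Fact.out : p.Prime).ne_zero)
  have h1 : Nat.card N = p ^ k := by
    rw [Nat.card_congr φ.toEquiv, Nat.card_fun, hS, Nat.card_fin]
  exact IsPGroup.of_card h1

theorem center_eq_bot_of_simple {S : Type} [Group S] [IsSimpleGroup S]
    (h : ∃ a b : S, a * b ≠ b * a) : Subgroup.center S = ⊥ := by
  obtain ⟨a, b, h⟩ := h
  exact MP7fW.center_eq_bot h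

variable {p : ℕ} [Fact p.Prime] {k : Type} [Field k] [CharP k p]

theorem goodSplit_quasiClassical : GoodSplit.{u} k (IsQuasiClassical p) := by
  constructor
  intro K _ _ hK E Q _ _ _ _ f s hfs H _ r hH θ
  have hp : CharP K p := charP_of_injective_algebraMap (algebraMap k K).injective p
  rcases hH with ⟨hsim, H', _, hH', ⟨e⟩⟩ | ⟨hH, hS⟩
  · exact solves_matrix_quot (p := p) hK f s hfs hH' (MulEquiv.isSimpleGroup e.symm) r
      (θ.trans (powEquiv r e))
  · exact solves_matrix (p := p) hK f s hfs hH hS r θ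

omit [CharP k p] in
theorem isSimpleGroup_of_isFactor (S : Type) [Group S] (h : IsFactor p k S) :
    IsSimpleGroup S := by
  rcases h with hS | ⟨n, h5, h6, ⟨e⟩⟩ | ⟨⟨hs, -⟩, -⟩ | ⟨-, hsim, -⟩
  · exact isSimpleGroup_of_prime_card hS
  · have h7 : IsSimpleGroup (alternatingGroup (Fin n)) :=
      alternatingGroup.isSimpleGroup (by rwa [Nat.card_fin])
    exact MulEquiv.isSimpleGroup e
  · exact hs
  · exact hsim

theorem good_factor [Finite k] : Good.{u} k (IsFactor p k) := by
  refine ⟨fun S T _ _ => isFactor_congr p k S T, fun S _ => isSimpleGroup_of_isFactor S, ?_⟩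
  intro K _ _ hK E _ _ N _ S _ r hS φ
  have hp : CharP K p := charP_of_injective_algebraMap (algebraMap k K).injective p
  rcases hS with hS | ⟨n, h5, h6, ⟨e⟩⟩ | ⟨⟨hsim, H, _, hH, ⟨e⟩⟩, hsplit⟩ |
    ⟨hfin, hsim, hab, hout, hocc⟩
  · exact solves_of_pKernel (p := p) hK N (isPGroup_of_pi N φ hS)
  · have := MP7fL.infinite_of_isHilbertian hK
    by_cases hn6 : n = 6
    · obtain rfl : p = 2 := h6 hn6
      subst hn6
      exact solves_of_mv hK _ _ (MP7fX.solvesOver_alt6 N (φ.trans (powEquiv r e)))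
    · exact solves_of_mv hK _ _ (solvesOver_alt h5 hn6 N (φ.trans (powEquiv r e)))
  · have hS : IsSimpleGroup (H ⧸ Subgroup.center H) := MulEquiv.isSimpleGroup e.symm
    obtain ⟨s, hs⟩ := (hsplit.congr e).exists_section (hH.center hS) N (φ.trans (powEquiv r e))
    exact solves_matrix_quot (p := p) hK (QuotientGroup.mk' N) s hs hH hS r
      ((MulEquiv.subgroupCongr (QuotientGroup.ker_mk' N)).trans (φ.trans (powEquiv r e)))
  · exact MP7fK.solves_of_complete (k := k) (center_eq_bot_of_simple hab) hout hocc N φ hK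

end MP7fE

end
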