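import Pool.Agent.Lib.MP_7f581e_ntE.Layered

/-!
Closure properties of the class of groups which occur regularly over a finite field.
-/

set_option autoImplicit false

universe u

namespace MP7fE

open MP7fR MP7fC

/-- The smallest class of finite groups which contains all groups which occur regularly over `k`
and is closed under extensions whose kernel has a subnormal series with factors in `𝒮`, and
contains every finite group `E` which is the product of a normal subgroup `A`, such that `(E, A)`
is layered, and the image of a homomorphism from a member `U`. -/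
inductive Reach (k : Type) [Field k] (𝒮 𝒬 : GroupClass) : (E : Type) → [Group E] → Prop
  /-- groups which occur regularly over `k` -/
  | base {E : Type} [Group E] [Finite E] (h : OccursRegularly E k) : Reach k 𝒮 𝒬 E
  /-- extensions whose kernel has the allowed composition factors -/
  | ext {E Q : Type} [Group E] [Finite E] [Group Q] (f : E →* Q) (hf : Function.Surjective f)
      (hk : HasFactors 𝒮 f.ker) (hQ : Reach k 𝒮 𝒬 Q) : Reach k 𝒮 𝒬 E
  /-- products of a layered normal subgroup and an image of a member -/
  | prod {E U : Type} [Group E] [Finite E] [Group U] (β : U →* E) (A : Subgroup E)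
      (hA : Layered 𝒮 𝒬 A) (h : A ⊔ β.range = ⊤) (hU : Reach k 𝒮 𝒬 U) : Reach k 𝒮 𝒬 E

theorem Reach.finite {k : Type} [Field k] {𝒮 𝒬 : GroupClass} {E : Type} [Group E]
    (h : Reach k 𝒮 𝒬 E) : Finite E := by
  cases h <;> infer_instance

section equiv

variable {𝒮 𝒬 : GroupClass}
  (hiso : ∀ (S T : Type) [Group S] [Group T], (S ≃* T) → 𝒮 S → 𝒮 T)
  (hsim : ∀ (S : Type) [Group S], 𝒮 S → IsSimpleGroup S)

include hiso hsim

theorem Layered.map_equiv {E : Type} [Group E] {A : Subgroup E} (h : Layered 𝒮 𝒬 A) :
    ∀ {E' : Type} [Group E'] (e : E ≃* E'), Layered 𝒮 𝒬 (A.map (e : E →* E')) := by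
  induction h with
  | ab A hn h =>
    intro E' _ e
    refine .ab _ (hn.map _ e.surjective) ?_
    rintro _ ⟨a, ha, rfl⟩ _ ⟨b, hb, rfl⟩
    rw [← map_mul, ← map_mul, h a ha b hb]
  | pow A hn n hH θ =>
    intro E' _ e
    exact .pow _ (hn.map _ e.surjective) n hH
      ((A.equivMapOfInjective (e : _ →* E') e.injective).symm.trans θ)
  | sup A B hA hB ihA ihB =>
    intro E' _ e
    rw [Subgroup.map_sup]
    exact .sup _ _ (ihA e) (ihB e)
  | @ext E _ A B hn hBA hB hA ih =>
    intro E' _ e
    have hn' : (B.map (e : E →* E')).Normal := hn.map _ e.surjective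
    refine .ext _ (B.map (e : E →* E')) hn' (Subgroup.map_mono hBA) ?_ ?_
    · exact hB.of_surjective hiso hsim _
        (B.equivMapOfInjective (e : E →* E') e.injective).toMonoidHom
        (B.equivMapOfInjective (e : E →* E') e.injective).surjective
    · have h1 := ih (QuotientGroup.congr B (B.map (e : E →* E')) e rfl)
      have h2 : (A.map (QuotientGroup.mk' B)).map
          ((QuotientGroup.congr B (B.map (e : E →* E')) e rfl : _ ≃* _) : _ →* _) =
          (A.map (e : E →* E')).map (QuotientGroup.mk' (B.map (e : E →* E'))) := by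
        rw [Subgroup.map_map, Subgroup.map_map]
        rfl
      rw [h2] at h1
      exact h1

end equiv

/-- The power of a subgroup. -/
def powSub {E : Type} [Group E] (A : Subgroup E) (m : ℕ) : Subgroup (Fin m → E) :=
  Subgroup.pi Set.univ fun _ => A

theorem mem_powSub {E : Type} [Group E] {A : Subgroup E} {m : ℕ} {x : Fin m → E} :
    x ∈ powSub A m ↔ ∀ i, x i ∈ A := by
  constructor
  · intro h i
    exact h i (Set.mem_univ i)
  · intro h i _
    exact h i

theorem powSub_normal {E : Type} [Group E] (A : Subgroup E) (m : ℕ) (h : A.Normal) :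
    (powSub A m).Normal := by
  constructor
  intro x hx g
  rw [mem_powSub] at hx ⊢
  intro i
  exact h.conj_mem _ (hx i) (g i)

/-- The power of a subgroup is the power of the group. -/
def powSubEquiv {E : Type} [Group E] (A : Subgroup E) (m : ℕ) :
    powSub A m ≃* (Fin m → A) where
  toFun x := fun i => ⟨x.1 i, mem_powSub.mp x.2 i⟩
  invFun y := ⟨fun i => (y i).1, mem_powSub.mpr fun i => (y i).2⟩
  left_inv _ := rfl
  right_inv _ := rfl
  map_mul' _ _ := rfl

theorem powSub_sup {E : Type} [Group E] (A B : Subgroup E) (m : ℕ) (hA : A.Normal) :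
    powSub (A ⊔ B) m = powSub A m ⊔ powSub B m := by
  have hn : (powSub A m).Normal := powSub_normal A m hA
  apply le_antisymm
  · intro x hx
    rw [mem_powSub] at hx
    have h1 : ∀ i, ∃ a ∈ A, ∃ b ∈ B, a * b = x i := fun i => by
      have h2 := hx i
      rw [← SetLike.mem_coe, Subgroup.normal_mul] at h2
      obtain ⟨a, ha, b, hb, hab⟩ := h2
      exact ⟨a, ha, b, hb, hab⟩
    choose a ha b hb hab using h1
    have h2 : x = a * b := funext fun i => (hab i).symm
    rw [h2]
    exact mul_mem (Subgroup.mem_sup_left (mem_powSub.mpr ha))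
      (Subgroup.mem_sup_right (mem_powSub.mpr hb))
  · rw [sup_le_iff]
    constructor
    · intro x hx
      rw [mem_powSub] at hx ⊢
      exact fun i => Subgroup.mem_sup_left (hx i)
    · intro x hx
      rw [mem_powSub] at hx ⊢
      exact fun i => Subgroup.mem_sup_right (hx i)

section pow

variable {𝒮 𝒬 : GroupClass}
  (hiso : ∀ (S T : Type) [Group S] [Group T], (S ≃* T) → 𝒮 S → 𝒮 T)
  (hsim : ∀ (S : Type) [Group S], 𝒮 S → IsSimpleGroup S)

/-- The quotient of the power by the power of a normal subgroup. -/
noncomputable def powQuot {E : Type} [Group E] (B : Subgroup E) [hB : B.Normal] (m : ℕ)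
    [(powSub B m).Normal] : (Fin m → E ⧸ B) ≃* (Fin m → E) ⧸ powSub B m :=
  ((QuotientGroup.quotientMulEquivOfEq (by
    ext x
    rw [mem_powSub, MonoidHom.mem_ker]
    constructor
    · intro h
      funext i
      exact (QuotientGroup.eq_one_iff (x i)).mpr (h i)
    · intro h i
      exact (QuotientGroup.eq_one_iff (x i)).mp (congrFun h i))).trans
    (QuotientGroup.quotientKerEquivOfSurjective (powHom m (QuotientGroup.mk' B))
      (powHom_surjective m _ (QuotientGroup.mk'_surjective B)))).symm

theorem powQuot_mk {E : Type} [Group E] (B : Subgroup E) [hB : B.Normal] (m : ℕ)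
    [(powSub B m).Normal] (x : Fin m → E) :
    powQuot B m (powHom m (QuotientGroup.mk' B) x) = QuotientGroup.mk x := by
  rw [powQuot, MulEquiv.symm_apply_eq]
  rfl

include hiso hsim

theorem Layered.pow' {E : Type} [Group E] {A : Subgroup E} (h : Layered 𝒮 𝒬 A) (m : ℕ) :
    Layered 𝒮 𝒬 (powSub A m) := by
  induction h with
  | ab A hn h =>
    refine .ab _ (powSub_normal A m hn) ?_
    intro a ha b hb
    rw [mem_powSub] at ha hb
    funext i
    exact h _ (ha i) _ (hb i)
  | @pow E _ A hn H _ n hH θ =>
    exact .pow _ (powSub_normal A m hn) (m * n) hH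
      (((powSubEquiv A m).trans (MulEquiv.piCongrRight fun _ => θ)).trans (powPow H m n))
  | sup A B hA hB ihA ihB =>
    rw [powSub_sup A B m hA.normal]
    exact .sup _ _ ihA ihB
  | @ext E _ A B hn hBA hB hA ih =>
    have hn' : (powSub B m).Normal := powSub_normal B m hn
    refine .ext _ (powSub B m) hn' ?_ ?_ ?_
    · intro x hx
      rw [mem_powSub] at hx ⊢
      exact fun i => hBA (hx i)
    · exact (hB.pow hiso hsim m).of_surjective hiso hsim _ (powSubEquiv B m).symm.toMonoidHom
        (powSubEquiv B m).symm.surjective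
    · have h1 := ih.map_equiv hiso hsim (powQuot B m)
      have h2 : (powSub (A.map (QuotientGroup.mk' B)) m).map
          ((powQuot B m : _ ≃* _) : _ →* _) =
          (powSub A m).map (QuotientGroup.mk' (powSub B m)) := by
        ext z
        constructor
        · rintro ⟨y, hy, rfl⟩
          have hy' := mem_powSub.mp hy
          choose a ha hay using hy'
          refine ⟨a, mem_powSub.mpr ha, ?_⟩
          have h3 : y = powHom m (QuotientGroup.mk' B) a := funext fun i => (hay i).symm
          rw [h3]
          exact (powQuot_mk B m a).symm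
        · rintro ⟨a, ha, rfl⟩
          refine ⟨powHom m (QuotientGroup.mk' B) a, mem_powSub.mpr fun i => ⟨a i, mem_powSub.mp ha i,
            rfl⟩, ?_⟩
          exact powQuot_mk B m a
      rw [h2] at h1
      exact h1

theorem Reach.pow {k : Type} [Field k] [Finite k] {E : Type} [Group E]
    (h : Reach k 𝒮 𝒬 E) (m : ℕ) : Reach k 𝒮 𝒬 (Fin m → E) := by
  induction h with
  | base h => exact .base (occursRegularly_pow h m)
  | ext f hf hk hQ ih =>
    exact .ext (powHom m f) (powHom_surjective m f hf) (hasFactors_kerPow hiso hsim hk m) ih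
  | prod β A hA h hU ih =>
    refine .prod (powHom m β) (powSub A m) (hA.pow' hiso hsim m) ?_ ih
    have h1 : (powHom m β).range = powSub β.range m := by
      ext x
      rw [mem_powSub]
      constructor
      · rintro ⟨y, rfl⟩ i
        exact ⟨y i, rfl⟩
      · intro hx
        choose y hy using hx
        exact ⟨y, funext hy⟩
    rw [h1, ← powSub_sup A _ m hA.normal, h, eq_top_iff]
    intro x _
    exact mem_powSub.mpr fun i => Subgroup.mem_top _

end pow

section main

variable {p : ℕ} [Fact p.Prime] {k : Type} [Field k] [Finite k] [CharP k p]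
  {𝒮 𝒬 : GroupClass}

include p in
/-- The groups of the class occur over all Hilbertian fields. -/
theorem Good.reach_occurs (h𝒮 : Good.{u} k 𝒮) (h𝒬 : GoodSplit.{u} k 𝒬) {K : Type u} [Field K]
    [Algebra k K] (hK : IsHilbertian K) {E : Type} [Group E] (h : Reach k 𝒮 𝒬 E) :
    Occurs E K := by
  have hp : CharP K p := charP_of_injective_algebraMap (algebraMap k K).injective p
  induction h with
  | base h => exact occurs_of_isHilbertian hK (occursRegularly_baseChange h).occurs
  | ext f hf hk hQ ih => exact (h𝒮.solves_surjective hK hf hk).occurs ih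
  | @prod E U _ _ _ β A hA h hU ih =>
    have hfin : Finite U := hU.finite
    obtain ⟨P, _, _, π, β', h0, h1, h2, h3⟩ := hA.lift (p := p) h𝒮 h𝒬 hK inferInstance U β
    have h4 : Occurs P K := h3.occurs ih
    refine MP7fS.occurs_of_surjective h4 β' ?_
    rw [← MonoidHom.range_eq_top, eq_top_iff, ← h, sup_le_iff]
    refine ⟨h2, ?_⟩
    rintro _ ⟨u, rfl⟩
    obtain ⟨x, rfl⟩ := h0 u
    have h5 : β (π x) = (β' x * (β (π x))⁻¹)⁻¹ * β' x := by group
    rw [h5]
    exact mul_mem (inv_mem (h2 (h1 x))) ⟨x, rfl⟩

include p in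
/-- The groups of the class occur regularly over all fields containing `k`. -/
theorem Good.reach_regular (h𝒮 : Good.{0} k 𝒮) (h𝒬 : GoodSplit.{0} k 𝒬) {E : Type}
    [Group E] (h : Reach k 𝒮 𝒬 E) :
    (∀ (K : Type u) [Field K] [Algebra k K], OccursRegularly E K) ∧
      ∀ (K : Type u) [Field K] [Algebra k K], IsHilbertian K → Occurs E K := by
  have hfin : Finite E := h.finite
  have h1 := per_group (G := E) (Nat.lt_succ_self _) (k := k)
    (h𝒮.reach_occurs (p := p) h𝒬 (MP7fR.isHilbertian_ratFunc k)
      (h.pow h𝒮.congr h𝒮.simple _))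
  exact ⟨fun K _ _ => h1.1 K, fun K _ _ hK => h1.2 K hK⟩

end main

end MP7fE
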