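import Pool.Agent.Lib.MP_7f581e_ntE.Free
import Pool.Agent.Lib.MP_7f581e_ntE.General

/-!
Over every countable Hilbertian field of characteristic `p` the Galois group of the maximal
pro-`C` extension is the free pro-`C` group of countably infinite rank.
-/

set_option autoImplicit false

universe u v w

namespace MP7fE

open MP7fR MP7fC

variable {k : Type} [Field k] {𝒮 : GroupClass}

/-- Over a countable Hilbertian field containing `k` the Galois group of the maximal
pro-`C` extension is a free pro-`C` group of countably infinite rank. -/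
theorem Good.isFreeProC (h𝒮 : Good.{u} k 𝒮) {K : Type u} [Field K] [Algebra k K] [Countable K]
    (hK : IsHilbertian K) : IsFreeProC.{u, w} 𝒮 (maxC 𝒮 K ≃ₐ[K] maxC 𝒮 K) :=
  isFree_of_solves h𝒮.congr h𝒮.simple fun hf hN => h𝒮.solves_surjective hK hf hN

/-- The Galois group of the maximal pro-`C` extension of a countable Hilbertian field
containing `k` does not depend on the field. -/
theorem Good.maxC_equiv (h𝒮 : Good.{u} k 𝒮) (h𝒮' : Good.{v} k 𝒮) {K : Type u} [Field K]
    [Algebra k K] [Countable K] (hK : IsHilbertian K) {K' : Type v} [Field K'] [Algebra k K']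
    [Countable K'] (hK' : IsHilbertian K') :
    Nonempty ((maxC 𝒮 K ≃ₐ[K] maxC 𝒮 K) ≃ₜ* (maxC 𝒮 K' ≃ₐ[K'] maxC 𝒮 K')) :=
  (h𝒮.isFreeProC hK).unique (h𝒮'.isFreeProC hK')

end MP7fE
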