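import Pool.Agent.Lib.MP_7f581e_ntR.Defs

/-!
Hilbertian fields: invariance under isomorphism.
-/

set_option autoImplicit false

universe u v

namespace MP7fE

open MP7fR Polynomial

theorem isHilbertian_congr {K : Type u} {K' : Type v} [Field K] [Field K'] (e : K ≃+* K')
    (h : IsHilbertian K) : IsHilbertian K' := by
  let e1 : K[X] ≃+* K'[X] := Polynomial.mapEquiv e
  let e2 : RatFunc K ≃+* RatFunc K' :=
    IsFractionRing.ringEquivOfRingEquiv (A := K[X]) (K := RatFunc K) (B := K'[X])
      (L := RatFunc K') e1
  have he2 : ∀ x : K[X], e2 (algebraMap K[X] (RatFunc K) x) = algebraMap K'[X] (RatFunc K') (e1 x) :=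
    fun x => IsFractionRing.ringEquivOfRingEquiv_algebraMap e1 x
  intro f hf hs g hg
  obtain ⟨f', rfl⟩ : ∃ f' : K[X][X], f'.map e1.toRingHom = f := by
    refine ⟨f.map e1.symm.toRingHom, ?_⟩
    rw [Polynomial.map_map, RingEquiv.toRingHom_comp_symm_toRingHom, Polynomial.map_id]
  have hcomm : (f'.map (algebraMap K[X] (RatFunc K))).map e2.toRingHom =
      (f'.map e1.toRingHom).map (algebraMap K'[X] (RatFunc K')) := by
    rw [Polynomial.map_map, Polynomial.map_map]
    congr 1
    exact RingHom.ext fun x => he2 x
  have hmap : ∀ q : (RatFunc K)[X], q.map e2.toRingHom = Polynomial.mapEquiv e2 q := fun q => rfl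
  have h1 : Irreducible (f'.map (algebraMap K[X] (RatFunc K))) := by
    rw [← hcomm, hmap] at hf
    exact (MulEquiv.irreducible_iff (Polynomial.mapEquiv e2)).mp hf
  have h2 : (f'.map (algebraMap K[X] (RatFunc K))).Separable := by
    rw [← hcomm] at hs
    exact (Polynomial.separable_map e2.toRingHom).mp hs
  obtain ⟨a, ha1, ha2⟩ := h f' h1 h2 (e1.symm g) (by
    rwa [Ne, EmbeddingLike.map_eq_zero_iff])
  refine ⟨e a, ?_, ?_⟩
  · have h3 : g.eval (e a) = e ((e1.symm g).eval a) := by
      have h4 : g = (e1.symm g).map e.toRingHom := (e1.apply_symm_apply g).symm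
      conv_lhs => rw [h4]
      exact Polynomial.eval_map_apply e.toRingHom a
    rw [h3]
    intro h0
    exact ha1 (e.injective (by rw [h0, map_zero]))
  · have h3 : (f'.map e1.toRingHom).map (evalRingHom (e a)) =
        Polynomial.mapEquiv e (f'.map (evalRingHom a)) := by
      change _ = (f'.map (evalRingHom a)).map e.toRingHom
      rw [Polynomial.map_map, Polynomial.map_map]
      congr 1
      apply RingHom.ext
      intro q
      exact Polynomial.eval_map_apply e.toRingHom a
    rw [h3]
    exact (MulEquiv.irreducible_iff (Polynomial.mapEquiv e)).mpr ha2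

end MP7fE
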