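import Pool.Agent.Lib.MP_7f581e_ntE.Free

/-!
The maximal pro-`C` extension of a field: intrinsic description.
-/

set_option autoImplicit false

universe u v w

namespace MP7fE

open MP7fC

/-- `L` is a finite Galois extension of `K` whose group belongs to the class `C` of finite groups
with a subnormal series all of whose successive quotients belong to `𝒮`. -/
structure IsCExt (𝒮 : (S : Type) → [Group S] → Prop) (K L : Type u) [Field K] [Field L]
    [Algebra K L] : Prop where
  finite : FiniteDimensional K L
  galois : IsGalois K L
  group : InClass 𝒮 (L ≃ₐ[K] L)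

/-- `N` is the maximal pro-`C` extension of `K`: a Galois extension of `K`, the union of its
subextensions which are finite Galois with group in `C`, in which every finite Galois extension of
`K` with group in `C` can be embedded. -/
structure IsMaxC (𝒮 : (S : Type) → [Group S] → Prop) (K N : Type u) [Field K] [Field N]
    [Algebra K N] : Prop where
  galois : IsGalois K N
  union : ∀ x : N, ∃ L : IntermediateField K N, x ∈ L ∧ IsCExt 𝒮 K L
  maximal : ∀ (L : Type u) [Field L] [Algebra K L], IsCExt 𝒮 K L → Nonempty (L →ₐ[K] N)

/-- The Galois group of `N` over `K` is a free pro-`C` group of countably infinite rank. -/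
def FreeGal (𝒮 : (S : Type) → [Group S] → Prop) (K N : Type u) [Field K] [Field N]
    [Algebra K N] : Prop :=
  IsFreeProC.{u, w} 𝒮 (N ≃ₐ[K] N)

variable {𝒮 : (S : Type) → [Group S] → Prop} {K : Type u} [Field K]

theorem InClass.congr {G : Type u} {G' : Type v} [Group G] [Group G'] (h : InClass 𝒮 G)
    (e : G ≃* G') : InClass 𝒮 G' := by
  obtain ⟨A, _, hA, ⟨f⟩⟩ := h
  exact ⟨A, inferInstance, hA, ⟨e.symm.trans f⟩⟩

theorem isMaxC_maxC (hiso : ∀ (S T : Type) [Group S] [Group T], (S ≃* T) → 𝒮 S → 𝒮 T)
    (hsim : ∀ (S : Type) [Group S], 𝒮 S → IsSimpleGroup S) : IsMaxC 𝒮 K (maxC 𝒮 K) where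
  galois := isGalois_maxC 𝒮 K
  union x := by
    let N := maxC 𝒮 K
    let L : IntermediateField K N := IntermediateField.normalClosure K (IntermediateField.adjoin K {x}) N
    have hfd0 : FiniteDimensional K (IntermediateField.adjoin K {x}) :=
      IntermediateField.adjoin.finiteDimensional
        ((Algebra.IsAlgebraic.isAlgebraic (R := K) x).isIntegral)
    have hfd : FiniteDimensional K L := inferInstance
    have hnorm : Normal K L := inferInstance
    have hgal : IsGalois K L := { }
    have hle : IntermediateField.adjoin K {x} ≤ L :=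
      IntermediateField.le_normalClosure (IntermediateField.adjoin K {x})
    refine ⟨L, hle (IntermediateField.mem_adjoin_simple_self K x), hfd, hgal, ?_⟩
    have hopen : IsOpen (L.fixingSubgroup : Set (N ≃ₐ[K] N)) :=
      IntermediateField.fixingSubgroup_isOpen L
    have hnormal : L.fixingSubgroup.Normal := (InfiniteGalois.normal_iff_isGalois L).mpr hgal
    have h1 : InClass 𝒮 ((N ≃ₐ[K] N) ⧸ L.fixingSubgroup) :=
      (isProC_maxC hiso hsim).quotients _ hopen
    refine h1.congr ?_
    have h7 : Function.Surjective (AlgEquiv.restrictNormalHom (F := K) (K₁ := N) L) :=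
      AlgEquiv.restrictNormalHom_surjective _
    exact (QuotientGroup.quotientMulEquivOfEq
      (IntermediateField.restrictNormalHom_ker L).symm).trans
      (QuotientGroup.quotientKerEquivOfSurjective _ h7)
  maximal L _ _ hL := by
    have := hL.finite
    have := hL.galois
    let φ : L →ₐ[K] SeparableClosure K := IsSepClosed.lift
    let M : IntermediateField K (SeparableClosure K) := φ.fieldRange
    let e : L ≃ₐ[K] M := AlgEquiv.ofInjectiveField φ
    have h1 : FiniteDimensional K M := e.toLinearEquiv.finiteDimensional
    have h2 : IsGalois K M := IsGalois.of_algEquiv e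
    have h3 : InClass 𝒮 (M ≃ₐ[K] M) := hL.group.congr e.autCongr
    have h4 : M ≤ maxC 𝒮 K := le_iSup (fun L : {L : IntermediateField K (SeparableClosure K) //
      FiniteDimensional K L ∧ IsGalois K L ∧ InClass 𝒮 (L ≃ₐ[K] L)} => L.1) ⟨M, h1, h2, h3⟩
    exact ⟨(IntermediateField.inclusion h4).comp e.toAlgHom⟩

end MP7fE
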