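import Mathlib

/-!
Embedding problems with profinite groups: definitions.
-/

set_option autoImplicit false

universe u v

namespace MP7fE

/-- The automorphism `σ` of `L` restricts to the automorphism `τ` of `M` (along `i : M → L`). -/
def Restricts {K M L : Type u} [Field K] [Field M] [Algebra K M] [Field L] [Algebra K L]
    (i : M →ₐ[K] L) (σ : L ≃ₐ[K] L) (τ : M ≃ₐ[K] M) : Prop :=
  ∀ x : M, σ (i x) = i (τ x)

/-- Every `σ` in `Gal(L/K)` restricts to `α (γ σ)` on `M` (along `i : M → L`). -/
def Compatible {K M L : Type u} [Field K] [Field M] [Algebra K M] [Field L] [Algebra K L]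
    {E : Type} [Group E] (α : E →* (M ≃ₐ[K] M)) (i : M →ₐ[K] L) (γ : (L ≃ₐ[K] L) →* E) : Prop :=
  ∀ σ : L ≃ₐ[K] L, Restricts i σ (α (γ σ))

/-- The homomorphism `α` has a section. -/
def HasSection {E : Type} {H : Type v} [Group E] [Group H] (α : E →* H) : Prop :=
  ∃ s : H →* E, ∀ x, α (s x) = x

/-- The embedding problem given by the Galois extension `M` of `K` and the homomorphism
`α : E → Gal(M/K)` has a weak solution: there are a finite Galois extension `L` of `K`,
containing `M`, and a homomorphism `γ : Gal(L/K) → E` such that every `σ` in `Gal(L/K)` restricts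
to `α (γ σ)` on `M`. -/
def WeakSolution {K M : Type u} [Field K] [Field M] [Algebra K M] {E : Type} [Group E]
    (α : E →* (M ≃ₐ[K] M)) : Prop :=
  ∃ (L : Type u) (_ : Field L) (_ : Algebra K L) (_ : FiniteDimensional K L) (_ : IsGalois K L)
    (i : M →ₐ[K] L) (γ : (L ≃ₐ[K] L) →* E), Compatible α i γ

/-- The embedding problem given by the Galois extension `M` of `K` and the homomorphisms
`α : E → Gal(M/K)` and `f : P → E` has a proper solution: there are a Galois extension `L` of `K`,
containing `M`, and an isomorphism of topological groups `e : Gal(L/K) → P` such that every `σ`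
in `Gal(L/K)` restricts to `α (f (e σ))` on `M`. -/
def Embeds {K M : Type u} [Field K] [Field M] [Algebra K M] {P E : Type} [Group P]
    [TopologicalSpace P] [Group E] (α : E →* (M ≃ₐ[K] M)) (f : P →* E) : Prop :=
  ∃ (L : Type u) (_ : Field L) (_ : Algebra K L) (_ : IsGalois K L)
    (e : (L ≃ₐ[K] L) ≃ₜ* P) (i : M →ₐ[K] L),
    Compatible α i (f.comp e.toMulEquiv.toMonoidHom)

end MP7fE
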