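import Pool.Agent.Lib.MP_7f581e_ntE.Weak

/-!
Embedding problems with profinite groups for good classes.
-/

set_option autoImplicit false

universe u

namespace MP7fE

open MP7fR MP7fC

theorem Good.embeds {p : ℕ} [Fact p.Prime] {k : Type} [Field k] [CharP k p]
    {𝒮 𝒬 : GroupClass} (h𝒮 : Good.{u} k 𝒮) (h𝒬 : GoodSplit.{u} k 𝒬) {K : Type u} [Field K]
    [Algebra k K] (hK : IsHilbertian K) {P E : Type} [Group P] [TopologicalSpace P]
    [IsTopologicalGroup P] [CompactSpace P] [T2Space P] [TotallyDisconnectedSpace P]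
    [FirstCountableTopology P] [Group E] (f : P →* E) (hf : Function.Surjective f)
    (hU : IsOpen (f.ker : Set P))
    (hfac : ∀ (V : Subgroup P) [V.Normal], IsOpen (V : Set P) → V ≤ f.ker →
      HasFactors 𝒮 (f.ker.map (QuotientGroup.mk' V)))
    {M : Type u} [Field M] [Algebra K M] [FiniteDimensional K M] [IsGalois K M]
    (α : E →* (M ≃ₐ[K] M)) (hα : Layered 𝒮 𝒬 α.ker) (hw : HasSection α ∨ WeakSolution α) :
    Embeds α f := by
  let θ : P ⧸ f.ker ≃* E := QuotientGroup.quotientKerEquivOfSurjective f hf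
  have hfin : Finite (P ⧸ f.ker) := Subgroup.quotient_finite_of_isOpen f.ker hU
  have hE : Finite E := Finite.of_equiv _ θ.toEquiv
  have hw' : WeakSolution α := by
    rcases hw with ⟨s, hs⟩ | hw
    · exact weak_of_section α s hs
    · exact hw
  obtain ⟨L₀, _, _, _, _, i₀, γ, hγ'⟩ := proper_of_weak_layered (p := p) h𝒮 h𝒬 hK α hα hw'
  have hγ : ∀ (σ : L₀ ≃ₐ[K] L₀) (x : M), σ (i₀ x) = i₀ (α (γ σ) x) := hγ'
  obtain ⟨L, h1, h2, h3, e', i, h4⟩ := h𝒮.profinite hK f.ker hU hfac L₀ (γ.trans θ.symm)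
  refine ⟨L, h1, h2, h3, e', i.comp i₀, ?_⟩
  intro σ x
  change σ (i (i₀ x)) = i (i₀ (α (f (e' σ)) x))
  rw [h4, hγ]
  have h5 : γ ((γ.trans θ.symm).symm (QuotientGroup.mk (e' σ))) = f (e' σ) := by
    change γ (γ.symm (θ.symm.symm (QuotientGroup.mk (e' σ)))) = f (e' σ)
    rw [MulEquiv.apply_symm_apply]
    rfl
  rw [h5]

end MP7fE
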