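import Pool.Agent.Lib.MP_7f581e_ntE.Profinite
import Pool.Agent.Lib.MP_7f581e_ntC.Factors

/-!
Free pro-`C` groups of countable rank: a metrizable pro-`C` group all of whose finite embedding
problems in `C` are properly solvable is the free pro-`C` group on a sequence converging to `1`.
-/

set_option autoImplicit false

universe u v w

namespace MP7fE

open MP7fC

/-- The group is isomorphic to a group (in the lowest universe) which has a subnormal series all of
whose successive quotients belong to the class `𝒮`. -/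
def InClass (𝒮 : (S : Type) → [Group S] → Prop) (G : Type v) [Group G] : Prop :=
  ∃ (H : Type) (_ : Group H), HasFactors 𝒮 H ∧ Nonempty (G ≃* H)

/-- Pro-`C` groups, where `C` is the class of finite groups with a subnormal series all of whose
successive quotients belong to `𝒮`: profinite groups all of whose quotients by open normal
subgroups belong to `C`. -/
structure IsProC (𝒮 : (S : Type) → [Group S] → Prop) (P : Type v) [Group P]
    [TopologicalSpace P] : Prop where
  isTopologicalGroup : IsTopologicalGroup P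
  compactSpace : CompactSpace P
  t2Space : T2Space P
  totallyDisconnectedSpace : TotallyDisconnectedSpace P
  quotients : ∀ (U : Subgroup P) [U.Normal], IsOpen (U : Set P) → InClass 𝒮 (P ⧸ U)

/-- The sequence `x` converges to `1` and generates the topological group `P`. -/
def GenSeq {P : Type v} [Group P] [TopologicalSpace P] (x : ℕ → P) : Prop :=
  Filter.Tendsto x Filter.atTop (nhds 1) ∧
    closure (Subgroup.closure (Set.range x) : Set P) = Set.univ

/-- `Γ` is a free pro-`C` group of countably infinite rank: it is pro-`C` and there is a sequence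
`x` in `Γ` which converges to `1`, generates `Γ` topologically, and such that every sequence `h`
in a pro-`C` group `P`, which converges to `1` and generates `P` topologically, is the image of `x`
under a unique continuous homomorphism from `Γ` to `P`. -/
def IsFreeProC (𝒮 : (S : Type) → [Group S] → Prop) (Γ : Type u) [Group Γ]
    [TopologicalSpace Γ] : Prop :=
  IsProC 𝒮 Γ ∧ ∃ x : ℕ → Γ, GenSeq x ∧
    ∀ (P : Type w) [Group P] [TopologicalSpace P], IsProC 𝒮 P → ∀ h : ℕ → P, GenSeq h →
      ∃! φ : Γ →* P, Continuous φ ∧ ∀ n, φ (x n) = h n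

section Class

variable {𝒮 : (S : Type) → [Group S] → Prop}
  (hiso : ∀ (S T : Type) [Group S] [Group T], (S ≃* T) → 𝒮 S → 𝒮 T)
  (hsim : ∀ (S : Type) [Group S], 𝒮 S → IsSimpleGroup S)

include hiso hsim

/-- Subdirect products. -/
theorem hasFactors_subdirect {A H B : Type} [Group A] [Group H] [Group B]
    (hA : HasFactors 𝒮 A) (hH : HasFactors 𝒮 H) (a : B →* A) (b : B →* H)
    (ha : Function.Surjective a) (hb : Function.Surjective b)
    (hab : ∀ x, a x = 1 → b x = 1 → x = 1) : HasFactors 𝒮 B := by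
  refine hA.extension hiso hsim B a ha ?_
  refine hH.of_injective hiso hsim a.ker (b.comp a.ker.subtype) ?_ ?_
  · rw [injective_iff_map_eq_one]
    intro x hx
    exact Subtype.ext (hab x x.2 hx)
  · rw [MonoidHom.range_comp, Subgroup.range_subtype]
    exact Subgroup.Normal.map inferInstance b hb

theorem InClass.of_surjective {G : Type u} {G' : Type v} [Group G] [Group G']
    (h : InClass 𝒮 G) (f : G →* G') (hf : Function.Surjective f) : InClass 𝒮 G' := by
  obtain ⟨H, _, hH, ⟨e⟩⟩ := h
  let g : H →* G' := f.comp e.symm.toMonoidHom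
  have hg : Function.Surjective g := hf.comp e.symm.surjective
  exact ⟨H ⧸ g.ker, inferInstance, hH.of_surjective hiso hsim _ (QuotientGroup.mk' g.ker)
    (QuotientGroup.mk'_surjective _), ⟨(QuotientGroup.quotientKerEquivOfSurjective g hg).symm⟩⟩

theorem InClass.subdirect {A : Type u} {B : Type v} {C : Type w} [Group A] [Group B] [Group C]
    (hA : InClass 𝒮 A) (hB : InClass 𝒮 B) (a : C →* A) (b : C →* B)
    (ha : Function.Surjective a) (hb : Function.Surjective b)
    (hab : ∀ x, a x = 1 → b x = 1 → x = 1) : InClass 𝒮 C := by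
  obtain ⟨A', _, hA', ⟨e⟩⟩ := hA
  obtain ⟨B', _, hB', ⟨e'⟩⟩ := hB
  let f : C →* A' × B' := MonoidHom.prod (e.toMonoidHom.comp a) (e'.toMonoidHom.comp b)
  have hf : Function.Injective f := by
    rw [injective_iff_map_eq_one]
    intro x hx
    have h1 : (e (a x), e' (b x)) = 1 := hx
    rw [Prod.mk_eq_one, map_eq_one_iff e e.injective, map_eq_one_iff e' e'.injective] at h1
    exact hab x h1.1 h1.2
  refine ⟨f.range, inferInstance, ?_, ⟨MonoidHom.ofInjective hf⟩⟩
  refine hasFactors_subdirect hiso hsim hA' hB'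
    ((MonoidHom.fst A' B').comp f.range.subtype) ((MonoidHom.snd A' B').comp f.range.subtype)
    ?_ ?_ ?_
  · intro x
    obtain ⟨y, hy⟩ := (e.surjective.comp ha) x
    exact ⟨⟨f y, y, rfl⟩, hy⟩
  · intro x
    obtain ⟨y, hy⟩ := (e'.surjective.comp hb) x
    exact ⟨⟨f y, y, rfl⟩, hy⟩
  · intro x h1 h2
    exact Subtype.ext (Prod.ext h1 h2)

end Class

/-- A variant of the Rasiowa-Sikorski lemma. -/
theorem exists_generic {S ι : Type*} [Countable ι] [Nonempty ι] (R : S → S → Prop)
    (D : ι → S → Prop) (h : ∀ i s, ∃ t, R s t ∧ D i t) (s₀ : S) :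
    ∃ s : ℕ → S, (∀ n, R (s n) (s (n + 1))) ∧ ∀ i, ∃ n, D i (s n) := by
  obtain ⟨e, he⟩ := exists_surjective_nat ι
  choose T hR hD using h
  let s : ℕ → S := fun n => Nat.rec (motive := fun _ => S) s₀ (fun n x => T (e n) x) n
  have hs : ∀ n, s (n + 1) = T (e n) (s n) := fun n => rfl
  refine ⟨s, fun n => ?_, fun i => ?_⟩
  · rw [hs]
    exact hR _ _
  · obtain ⟨n, rfl⟩ := he i
    refine ⟨n + 1, ?_⟩
    rw [hs]
    exact hD _ _

section Construction

/-- An open normal subgroup of `Γ` together with a sequence whose image in the quotient is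
finitely supported and generating. -/
structure St (Γ : Type u) [Group Γ] [TopologicalSpace Γ] where
  V : Subgroup Γ
  y : ℕ → Γ
  normal : V.Normal
  isOpen : IsOpen (V : Set Γ)
  ev : ∀ᶠ m in Filter.atTop, y m ∈ V
  gen : Subgroup.closure (Set.range y) ⊔ V = ⊤

variable {𝒮 : (S : Type) → [Group S] → Prop} {Γ : Type u} [Group Γ] [TopologicalSpace Γ]

/-- Refinement of approximations. -/
def St.Ref (s t : St Γ) : Prop := t.V ≤ s.V ∧ ∀ m, (s.y m)⁻¹ * t.y m ∈ s.V

theorem St.Ref.refl (s : St Γ) : s.Ref s := ⟨le_rfl, fun m => by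
  rw [inv_mul_cancel]
  exact one_mem _⟩

theorem St.Ref.trans {s t r : St Γ} (h1 : s.Ref t) (h2 : t.Ref r) : s.Ref r := by
  refine ⟨h2.1.trans h1.1, fun m => ?_⟩
  have h3 := mul_mem (h1.2 m) (h1.1 (h2.2 m))
  rwa [mul_assoc, mul_inv_cancel_left] at h3

theorem St.Ref.of_le {s : ℕ → St Γ} (h : ∀ n, (s n).Ref (s (n + 1))) {m n : ℕ} (hmn : m ≤ n) :
    (s m).Ref (s n) := by
  induction n, hmn using Nat.le_induction with
  | base => exact St.Ref.refl _
  | succ n _ ih => exact ih.trans (h n)

/-- Refining the subgroup. -/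
theorem St.step_open [IsTopologicalGroup Γ] [CompactSpace Γ] (s : St Γ) (W : Subgroup Γ)
    [W.Normal] (hW : IsOpen (W : Set Γ)) : ∃ t : St Γ, s.Ref t ∧ t.V ≤ W := by
  have hn := s.normal
  have ho : IsOpen ((s.V ⊓ W : Subgroup Γ) : Set Γ) := s.isOpen.inter hW
  have hfin : Finite (Γ ⧸ (s.V ⊓ W)) := Subgroup.quotient_finite_of_isOpen _ ho
  obtain ⟨N, hN⟩ := Filter.eventually_atTop.mp s.ev
  obtain ⟨r, ⟨e⟩⟩ := Finite.exists_equiv_fin (Γ ⧸ (s.V ⊓ W))
  classical
  -- representatives
  let k : ℕ → Γ := fun i => if h : i < r then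
    (if (e.symm ⟨i, h⟩).out ∈ s.V then (e.symm ⟨i, h⟩).out else 1) else 1
  have hkV : ∀ i, k i ∈ s.V := by
    intro i
    change (if h : i < r then
      (if (e.symm ⟨i, h⟩).out ∈ s.V then (e.symm ⟨i, h⟩).out else 1) else 1) ∈ s.V
    split_ifs with h1 h2
    · exact h2
    · exact one_mem _
    · exact one_mem _
  have hk1 : ∀ i, r ≤ i → k i = 1 := by
    intro i hi
    exact dif_neg (not_lt.mpr hi)
  have hkg : ∀ v ∈ s.V, ∃ i, (k i)⁻¹ * v ∈ s.V ⊓ W := by
    intro v hv
    refine ⟨e (QuotientGroup.mk v), ?_⟩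
    have h1 : e.symm ⟨(e (QuotientGroup.mk v) : ℕ), (e (QuotientGroup.mk v)).2⟩ =
        QuotientGroup.mk v := e.symm_apply_apply _
    have h2 : ((QuotientGroup.mk v : Γ ⧸ (s.V ⊓ W)).out)⁻¹ * v ∈ s.V ⊓ W := by
      rw [← QuotientGroup.eq]
      exact Quotient.out_eq _
    have h3 : (QuotientGroup.mk v : Γ ⧸ (s.V ⊓ W)).out ∈ s.V := by
      have h4 := mul_mem hv (inv_mem h2.1)
      rwa [mul_inv_rev, inv_inv, mul_inv_cancel_left] at h4
    have h5 : k (e (QuotientGroup.mk v)) = (QuotientGroup.mk v : Γ ⧸ (s.V ⊓ W)).out := by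
      change (if h : _ < r then
        (if (e.symm ⟨_, h⟩).out ∈ s.V then (e.symm ⟨_, h⟩).out else 1) else 1) = _
      rw [dif_pos (e (QuotientGroup.mk v)).2, h1, if_pos h3]
    rw [h5]
    exact h2
  let y : ℕ → Γ := fun m => if m < N then s.y m else k (m - N)
  have hy1 : ∀ m, m < N → y m = s.y m := fun m hm => if_pos hm
  have hy2 : ∀ m, N ≤ m → y m = k (m - N) := fun m hm => if_neg (not_lt.mpr hm)
  refine ⟨⟨s.V ⊓ W, y, inferInstance, ho, ?_, ?_⟩, ⟨inf_le_left, ?_⟩, inf_le_right⟩
  · rw [Filter.eventually_atTop]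
    refine ⟨N + r, fun m hm => ?_⟩
    rw [hy2 m (by omega), hk1 _ (by omega)]
    exact one_mem _
  · have h1 : s.V ≤ Subgroup.closure (Set.range y) ⊔ (s.V ⊓ W) := by
      intro v hv
      obtain ⟨i, hi⟩ := hkg v hv
      have h2 : k i ∈ Subgroup.closure (Set.range y) := by
        apply Subgroup.subset_closure
        refine ⟨N + i, ?_⟩
        rw [hy2 _ (by omega), Nat.add_sub_cancel_left]
      have h3 := mul_mem (Subgroup.mem_sup_left (T := s.V ⊓ W) h2)
        (Subgroup.mem_sup_right (S := Subgroup.closure (Set.range y)) hi)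
      rwa [mul_inv_cancel_left] at h3
    rw [eq_top_iff, ← s.gen]
    refine sup_le ?_ h1
    rw [Subgroup.closure_le]
    rintro _ ⟨m, rfl⟩
    by_cases hm : m < N
    · rw [← hy1 m hm]
      exact Subgroup.mem_sup_left (Subgroup.subset_closure ⟨m, rfl⟩)
    · exact h1 (hN m (not_lt.mp hm))
  · intro m
    change (s.y m)⁻¹ * y m ∈ s.V
    by_cases hm : m < N
    · rw [hy1 m hm, inv_mul_cancel]
      exact one_mem _
    · rw [hy2 m (not_lt.mp hm)]
      exact mul_mem (inv_mem (hN m (not_lt.mp hm))) (hkV _)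

/-- The finite embedding problems for `Γ` with groups having factors in `𝒮` are properly
solvable. -/
def Emb (𝒮 : (S : Type) → [Group S] → Prop) (Γ : Type u) [Group Γ] [TopologicalSpace Γ] : Prop :=
  ∀ (A B : Type) [Group A] [Group B] [Finite B] (f : B →* A) (α : Γ →* A),
    Function.Surjective f → Function.Surjective α → IsOpen (α.ker : Set Γ) → HasFactors 𝒮 B →
    ∃ φ : Γ →* B, Function.Surjective φ ∧ IsOpen (φ.ker : Set Γ) ∧ f.comp φ = α

/-- Extending the sequence of images. -/
theorem St.step_hom (hiso : ∀ (S T : Type) [Group S] [Group T], (S ≃* T) → 𝒮 S → 𝒮 T)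
    (hsim : ∀ (S : Type) [Group S], 𝒮 S → IsSimpleGroup S)
    [IsTopologicalGroup Γ] [CompactSpace Γ]
    (hq : ∀ (U : Subgroup Γ) [U.Normal], IsOpen (U : Set Γ) → InClass 𝒮 (Γ ⧸ U))
    (hemb : Emb 𝒮 Γ) (s : St Γ) (H : Type) [Group H] [Finite H] (hH : HasFactors 𝒮 H)
    (h : ℕ → H) (hev : ∀ᶠ m in Filter.atTop, h m = 1)
    (hgen : Subgroup.closure (Set.range h) = ⊤) :
    ∃ t : St Γ, s.Ref t ∧ ∃ φ : Γ →* H, t.V ≤ φ.ker ∧ ∀ m, φ (t.y m) = h m := by
  have hn := s.normal
  obtain ⟨A, _, hA, ⟨e⟩⟩ := hq s.V s.isOpen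
  have hfin : Finite (Γ ⧸ s.V) := Subgroup.quotient_finite_of_isOpen _ s.isOpen
  have hfA : Finite A := Finite.of_equiv _ e.toEquiv
  let α : Γ →* A := e.toMonoidHom.comp (QuotientGroup.mk' s.V)
  have hα : Function.Surjective α := e.surjective.comp (QuotientGroup.mk'_surjective s.V)
  have hαk : ∀ x, α x = 1 ↔ x ∈ s.V := by
    intro x
    change e (QuotientGroup.mk x) = 1 ↔ _
    rw [map_eq_one_iff e e.injective, QuotientGroup.eq_one_iff]
  have hαk' : α.ker = s.V := by
    ext x
    rw [MonoidHom.mem_ker, hαk]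
  let z : ℕ → A × H := fun m => (α (s.y m), h m)
  let B : Subgroup (A × H) := Subgroup.closure (Set.range z)
  let a : B →* A := (MonoidHom.fst A H).comp B.subtype
  let b : B →* H := (MonoidHom.snd A H).comp B.subtype
  have ha : Function.Surjective a := by
    rw [← MonoidHom.range_eq_top, MonoidHom.range_comp, Subgroup.range_subtype,
      MonoidHom.map_closure, ← Set.range_comp]
    have h1 : Subgroup.map α (Subgroup.closure (Set.range s.y) ⊔ s.V) = ⊤ := by
      rw [s.gen]
      exact Subgroup.map_top_of_surjective α hα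
    rw [Subgroup.map_sup, MonoidHom.map_closure, ← Set.range_comp] at h1
    have h2 : Subgroup.map α s.V = ⊥ := by
      rw [eq_bot_iff]
      rintro _ ⟨x, hx, rfl⟩
      rw [Subgroup.mem_bot]
      exact (hαk x).mpr hx
    rw [h2, sup_bot_eq] at h1
    exact h1
  have hb : Function.Surjective b := by
    rw [← MonoidHom.range_eq_top, MonoidHom.range_comp, Subgroup.range_subtype,
      MonoidHom.map_closure, ← Set.range_comp]
    exact hgen
  have hB : HasFactors 𝒮 B := hasFactors_subdirect hiso hsim hA hH a b ha hb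
    (fun x h1 h2 => Subtype.ext (Prod.ext h1 h2))
  obtain ⟨φ, hφ, hφo, hφα⟩ := hemb A B a α ha hα (by rw [hαk']; exact s.isOpen) hB
  have hφα' : ∀ x, a (φ x) = α x := fun x => DFunLike.congr_fun hφα x
  choose y hy using fun m => hφ ⟨z m, Subgroup.subset_closure ⟨m, rfl⟩⟩
  refine ⟨⟨φ.ker, y, inferInstance, hφo, ?_, ?_⟩, ⟨?_, ?_⟩, b.comp φ, ?_, ?_⟩
  · filter_upwards [s.ev, hev] with m h1 h2
    rw [MonoidHom.mem_ker, hy]
    exact Subtype.ext (Prod.ext ((hαk _).mpr h1) h2)
  · rw [← Subgroup.comap_map_eq]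
    have h1 : Subgroup.map φ (Subgroup.closure (Set.range y)) = ⊤ := by
      rw [MonoidHom.map_closure, ← Set.range_comp]
      apply Subgroup.map_injective B.subtype_injective
      rw [MonoidHom.map_closure, ← Set.range_comp, ← MonoidHom.range_eq_map,
        Subgroup.range_subtype]
      have h2 : (B.subtype : B → A × H) ∘ (φ : Γ → B) ∘ y = z := by
        funext m
        change ((φ (y m) : B) : A × H) = z m
        rw [hy]
      rw [h2]
    rw [h1]
    exact Subgroup.comap_top φ
  · intro x hx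
    have h1 : φ x = 1 := hx
    change x ∈ s.V
    rw [← hαk, ← hφα', h1, map_one]
  · intro m
    change (s.y m)⁻¹ * y m ∈ s.V
    rw [← hαk, map_mul, map_inv, inv_mul_eq_one, ← hφα' (y m), hy]
    rfl
  · intro x hx
    have h1 : φ x = 1 := hx
    change b (φ x) = 1
    rw [h1, map_one]
  · intro m
    change b (φ (y m)) = h m
    rw [hy]
    rfl

/-- The condition that the list `l` of elements of `H` is the image of the sequence. -/
def St.Hits (𝒮 : (S : Type) → [Group S] → Prop) (t : St Γ) (H : Type) [Group H]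
    (l : List H) : Prop :=
  HasFactors 𝒮 H → Subgroup.closure (Set.range fun n => l.getD n 1) = ⊤ →
    ∃ φ : Γ →* H, t.V ≤ φ.ker ∧ ∀ n, φ (t.y n) = l.getD n 1

theorem St.step_hits (hiso : ∀ (S T : Type) [Group S] [Group T], (S ≃* T) → 𝒮 S → 𝒮 T)
    (hsim : ∀ (S : Type) [Group S], 𝒮 S → IsSimpleGroup S)
    [IsTopologicalGroup Γ] [CompactSpace Γ]
    (hq : ∀ (U : Subgroup Γ) [U.Normal], IsOpen (U : Set Γ) → InClass 𝒮 (Γ ⧸ U))
    (hemb : Emb 𝒮 Γ) (s : St Γ) (H : Type) [Group H] [Finite H] (l : List H) :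
    ∃ t : St Γ, s.Ref t ∧ t.Hits 𝒮 H l := by
  by_cases h1 : HasFactors 𝒮 H
  · by_cases h2 : Subgroup.closure (Set.range fun n => l.getD n 1) = ⊤
    · obtain ⟨t, h3, h4⟩ := s.step_hom hiso hsim hq hemb H h1 (fun n => l.getD n 1) (by
        rw [Filter.eventually_atTop]
        exact ⟨l.length, fun n hn => List.getD_eq_default _ _ hn⟩) h2
      exact ⟨t, h3, fun _ _ => h4⟩
    · exact ⟨s, St.Ref.refl s, fun _ h => absurd h h2⟩
  · exact ⟨s, St.Ref.refl s, fun h => absurd h h1⟩

/-- The type `Fin m` without its algebraic structures. -/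
def Pts (m : ℕ) : Type := Fin m

instance (m : ℕ) : Finite (Pts m) := inferInstanceAs (Finite (Fin m))

instance countable_group_pts (m : ℕ) : Countable (Group (Pts m)) := by
  have h1 : Function.Injective (fun g : Group (Pts m) => (g.mul : Pts m → Pts m → Pts m)) := by
    intro g g' h
    exact Group.ext h
  exact h1.countable

/-- The construction of the free generators. -/
theorem exists_free_seq (hiso : ∀ (S T : Type) [Group S] [Group T], (S ≃* T) → 𝒮 S → 𝒮 T)
    (hsim : ∀ (S : Type) [Group S], 𝒮 S → IsSimpleGroup S)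
    [IsTopologicalGroup Γ] [CompactSpace Γ] [TotallyDisconnectedSpace Γ]
    [FirstCountableTopology Γ]
    (hq : ∀ (U : Subgroup Γ) [U.Normal], IsOpen (U : Set Γ) → InClass 𝒮 (Γ ⧸ U))
    (hemb : Emb 𝒮 Γ) :
    ∃ x : ℕ → Γ, GenSeq x ∧ ∀ (H : Type) [Group H] [Finite H], HasFactors 𝒮 H → ∀ h : ℕ → H,
      (∀ᶠ m in Filter.atTop, h m = 1) → Subgroup.closure (Set.range h) = ⊤ →
      ∃ φ : Γ →* H, IsOpen (φ.ker : Set Γ) ∧ ∀ n, φ (x n) = h n := by
  obtain ⟨V, -, hVn, hVo, -, hVb⟩ := exists_chain (⊤ : Subgroup Γ) isOpen_univ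
  have hVn' : ∀ n, (V n).Normal := hVn
  -- the requirements
  let ι : Type := ℕ ⊕ (Σ m : ℕ, Group (Pts m) × List (Pts m))
  let D : ι → St Γ → Prop := fun i t =>
    Sum.elim (fun k => t.V ≤ V k) (fun r => @St.Hits Γ _ _ 𝒮 t (Pts r.1) r.2.1 r.2.2) i
  have hD : ∀ (i : ι) (s : St Γ), ∃ t, s.Ref t ∧ D i t := by
    rintro (k | ⟨m, g, l⟩) s
    · exact s.step_open (V k) (hVo k)
    · exact @St.step_hits 𝒮 Γ _ _ hiso hsim _ _ hq hemb s (Pts m) g _ l
  let s₀ : St Γ := ⟨⊤, fun _ => 1, inferInstance, isOpen_univ,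
    Filter.Eventually.of_forall fun _ => Subgroup.mem_top _, sup_top_eq _⟩
  obtain ⟨s, hs, hsD⟩ := exists_generic St.Ref D hD s₀
  have hmono : ∀ m n, m ≤ n → (s m).Ref (s n) := fun m n h => St.Ref.of_le hs h
  have hsV : ∀ k, ∃ n, (s n).V ≤ V k := fun k => hsD (Sum.inl k)
  have hsH : ∀ (m : ℕ) (g : Group (Pts m)) (l : List (Pts m)), ∃ n,
      @St.Hits Γ _ _ 𝒮 (s n) (Pts m) g l := fun m g l => hsD (Sum.inr ⟨m, g, l⟩)
  -- the limit
  have hex : ∀ m, ∃ x : Γ, ∀ n, ((s n).y m)⁻¹ * x ∈ (s n).V := by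
    intro m
    have hcl : ∀ n, IsClosed {x : Γ | ((s n).y m)⁻¹ * x ∈ (s n).V} := fun n =>
      (Subgroup.isClosed_of_isOpen _ (s n).isOpen).preimage (continuous_const_mul _)
    obtain ⟨x, hx⟩ := IsCompact.nonempty_iInter_of_sequence_nonempty_isCompact_isClosed
      (fun n => {x : Γ | ((s n).y m)⁻¹ * x ∈ (s n).V})
      (by
        intro n x hx
        have h1 := mul_mem ((hs n).2 m) ((hs n).1 hx)
        rwa [mul_assoc, mul_inv_cancel_left] at h1)
      (fun n => ⟨(s n).y m, by
        change ((s n).y m)⁻¹ * (s n).y m ∈ (s n).V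
        rw [inv_mul_cancel]
        exact one_mem _⟩)
      (hcl 0).isCompact hcl
    exact ⟨x, fun n => Set.mem_iInter.mp hx n⟩
  choose x hx using hex
  refine ⟨x, ⟨?_, ?_⟩, ?_⟩
  · intro W hW
    obtain ⟨W', hW', hWo, hW1⟩ := mem_nhds_iff.mp hW
    obtain ⟨k, hk⟩ := hVb W' hWo hW1
    obtain ⟨n, hn⟩ := hsV k
    rw [Filter.mem_map]
    filter_upwards [(s n).ev] with m hm
    apply hW'
    apply hk
    apply hn
    have h1 := mul_mem hm (hx m n)
    rwa [mul_inv_cancel_left] at h1
  · rw [← Set.univ_subset_iff]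
    intro g _
    rw [mem_closure_iff]
    intro W hWo hgW
    obtain ⟨k, hk⟩ := hVb ((fun z => g * z) ⁻¹' W) (hWo.preimage (continuous_const_mul g))
      (by
        rw [Set.mem_preimage, mul_one]
        exact hgW)
    obtain ⟨n, hn⟩ := hsV k
    have hnn := (s n).normal
    have h1 : Subgroup.closure (Set.range x) ⊔ (s n).V = ⊤ := by
      rw [eq_top_iff, ← (s n).gen]
      refine sup_le ?_ le_sup_right
      rw [Subgroup.closure_le]
      rintro _ ⟨m, rfl⟩
      have h2 := mul_mem (Subgroup.mem_sup_left (T := (s n).V)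
        (Subgroup.subset_closure (k := Set.range x) ⟨m, rfl⟩))
        (Subgroup.mem_sup_right (S := Subgroup.closure (Set.range x)) (inv_mem (hx m n)))
      rwa [mul_inv_rev, inv_inv, mul_inv_cancel_left] at h2
    have h2 : g ∈ Subgroup.closure (Set.range x) ⊔ (s n).V := by
      rw [h1]
      exact Subgroup.mem_top g
    obtain ⟨a, ha, v, hv, rfl⟩ := Subgroup.mem_sup_of_normal_right.mp h2
    refine ⟨a, ?_, ha⟩
    have h3 := hk (hn (inv_mem hv))
    rwa [Set.mem_preimage, mul_inv_cancel_right] at h3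
  · intro H _ _ hH h hev hgen
    obtain ⟨m, ⟨e₀⟩⟩ := Finite.exists_equiv_fin H
    let e : H ≃ Pts m := e₀
    obtain ⟨g, e', -⟩ : ∃ (g : Group (Pts m)) (_ : H ≃* Pts m), True :=
      ⟨e.symm.group, @MulEquiv.mk _ _ _ e.symm.group.toMul e (fun a b => by
          change e (a * b) = e (e.symm (e a) * e.symm (e b))
          rw [e.symm_apply_apply, e.symm_apply_apply]), trivial⟩
    obtain ⟨N, hN⟩ := Filter.eventually_atTop.mp hev
    obtain ⟨n, hn⟩ := hsH m g ((List.range N).map fun n => e' (h n))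
    have hl : ∀ n, ((List.range N).map fun n => e' (h n)).getD n g.one = e' (h n) := by
      intro n
      by_cases hnN : n < N
      · rw [List.getD_eq_getElem _ _ (by rwa [List.length_map, List.length_range]),
          List.getElem_map, List.getElem_range]
      · rw [List.getD_eq_default _ _ (by
          rw [List.length_map, List.length_range]
          exact not_lt.mp hnN), hN n (not_lt.mp hnN), map_one]
        rfl
    have hl' : (fun n => ((List.range N).map fun n => e' (h n)).getD n g.one) =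
        fun n => e' (h n) := funext hl
    have h1 : Subgroup.closure (Set.range fun n =>
        ((List.range N).map fun n => e' (h n)).getD n g.one) = ⊤ := by
      rw [hl']
      have h2 : (Set.range fun n => e' (h n)) = e'.toMonoidHom '' Set.range h := by
        rw [← Set.range_comp]
        rfl
      rw [h2, ← MonoidHom.map_closure, hgen]
      exact Subgroup.map_top_of_surjective _ e'.surjective
    obtain ⟨φ, hφ, hφy⟩ := hn (hH.congr hiso hsim e') h1
    refine ⟨e'.symm.toMonoidHom.comp φ, ?_, ?_⟩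
    · refine Subgroup.isOpen_mono (H₁ := (s n).V) ?_ (s n).isOpen
      intro z hz
      have h2 : φ z = 1 := hφ hz
      change e'.symm (φ z) = 1
      rw [h2, map_one]
    · intro k
      change e'.symm (φ (x k)) = h k
      have h3 : φ (x k) = φ ((s n).y k) := by
        have h4 : φ (((s n).y k)⁻¹ * x k) = 1 := hφ (hx k n)
        rw [map_mul, map_inv, inv_mul_eq_one] at h4
        exact h4.symm
      rw [h3, MulEquiv.symm_apply_eq]
      exact (hφy k).trans (hl k)

end Construction


section Universal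

variable {𝒮 : (S : Type) → [Group S] → Prop} {Γ : Type u} [Group Γ] [TopologicalSpace Γ]

theorem GenSeq.exists_mem {P : Type v} [Group P] [TopologicalSpace P] [IsTopologicalGroup P]
    {h : ℕ → P} (hh : GenSeq h) (U : Subgroup P) (hU : IsOpen (U : Set P)) (p : P) :
    ∃ a ∈ Subgroup.closure (Set.range h), a⁻¹ * p ∈ U := by
  have h1 : p ∈ closure (Subgroup.closure (Set.range h) : Set P) := by
    rw [hh.2]
    exact Set.mem_univ p
  obtain ⟨a, ha, ha'⟩ := mem_closure_iff.mp h1 ((fun z => z⁻¹ * p) ⁻¹' (U : Set P))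
    (hU.preimage (continuous_inv.mul continuous_const)) (by
      change p⁻¹ * p ∈ U
      rw [inv_mul_cancel]
      exact one_mem _)
  exact ⟨a, ha', ha⟩

theorem GenSeq.ext {P : Type v} [Group P] [TopologicalSpace P] [T2Space P] {x : ℕ → Γ}
    (hx : GenSeq x) {φ ψ : Γ →* P} (hφ : Continuous φ) (hψ : Continuous ψ)
    (h : ∀ n, φ (x n) = ψ (x n)) : φ = ψ := by
  have h1 : Set.EqOn φ ψ (Subgroup.closure (Set.range x) : Set Γ) := by
    have h2 : Subgroup.closure (Set.range x) ≤ MonoidHom.eqLocus φ ψ := by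
      rw [Subgroup.closure_le]
      rintro _ ⟨n, rfl⟩
      exact h n
    exact fun y hy => h2 hy
  have h2 : (φ : Γ → P) = ψ := Continuous.ext_on (dense_iff_closure_eq.mpr hx.2) hφ hψ h1
  exact DFunLike.coe_injective h2

/-- The universal property for finite groups implies the one for pro-`C` groups. -/
theorem exists_unique_hom [IsTopologicalGroup Γ] [CompactSpace Γ] [T2Space Γ] {x : ℕ → Γ}
    (hx : GenSeq x)
    (hfin : ∀ (H : Type) [Group H] [Finite H], HasFactors 𝒮 H → ∀ h : ℕ → H,
      (∀ᶠ m in Filter.atTop, h m = 1) → Subgroup.closure (Set.range h) = ⊤ →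
      ∃ φ : Γ →* H, IsOpen (φ.ker : Set Γ) ∧ ∀ n, φ (x n) = h n)
    {P : Type w} [Group P] [TopologicalSpace P] (hP : IsProC 𝒮 P) {h : ℕ → P} (hh : GenSeq h) :
    ∃! φ : Γ →* P, Continuous φ ∧ ∀ n, φ (x n) = h n := by
  have := hP.isTopologicalGroup
  have := hP.compactSpace
  have := hP.t2Space
  have := hP.totallyDisconnectedSpace
  let S₀ : Subgroup (Γ × P) := Subgroup.closure (Set.range fun n => (x n, h n))
  let S : Subgroup (Γ × P) := S₀.topologicalClosure
  have hS0 : S₀ ≤ S := S₀.le_topologicalClosure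
  have hScl : IsClosed (S : Set (Γ × P)) := S₀.isClosed_topologicalClosure
  have hSc : CompactSpace S := isCompact_iff_compactSpace.mp hScl.isCompact
  -- the fibre over `1` is trivial
  have hker : ∀ p : P, ((1 : Γ), p) ∈ S → p = 1 := by
    intro p hp
    have h1 : ∀ (U : Subgroup P) [U.Normal], IsOpen (U : Set P) → p ∈ U := by
      intro U _ hU
      obtain ⟨H, _, hH, ⟨e⟩⟩ := hP.quotients U hU
      have hfU : Finite (P ⧸ U) := Subgroup.quotient_finite_of_isOpen _ hU
      have hfH : Finite H := Finite.of_equiv _ e.toEquiv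
      let θ : P →* H := e.toMonoidHom.comp (QuotientGroup.mk' U)
      have hθ : ∀ z, θ z = 1 ↔ z ∈ U := by
        intro z
        change e (QuotientGroup.mk z) = 1 ↔ _
        rw [map_eq_one_iff e e.injective, QuotientGroup.eq_one_iff]
      have hθs : Function.Surjective θ := e.surjective.comp (QuotientGroup.mk'_surjective U)
      obtain ⟨φ, hφ, hφx⟩ := hfin H hH (fun n => θ (h n)) (by
        filter_upwards [hh.1 (hU.mem_nhds (one_mem U))] with m hm
        exact (hθ _).mpr hm) (by
        rw [eq_top_iff]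
        intro q _
        obtain ⟨z, rfl⟩ := hθs q
        obtain ⟨a, ha, hz⟩ := hh.exists_mem U hU z
        have h2 : θ z = θ a := by
          have h3 := (hθ _).mpr hz
          rw [map_mul, map_inv, inv_mul_eq_one] at h3
          exact h3.symm
        have h3 : (Set.range fun n => θ (h n)) = θ '' Set.range h := by
          rw [← Set.range_comp]
          rfl
        rw [h2, h3, ← MonoidHom.map_closure]
        exact ⟨a, ha, rfl⟩)
      let T : Subgroup (Γ × P) :=
        MonoidHom.eqLocus (φ.comp (MonoidHom.fst Γ P)) (θ.comp (MonoidHom.snd Γ P))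
      have hTo : IsOpen (T : Set (Γ × P)) := by
        refine Subgroup.isOpen_mono (H₁ := φ.ker.prod U) ?_ ?_
        · rintro ⟨σ, z⟩ ⟨h4, h5⟩
          have h6 : φ σ = 1 := h4
          change φ σ = θ z
          rw [h6, (hθ z).mpr h5]
        · have h4 : ((φ.ker.prod U : Subgroup (Γ × P)) : Set (Γ × P)) =
              (φ.ker : Set Γ) ×ˢ (U : Set P) := rfl
          rw [h4]
          exact hφ.prod hU
      have hST : S ≤ T := by
        refine S₀.topologicalClosure_minimal ?_ (Subgroup.isClosed_of_isOpen _ hTo)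
        rw [Subgroup.closure_le]
        rintro _ ⟨n, rfl⟩
        exact hφx n
      have h4 : φ 1 = θ p := hST hp
      rw [map_one] at h4
      exact (hθ p).mp h4.symm
    by_contra hne
    obtain ⟨N, hN⟩ := ProfiniteGrp.exist_openNormalSubgroup_sub_open_nhds_of_one
      (isOpen_compl_singleton (x := p)) (by
        intro h'
        exact hne (Set.mem_singleton_iff.mp h').symm)
    exact hN (h1 N.toSubgroup N.isOpen') rfl
  let π : S →* Γ := (MonoidHom.fst Γ P).comp S.subtype
  have hπc : Continuous π := continuous_fst.comp continuous_subtype_val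
  have hπi : Function.Injective π := by
    rw [injective_iff_map_eq_one]
    rintro ⟨⟨σ, p⟩, hσ⟩ h1
    have h2 : σ = 1 := h1
    subst h2
    have h3 := hker p hσ
    subst h3
    rfl
  have hxS : ∀ n, (x n, h n) ∈ S := fun n => hS0 (Subgroup.subset_closure ⟨n, rfl⟩)
  have hπs : Function.Surjective π := by
    have h1 : IsClosed (Set.range π) := (isCompact_range hπc).isClosed
    have h2 : (Subgroup.closure (Set.range x) : Set Γ) ⊆ Set.range π := by
      have h3 : Subgroup.closure (Set.range x) ≤ π.range := by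
        rw [Subgroup.closure_le]
        rintro _ ⟨n, rfl⟩
        exact ⟨⟨(x n, h n), hxS n⟩, rfl⟩
      exact h3
    rw [← Set.range_eq_univ, ← Set.univ_subset_iff, ← hx.2]
    exact closure_minimal h2 h1
  let e : S ≃* Γ := MulEquiv.ofBijective π ⟨hπi, hπs⟩
  have hec : Continuous e := hπc
  have hes : Continuous e.symm := (hec.homeoOfEquivCompactToT2 (f := e.toEquiv)).symm.continuous
  let φ : Γ →* P := (MonoidHom.snd Γ P).comp (S.subtype.comp e.symm.toMonoidHom)
  have hφc : Continuous φ := continuous_snd.comp (continuous_subtype_val.comp hes)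
  have hφx : ∀ n, φ (x n) = h n := by
    intro n
    have h1 : e.symm (x n) = ⟨(x n, h n), hxS n⟩ := by
      rw [MulEquiv.symm_apply_eq]
      rfl
    change ((e.symm (x n) : S) : Γ × P).2 = h n
    rw [h1]
  refine ⟨φ, ⟨hφc, hφx⟩, ?_⟩
  rintro ψ ⟨hψc, hψx⟩
  exact hx.ext hψc hφc fun n => by rw [hψx, hφx]

/-- Iwasawa's criterion: a metrizable pro-`C` group all of whose embedding problems in `C` are
properly solvable is free pro-`C` of countably infinite rank. -/
theorem isFreeProC_of_emb (hiso : ∀ (S T : Type) [Group S] [Group T], (S ≃* T) → 𝒮 S → 𝒮 T)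
    (hsim : ∀ (S : Type) [Group S], 𝒮 S → IsSimpleGroup S)
    [FirstCountableTopology Γ] (hΓ : IsProC 𝒮 Γ) (hemb : Emb 𝒮 Γ) :
    IsFreeProC.{u, w} 𝒮 Γ := by
  have := hΓ.isTopologicalGroup
  have := hΓ.compactSpace
  have := hΓ.t2Space
  have := hΓ.totallyDisconnectedSpace
  obtain ⟨x, hx, h1⟩ := exists_free_seq hiso hsim hΓ.quotients hemb
  exact ⟨hΓ, x, hx, fun P _ _ hP h hh => exists_unique_hom hx h1 hP hh⟩

/-- The free pro-`C` group of countably infinite rank is unique up to isomorphism. -/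
theorem IsFreeProC.unique {Γ' : Type v} [Group Γ'] [TopologicalSpace Γ']
    (h : IsFreeProC.{u, v} 𝒮 Γ) (h' : IsFreeProC.{v, u} 𝒮 Γ') : Nonempty (Γ ≃ₜ* Γ') := by
  obtain ⟨hΓ, x, hx, hux⟩ := h
  obtain ⟨hΓ', x', hx', hux'⟩ := h'
  have := hΓ.t2Space
  have := hΓ'.t2Space
  obtain ⟨φ, ⟨hφ, hφx⟩, -⟩ := hux Γ' hΓ' x' hx'
  obtain ⟨ψ, ⟨hψ, hψx⟩, -⟩ := hux' Γ hΓ x hx
  have h1 : ψ.comp φ = MonoidHom.id Γ := hx.ext (hψ.comp hφ) continuous_id fun n => by
    change ψ (φ (x n)) = x n
    rw [hφx, hψx]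
  have h2 : φ.comp ψ = MonoidHom.id Γ' := hx'.ext (hφ.comp hψ) continuous_id fun n => by
    change φ (ψ (x' n)) = x' n
    rw [hψx, hφx]
  exact ⟨{ MonoidHom.toMulEquiv φ ψ h1 h2 with
    continuous_toFun := hφ
    continuous_invFun := hψ }⟩

end Universal


section Field

variable {𝒮 : (S : Type) → [Group S] → Prop}

/-- The maximal pro-`C` extension of the field `K`: the compositum of all finite Galois extensions
of `K`, inside a separable closure, with Galois group in `C`. -/
noncomputable def maxC (𝒮 : (S : Type) → [Group S] → Prop) (K : Type u) [Field K] :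
    IntermediateField K (SeparableClosure K) :=
  ⨆ L : {L : IntermediateField K (SeparableClosure K) //
    FiniteDimensional K L ∧ IsGalois K L ∧ InClass 𝒮 (L ≃ₐ[K] L)}, L.1

instance isGalois_maxC (𝒮 : (S : Type) → [Group S] → Prop) (K : Type u) [Field K] :
    IsGalois K (maxC 𝒮 K) := by
  have h1 : Normal K (maxC 𝒮 K) := by
    refine IntermediateField.normal_iSup K (SeparableClosure K) _ (h := ?_)
    rintro ⟨L, hL⟩
    have := hL.2.1
    infer_instance
  exact { }

/-- Countable algebraic extensions have metrizable Galois groups. -/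
theorem firstCountable_gal {K L : Type*} [Field K] [Field L] [Algebra K L]
    [Algebra.IsAlgebraic K L] [Countable L] : FirstCountableTopology (L ≃ₐ[K] L) := by
  classical
  have h1 : (nhds (1 : L ≃ₐ[K] L)).HasBasis (fun _ : Finset L => True)
      (fun s => {σ : L ≃ₐ[K] L | ∀ x ∈ s, σ x = x}) := by
    constructor
    intro t
    rw [krullTopology_mem_nhds_one_iff]
    constructor
    · rintro ⟨E, hE, hEt⟩
      let b := Module.finBasis K E
      refine ⟨Finset.univ.image fun i => ((b i : E) : L), trivial, ?_⟩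
      refine Set.Subset.trans ?_ hEt
      intro σ hσ
      change σ ∈ E.fixingSubgroup
      rw [IntermediateField.mem_fixingSubgroup_iff]
      intro x hx
      have h2 : (⟨x, hx⟩ : E) = ∑ i, b.repr ⟨x, hx⟩ i • b i := (b.sum_repr _).symm
      have h3 : x = ∑ i, b.repr ⟨x, hx⟩ i • ((b i : E) : L) := by
        have h4 := congrArg E.val h2
        rw [map_sum] at h4
        refine h4.trans (Finset.sum_congr rfl fun i _ => ?_)
        exact map_smul E.val _ _
      rw [h3, map_sum]
      refine Finset.sum_congr rfl fun i _ => ?_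
      rw [map_smul, hσ _ (Finset.mem_image_of_mem _ (Finset.mem_univ i))]
    · rintro ⟨s, -, hs⟩
      refine ⟨IntermediateField.adjoin K (s : Set L), ?_, ?_⟩
      · exact IntermediateField.finiteDimensional_adjoin fun x _ =>
          (Algebra.IsAlgebraic.isAlgebraic (R := K) x).isIntegral
      · refine Set.Subset.trans ?_ hs
        intro σ hσ x hx
        exact (IntermediateField.mem_fixingSubgroup_iff _ _).mp hσ x
          (IntermediateField.subset_adjoin K _ hx)
  have h2 : (nhds (1 : L ≃ₐ[K] L)).IsCountablyGenerated :=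
    Filter.HasCountableBasis.isCountablyGenerated ⟨h1, Set.to_countable _⟩
  constructor
  intro a
  rw [← map_mul_left_nhds_one a]
  infer_instance

variable {K : Type u} [Field K]

/-- Open normal subgroups of the absolute Galois group with quotient in the class contain the
group of the maximal pro-`C` extension. -/
theorem fixingSubgroup_maxC_le (N : Subgroup (SeparableClosure K ≃ₐ[K] SeparableClosure K))
    [N.Normal] (hN : IsOpen (N : Set (SeparableClosure K ≃ₐ[K] SeparableClosure K)))
    (hC : InClass 𝒮 ((SeparableClosure K ≃ₐ[K] SeparableClosure K) ⧸ N)) :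
    (maxC 𝒮 K).fixingSubgroup ≤ N := by
  let H : ClosedSubgroup (SeparableClosure K ≃ₐ[K] SeparableClosure K) :=
    ⟨N, Subgroup.isClosed_of_isOpen _ hN⟩
  have hH : H.toSubgroup.Normal := inferInstanceAs N.Normal
  let M : IntermediateField K (SeparableClosure K) := IntermediateField.fixedField N
  have hM : M.fixingSubgroup = N := InfiniteGalois.fixingSubgroup_fixedField H
  have h1 : FiniteDimensional K M ∧ IsGalois K M := by
    rw [← InfiniteGalois.isOpen_and_normal_iff_finite_and_isGalois, hM]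
    exact ⟨hN, inferInstance⟩
  have h2 : InClass 𝒮 (M ≃ₐ[K] M) := by
    obtain ⟨A, _, hA, ⟨e⟩⟩ := hC
    exact ⟨A, inferInstance, hA, ⟨(InfiniteGalois.normalAutEquivQuotient H).symm.trans e⟩⟩
  have h3 : M ≤ maxC 𝒮 K := le_iSup (fun L : {L : IntermediateField K (SeparableClosure K) //
    FiniteDimensional K L ∧ IsGalois K L ∧ InClass 𝒮 (L ≃ₐ[K] L)} => L.1) ⟨M, h1.1, h1.2, h2⟩
  rw [← hM]
  exact IntermediateField.fixingSubgroup_antitone h3

/-- Open normal subgroups containing the group of the maximal pro-`C` extension have quotients in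
the class. -/
theorem inClass_of_fixingSubgroup_maxC_le
    (hiso : ∀ (S T : Type) [Group S] [Group T], (S ≃* T) → 𝒮 S → 𝒮 T)
    (hsim : ∀ (S : Type) [Group S], 𝒮 S → IsSimpleGroup S)
    (N : Subgroup (SeparableClosure K ≃ₐ[K] SeparableClosure K))
    [N.Normal] (hN : IsOpen (N : Set (SeparableClosure K ≃ₐ[K] SeparableClosure K)))
    (hle : (maxC 𝒮 K).fixingSubgroup ≤ N) :
    InClass 𝒮 ((SeparableClosure K ≃ₐ[K] SeparableClosure K) ⧸ N) := by
  let I := {M : OpenNormalSubgroup (SeparableClosure K ≃ₐ[K] SeparableClosure K) //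
    InClass 𝒮 ((SeparableClosure K ≃ₐ[K] SeparableClosure K) ⧸ M.toSubgroup)}
  have hdir : Directed (· ⊇ ·) (fun i : I =>
      (i.1 : Set (SeparableClosure K ≃ₐ[K] SeparableClosure K))) := by
    rintro ⟨M, hM⟩ ⟨M', hM'⟩
    have h1 : InClass 𝒮 ((SeparableClosure K ≃ₐ[K] SeparableClosure K) ⧸
        (M ⊓ M').toSubgroup) := by
      have hle1 : (M ⊓ M').toSubgroup ≤ M.toSubgroup := fun x hx => hx.1
      have hle2 : (M ⊓ M').toSubgroup ≤ M'.toSubgroup := fun x hx => hx.2
      refine InClass.subdirect hiso hsim hM hM'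
        (QuotientGroup.map (M ⊓ M').toSubgroup M.toSubgroup (MonoidHom.id _) hle1)
        (QuotientGroup.map (M ⊓ M').toSubgroup M'.toSubgroup (MonoidHom.id _) hle2) ?_ ?_ ?_
      · intro x
        obtain ⟨x, rfl⟩ := QuotientGroup.mk_surjective x
        exact ⟨x, rfl⟩
      · intro x
        obtain ⟨x, rfl⟩ := QuotientGroup.mk_surjective x
        exact ⟨x, rfl⟩
      · intro x h1 h2
        obtain ⟨x, rfl⟩ := QuotientGroup.mk_surjective x
        rw [QuotientGroup.eq_one_iff]
        exact ⟨(QuotientGroup.eq_one_iff (N := M.toSubgroup) x).mp h1,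
          (QuotientGroup.eq_one_iff (N := M'.toSubgroup) x).mp h2⟩
    exact ⟨⟨M ⊓ M', h1⟩, fun x hx => hx.1, fun x hx => hx.2⟩
  have hne : Nonempty I := by
    refine ⟨⟨⟨⟨⊤, isOpen_univ⟩, inferInstanceAs (⊤ : Subgroup _).Normal⟩, PUnit, inferInstance,
      .triv _, ⟨?_⟩⟩⟩
    have h1 : Subsingleton ((SeparableClosure K ≃ₐ[K] SeparableClosure K) ⧸
        (⊤ : Subgroup (SeparableClosure K ≃ₐ[K] SeparableClosure K))) :=
      QuotientGroup.subsingleton_quotient_top
    exact
      { toFun := fun _ => 1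
        invFun := fun _ => 1
        left_inv := fun _ => Subsingleton.elim _ _
        right_inv := fun _ => Subsingleton.elim _ _
        map_mul' := fun _ _ => Subsingleton.elim _ _ }
  obtain ⟨⟨M, hM⟩, hMN⟩ := exists_subset_nhds_of_compactSpace hdir
    (fun i => Subgroup.isClosed_of_isOpen _ i.1.isOpen') (U := (N : Set _)) (by
      intro σ hσ
      refine hN.mem_nhds (hle ?_)
      have h1 : maxC 𝒮 K ≤ IntermediateField.fixedField (Subgroup.zpowers σ) := by
        refine iSup_le ?_
        rintro ⟨L, h2, h3, h4⟩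
        rw [IntermediateField.le_iff_le, Subgroup.zpowers_le]
        have h5 : IsOpen (L.fixingSubgroup :
            Set (SeparableClosure K ≃ₐ[K] SeparableClosure K)) :=
          IntermediateField.fixingSubgroup_isOpen L
        have h6 : L.fixingSubgroup.Normal := (InfiniteGalois.normal_iff_isGalois L).mpr h3
        have h7 : Function.Surjective (AlgEquiv.restrictNormalHom (F := K)
            (K₁ := SeparableClosure K) L) := AlgEquiv.restrictNormalHom_surjective _
        have h8 : InClass 𝒮 ((SeparableClosure K ≃ₐ[K] SeparableClosure K) ⧸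
            L.fixingSubgroup) := by
          obtain ⟨A, _, hA, ⟨e⟩⟩ := h4
          refine ⟨A, inferInstance, hA, ⟨?_⟩⟩
          exact ((QuotientGroup.quotientMulEquivOfEq
            (IntermediateField.restrictNormalHom_ker L).symm).trans
            (QuotientGroup.quotientKerEquivOfSurjective _ h7)).trans e
        exact Set.mem_iInter.mp hσ ⟨⟨⟨L.fixingSubgroup, h5⟩, h6⟩, h8⟩
      rw [IntermediateField.le_iff_le, Subgroup.zpowers_le] at h1
      exact h1)
  refine InClass.of_surjective hiso hsim hM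
    (QuotientGroup.map M.toSubgroup N (MonoidHom.id _) hMN) ?_
  intro x
  obtain ⟨x, rfl⟩ := QuotientGroup.mk_surjective x
  exact ⟨x, rfl⟩

/-- The Galois group of the maximal pro-`C` extension is pro-`C`. -/
theorem isProC_maxC (hiso : ∀ (S T : Type) [Group S] [Group T], (S ≃* T) → 𝒮 S → 𝒮 T)
    (hsim : ∀ (S : Type) [Group S], 𝒮 S → IsSimpleGroup S) :
    IsProC 𝒮 (maxC 𝒮 K ≃ₐ[K] maxC 𝒮 K) := by
  refine ⟨inferInstance, inferInstance, krullTopology_t2, inferInstance, ?_⟩
  intro U _ hU
  let ρ := AlgEquiv.restrictNormalHom (F := K) (K₁ := SeparableClosure K) (maxC 𝒮 K)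
  have hρ : Function.Surjective ρ := AlgEquiv.restrictNormalHom_surjective _
  have hρc : Continuous ρ := InfiniteGalois.restrictNormalHom_continuous (maxC 𝒮 K)
  have h1 : InClass 𝒮 ((SeparableClosure K ≃ₐ[K] SeparableClosure K) ⧸ U.comap ρ) := by
    refine inClass_of_fixingSubgroup_maxC_le hiso hsim (U.comap ρ) (hU.preimage hρc) ?_
    intro σ hσ
    rw [← IntermediateField.restrictNormalHom_ker] at hσ
    have h2 : ρ σ = 1 := hσ
    change ρ σ ∈ U
    rw [h2]
    exact one_mem U
  refine InClass.of_surjective hiso hsim h1 (QuotientGroup.map (U.comap ρ) U ρ le_rfl) ?_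
  intro x
  obtain ⟨x, rfl⟩ := QuotientGroup.mk_surjective x
  obtain ⟨y, rfl⟩ := hρ x
  exact ⟨y, rfl⟩

/-- The embedding problems in `C` are properly solvable for the Galois group of the maximal
pro-`C` extension. -/
theorem emb_maxC (hiso : ∀ (S T : Type) [Group S] [Group T], (S ≃* T) → 𝒮 S → 𝒮 T)
    (hsim : ∀ (S : Type) [Group S], 𝒮 S → IsSimpleGroup S)
    (hS : ∀ {E G : Type} [Group E] [Finite E] [Group G] {f : E →* G}, Function.Surjective f →
      HasFactors 𝒮 f.ker → Solves K f) :
    Emb 𝒮 (maxC 𝒮 K ≃ₐ[K] maxC 𝒮 K) := by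
  intro A B _ _ _ f α hf hα hαo hB
  let ρ := AlgEquiv.restrictNormalHom (F := K) (K₁ := SeparableClosure K) (maxC 𝒮 K)
  have hρ : Function.Surjective ρ := AlgEquiv.restrictNormalHom_surjective _
  have hρc : Continuous ρ := InfiniteGalois.restrictNormalHom_continuous (maxC 𝒮 K)
  have hfk : HasFactors 𝒮 f.ker := by
    refine hB.of_injective hiso hsim f.ker f.ker.subtype f.ker.subtype_injective ?_
    rw [Subgroup.range_subtype]
    infer_instance
  obtain ⟨φ, hφ, hφo, hφf⟩ := (hS hf hfk).exists_hom (α.comp ρ) (hα.comp hρ)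
    (hαo.preimage hρc)
  have h1 : ρ.ker ≤ φ.ker := by
    have h2 : ρ.ker = (maxC 𝒮 K).fixingSubgroup := IntermediateField.restrictNormalHom_ker _
    rw [h2]
    exact fixingSubgroup_maxC_le φ.ker hφo
      ⟨B, inferInstance, hB, ⟨QuotientGroup.quotientKerEquivOfSurjective φ hφ⟩⟩
  let ψ : (maxC 𝒮 K ≃ₐ[K] maxC 𝒮 K) →* B := ρ.liftOfSurjective hρ ⟨φ, h1⟩
  have hψ : ∀ σ, ψ (ρ σ) = φ σ := fun σ =>
    ρ.liftOfRightInverse_comp_apply _ (Function.rightInverse_surjInv hρ) ⟨φ, h1⟩ σ
  have hT2 : T2Space (maxC 𝒮 K ≃ₐ[K] maxC 𝒮 K) := krullTopology_t2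
  have hq : Topology.IsQuotientMap ρ := (hρc.isClosedMap).isQuotientMap hρc hρ
  refine ⟨ψ, ?_, ?_, ?_⟩
  · intro b
    obtain ⟨σ, rfl⟩ := hφ b
    exact ⟨ρ σ, hψ σ⟩
  · rw [← hq.isOpen_preimage]
    have h2 : ρ ⁻¹' (ψ.ker : Set (maxC 𝒮 K ≃ₐ[K] maxC 𝒮 K)) = φ.ker := by
      ext σ
      change ψ (ρ σ) = 1 ↔ φ σ = 1
      rw [hψ]
    rw [h2]
    exact hφo
  · ext τ
    obtain ⟨σ, rfl⟩ := hρ τ
    change f (ψ (ρ σ)) = α (ρ σ)
    rw [hψ]
    exact DFunLike.congr_fun hφf σ

/-- If all finite embedding problems with kernel in `C` are properly solvable over the countable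
field `K`, then the Galois group of the maximal pro-`C` extension of `K` is a free pro-`C` group
of countably infinite rank. -/
theorem isFree_of_solves (hiso : ∀ (S T : Type) [Group S] [Group T], (S ≃* T) → 𝒮 S → 𝒮 T)
    (hsim : ∀ (S : Type) [Group S], 𝒮 S → IsSimpleGroup S) [Countable K]
    (hS : ∀ {E G : Type} [Group E] [Finite E] [Group G] {f : E →* G}, Function.Surjective f →
      HasFactors 𝒮 f.ker → Solves K f) :
    IsFreeProC.{u, w} 𝒮 (maxC 𝒮 K ≃ₐ[K] maxC 𝒮 K) := by
  have h1 : Countable (SeparableClosure K) := by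
    rw [← Cardinal.mk_le_aleph0_iff]
    exact (Algebra.IsAlgebraic.cardinalMk_le_max K (SeparableClosure K)).trans
      (max_le (Cardinal.mk_le_aleph0_iff.mpr inferInstance) le_rfl)
  have h2 : FirstCountableTopology (maxC 𝒮 K ≃ₐ[K] maxC 𝒮 K) := firstCountable_gal
  exact isFreeProC_of_emb hiso hsim (isProC_maxC hiso hsim) (emb_maxC hiso hsim hS)

end Field

end MP7fE


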