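import Mathlib

/-!
Solutions of embedding problems from homomorphisms of the absolute Galois group.
-/

set_option autoImplicit false

universe u

namespace MP7fE

/-- A solution of an embedding problem from a homomorphism of a (possibly infinite) Galois
group. -/
theorem sol_of_hom {K M F Ω : Type u} [Field K] [Field M] [Field F] [Field Ω] [Algebra K M]
    [Algebra K F] [Algebra F Ω] [IsGalois F Ω] (i : M →+* Ω)
    (hi : ∀ a : K, i (algebraMap K M a) = algebraMap F Ω (algebraMap K F a))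
    {E : Type} [Group E] (cls : E →* (M ≃ₐ[K] M)) (Φ : (Ω ≃ₐ[F] Ω) →* E)
    (hΦ : Function.Surjective Φ) (L : IntermediateField F Ω) [FiniteDimensional F L]
    (hL : Φ.ker = L.fixingSubgroup)
    (hcls : ∀ (γ : Ω ≃ₐ[F] Ω) (m : M), γ (i m) = i (cls (Φ γ) m)) :
    ∃ (L : Type u) (_ : Field L) (_ : Algebra F L) (_ : FiniteDimensional F L)
      (_ : IsGalois F L) (e' : (L ≃ₐ[F] L) ≃* E) (j : M →+* L),
      (∀ a : K, j (algebraMap K M a) = algebraMap F L (algebraMap K F a)) ∧
      ∀ (σ : L ≃ₐ[F] L) (x : M), σ (j x) = j (cls (e' σ) x) := by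
  have hn : L.fixingSubgroup.Normal := by
    rw [← hL]
    infer_instance
  have hg : IsGalois F L := (InfiniteGalois.normal_iff_isGalois L).mp hn
  have h1 : Function.Surjective (AlgEquiv.restrictNormalHom (F := F) (K₁ := Ω) L) :=
    AlgEquiv.restrictNormalHom_surjective Ω
  have h2 : (AlgEquiv.restrictNormalHom (F := F) (K₁ := Ω) L).ker = Φ.ker := by
    rw [hL]
    exact IntermediateField.restrictNormalHom_ker L
  have hiL : ∀ m, i m ∈ L := by
    intro m
    rw [← InfiniteGalois.fixedField_fixingSubgroup L]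
    rintro ⟨γ, hγ⟩
    rw [← hL, MonoidHom.mem_ker] at hγ
    change γ (i m) = i m
    rw [hcls, hγ, map_one]
    rfl
  let e₁ := QuotientGroup.quotientKerEquivOfSurjective _ h1
  let e₂ := QuotientGroup.quotientKerEquivOfSurjective _ hΦ
  let e₃ := QuotientGroup.quotientMulEquivOfEq h2
  refine ⟨L, inferInstance, inferInstance, inferInstance, hg, (e₁.symm.trans e₃).trans e₂,
    i.codRestrict L hiL, fun a => Subtype.ext (hi a), ?_⟩
  intro σ x
  obtain ⟨γ, rfl⟩ := h1 σ
  have h3 : ((e₁.symm.trans e₃).trans e₂) (AlgEquiv.restrictNormalHom (F := F) (K₁ := Ω) L γ) =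
      Φ γ := by
    have h4 : e₁ (γ : (Ω ≃ₐ[F] Ω) ⧸ _) = AlgEquiv.restrictNormalHom (F := F) (K₁ := Ω) L γ := rfl
    rw [← h4, MulEquiv.trans_apply, MulEquiv.trans_apply, MulEquiv.symm_apply_apply]
    rfl
  rw [h3]
  apply Subtype.ext
  exact (AlgEquiv.restrictNormal_commutes γ L ⟨i x, hiL x⟩).trans (hcls γ x)

end MP7fE
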