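import Pool.Agent.Lib.MP_7f581e_ntL.V7
import Pool.Agent.Lib.MP_7f581e_ntE.PKer
import Pool.Agent.Lib.MP_7f581e_ntS.Quot

/-!
Embedding problems with abelian kernel: the split case, kernels of order prime to `p`.
-/

set_option autoImplicit false
set_option linter.unusedSectionVars false

universe u v

namespace MP7fE

open MP7fR MP7fS MP7fU MulOpposite SemidirectProduct

section units

variable {p : ℕ} [Fact p.Prime] {C : Type} [Ring C] [Finite C] [Algebra (ZMod p) C]
  {Γ : Type} [Group Γ] [Finite Γ]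

/-- The action on `C × Cᵐᵒᵖ`. -/
def rho2 (s : Γ →* (C ≃+* C)) : Γ →* (C × Cᵐᵒᵖ ≃+* C × Cᵐᵒᵖ) where
  toFun g :=
    { toFun := fun x => (s g x.1, op (s g (unop x.2)))
      invFun := fun x => (s g⁻¹ x.1, op (s g⁻¹ (unop x.2)))
      left_inv := fun x => by
        refine Prod.ext ?_ (unop_injective ?_)
        · change (s g⁻¹ * s g) x.1 = x.1
          rw [← map_mul, inv_mul_cancel, map_one]
          rfl
        · change (s g⁻¹ * s g) (unop x.2) = unop x.2
          rw [← map_mul, inv_mul_cancel, map_one]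
          rfl
      right_inv := fun x => by
        refine Prod.ext ?_ (unop_injective ?_)
        · change (s g * s g⁻¹) x.1 = x.1
          rw [← map_mul, mul_inv_cancel, map_one]
          rfl
        · change (s g * s g⁻¹) (unop x.2) = unop x.2
          rw [← map_mul, mul_inv_cancel, map_one]
          rfl
      map_mul' := fun x y => by
        refine Prod.ext (map_mul (s g) x.1 y.1) (unop_injective ?_)
        exact map_mul (s g) (unop y.2) (unop x.2)
      map_add' := fun x y => by
        refine Prod.ext (map_add (s g) x.1 y.1) (unop_injective ?_)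
        exact map_add (s g) (unop x.2) (unop y.2) }
  map_one' := by
    ext x
    · change s 1 x.1 = x.1
      rw [map_one]
      rfl
    · change op (s 1 (unop x.2)) = x.2
      rw [map_one]
      rfl
  map_mul' g h := by
    ext x
    · change s (g * h) x.1 = s g (s h x.1)
      rw [map_mul]
      rfl
    · change op (s (g * h) (unop x.2)) = op (s g (s h (unop x.2)))
      rw [map_mul]
      rfl

/-- Unit groups: the embedding problem version of the generic Lang torsor. -/
theorem lang_units_emb {K : Type u} [Field K] [CharP K p] (s : Γ →* (C ≃+* C)) :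
    ∃ r : ℕ, SolvesOver K (FractionRing (MvPolynomial (Fin r) K))
      (rightHom : Cˣ ⋊[uact s] Γ →* Γ) := by
  have hρ : ∀ g b, rho2 s g ((exchInv p C).j b) = (exchInv p C).j (rho2 s g b) :=
    fun g b => rfl
  obtain ⟨r, hr⟩ := lang_exch_emb (K := K) C (rho2 s) hρ
  refine ⟨r, hr.of_surjective
    (SemidirectProduct.map (exchU p C).symm.toMonoidHom (MonoidHom.id Γ) ?_) ?_ ?_⟩
  · intro g
    ext u
    rfl
  · intro x
    refine ⟨⟨exchU p C x.left, x.right⟩, ?_⟩
    apply SemidirectProduct.ext
    · exact (exchU p C).symm_apply_apply x.left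
    · rfl
  · intro x
    rfl

end units

section abelian

variable (p : ℕ) [hp : Fact p.Prime] {A : Type} [CommGroup A] [Finite A]
  {Γ : Type} [Group Γ] [Finite Γ] (φ : Γ →* MulAut A)

/-- The permutation action on the induced ring. -/
def permAct (F Γ A : Type) [Ring F] [Group Γ] : Γ →* ((Γ × A → F) ≃+* (Γ × A → F)) where
  toFun g :=
    { toFun := fun f x => f (g⁻¹ * x.1, x.2)
      invFun := fun f x => f (g * x.1, x.2)
      left_inv := fun f => by
        funext x
        change f (g⁻¹ * (g * x.1), x.2) = f x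
        rw [inv_mul_cancel_left]
      right_inv := fun f => by
        funext x
        change f (g * (g⁻¹ * x.1), x.2) = f x
        rw [mul_inv_cancel_left]
      map_mul' := fun f f' => rfl
      map_add' := fun f f' => rfl }
  map_one' := by
    ext f x
    change f (1⁻¹ * x.1, x.2) = f x
    rw [inv_one, one_mul]
  map_mul' g h := by
    ext f x
    change f ((g * h)⁻¹ * x.1, x.2) = f (h⁻¹ * (g⁻¹ * x.1), x.2)
    rw [mul_inv_rev, mul_assoc]

variable {F : Type} [Field F] [Finite F]

/-- The map from units of the induced ring to the module. -/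
noncomputable def indMap (h : A → (Fˣ →* A)) : (Γ × A → F)ˣ →* A := by
  classical
  exact
  { toFun := fun u => finprod (fun x : Γ × A =>
      φ x.1 (h x.2 (MulEquiv.piUnits u x)))
    map_one' := by
      rw [map_one]
      refine (finprod_congr (fun x => ?_)).trans finprod_one
      change φ x.1 (h x.2 1) = 1
      rw [map_one, map_one]
    map_mul' := fun u v => by
      rw [map_mul, ← finprod_mul_distrib (Set.toFinite _) (Set.toFinite _)]
      refine finprod_congr (fun x => ?_)
      rw [Pi.mul_apply, map_mul, map_mul] }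

theorem indMap_apply (h : A → (Fˣ →* A)) (u : (Γ × A → F)ˣ) :
    indMap φ h u = finprod (fun x : Γ × A => φ x.1 (h x.2 (MulEquiv.piUnits u x))) := rfl

theorem indMap_act (h : A → (Fˣ →* A)) (g : Γ) (u : (Γ × A → F)ˣ) :
    indMap φ h (uact (permAct F Γ A) g u) = φ g (indMap φ h u) := by
  rw [indMap_apply, indMap_apply]
  have h1 : φ g (finprod (fun x : Γ × A => φ x.1 (h x.2 (MulEquiv.piUnits u x)))) =
      finprod (fun x : Γ × A => φ g (φ x.1 (h x.2 (MulEquiv.piUnits u x)))) :=
    MonoidHom.map_finprod (φ g).toMonoidHom (Set.toFinite _)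
  rw [h1]
  let E : Γ × A ≃ Γ × A := (Equiv.mulLeft g).prodCongr (Equiv.refl A)
  rw [← finprod_comp_equiv E]
  refine finprod_congr (fun x => ?_)
  change φ (g * x.1) (h x.2 (MulEquiv.piUnits (uact (permAct F Γ A) g u) (g * x.1, x.2))) = _
  rw [map_mul]
  have h2 : MulEquiv.piUnits (uact (permAct F Γ A) g u) (g * x.1, x.2) =
      MulEquiv.piUnits u x := by
    apply Units.ext
    change (u : Γ × A → F) (g⁻¹ * (g * x.1), x.2) = (u : Γ × A → F) x
    rw [inv_mul_cancel_left]
  rw [h2]
  rfl

theorem indMap_surjective {z : Fˣ} (h : A → (Fˣ →* A)) (hz : ∀ a, h a z = a) :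
    Function.Surjective (indMap φ h : (Γ × A → F)ˣ →* A) := by
  classical
  intro a
  let w : Γ × A → Fˣ := Pi.mulSingle (1, a) z
  let u : (Γ × A → F)ˣ := MulEquiv.piUnits.symm w
  have h0 : ∀ x, MulEquiv.piUnits u x = w x := fun x =>
    congrFun (MulEquiv.piUnits.apply_symm_apply w) x
  refine ⟨u, ?_⟩
  rw [indMap_apply]
  have h1 : (fun x : Γ × A => φ x.1 (h x.2 (MulEquiv.piUnits u x))) =
      fun x : Γ × A => φ x.1 (h x.2 (w x)) := funext (fun x => by rw [h0])
  rw [h1, finprod_eq_single (fun x : Γ × A => φ x.1 (h x.2 (w x))) (1, a) (by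
      intro x hx
      change φ x.1 (h x.2 ((Pi.mulSingle (1, a) z : Γ × A → Fˣ) x)) = 1
      rw [Pi.mulSingle_eq_of_ne hx, map_one, map_one])]
  change φ 1 (h a ((Pi.mulSingle (1, a) z : Γ × A → Fˣ) (1, a))) = a
  rw [Pi.mulSingle_eq_same, map_one]
  exact hz a

/-- A finite field of characteristic `p` with enough roots of unity. -/
theorem exists_field (m : ℕ) (hm : m.Coprime p) (h0 : m ≠ 0) :
    ∃ (F : Type) (_ : Field F) (_ : Finite F) (_ : Algebra (ZMod p) F) (z : Fˣ),
      (∀ x, x ∈ Subgroup.zpowers z) ∧ m ∣ orderOf z := by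
  have h1 : Nat.totient m ≠ 0 := (Nat.totient_pos.mpr (Nat.pos_of_ne_zero h0)).ne'
  let F := GaloisField p (Nat.totient m)
  have : Finite F := by
    apply Nat.finite_of_card_ne_zero
    rw [GaloisField.card p _ h1]
    exact pow_ne_zero _ hp.out.ne_zero
  obtain ⟨z, hz⟩ := IsCyclic.exists_generator (α := Fˣ)
  refine ⟨F, inferInstance, inferInstance, inferInstance, z, hz, ?_⟩
  rw [orderOf_eq_card_of_forall_mem_zpowers hz, Nat.card_units, GaloisField.card p _ h1]
  have h2 := Nat.ModEq.pow_totient hm.symm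
  exact (Nat.modEq_iff_dvd' (Nat.one_le_pow _ _ hp.out.pos)).mp h2.symm

/-- **Split embedding problems with abelian kernel of order prime to the characteristic.** -/
theorem solvesOver_split_prime_to {K : Type u} [Field K] [CharP K p]
    (hA : (Nat.card A).Coprime p) :
    ∃ r : ℕ, SolvesOver K (FractionRing (MvPolynomial (Fin r) K))
      (rightHom : A ⋊[φ] Γ →* Γ) := by
  obtain ⟨F, _, _, _, z, hz, hdvd⟩ := exists_field p (Nat.card A) hA Nat.card_pos.ne'
  let h : A → (Fˣ →* A) := fun a => monoidHomOfForallMemZpowers hz (g' := a)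
    ((orderOf_dvd_natCard a).trans hdvd)
  have hh : ∀ a, h a z = a := fun a => monoidHomOfForallMemZpowers_apply_gen hz _
  obtain ⟨r, hr⟩ := lang_units_emb (p := p) (K := K) (permAct F Γ A)
  refine ⟨r, hr.of_surjective
    (SemidirectProduct.map (indMap φ h) (MonoidHom.id Γ) ?_) ?_ ?_⟩
  · intro g
    ext u
    exact indMap_act φ h g u
  · intro x
    obtain ⟨u, hu⟩ := indMap_surjective φ h hh x.left
    refine ⟨⟨u, x.right⟩, ?_⟩
    apply SemidirectProduct.ext
    · exact hu
    · rfl
  · intro x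
    rfl

/-- The same, for a multiplicative group not known to be commutative by its type. -/
theorem solvesOver_split_prime_to' {A : Type} [Group A] [Finite A]
    (hcomm : ∀ a b : A, a * b = b * a) {Γ : Type} [Group Γ] [Finite Γ] (φ : Γ →* MulAut A)
    {K : Type u} [Field K] [CharP K p] (hA : (Nat.card A).Coprime p) :
    ∃ r : ℕ, SolvesOver K (FractionRing (MvPolynomial (Fin r) K))
      (rightHom : A ⋊[φ] Γ →* Γ) := by
  let _ : CommGroup A := { ‹Group A› with mul_comm := hcomm }
  exact solvesOver_split_prime_to p φ hA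

end abelian

section intern

variable (p : ℕ) [hp : Fact p.Prime]

/-- A supplement maps onto the quotient. -/
theorem supplement_surjective {E : Type} [Group E] (A E0 : Subgroup E) [A.Normal]
    (h : A ⊔ E0 = ⊤) : Function.Surjective ((QuotientGroup.mk' A).comp E0.subtype) := by
  intro x
  obtain ⟨y, rfl⟩ := QuotientGroup.mk_surjective x
  have h1 : y ∈ A ⊔ E0 := by
    rw [h]
    exact Subgroup.mem_top y
  obtain ⟨a, ha, g, hg, rfl⟩ := Subgroup.mem_sup_of_normal_left.mp h1
  refine ⟨⟨g, hg⟩, ?_⟩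
  change (QuotientGroup.mk g : E ⧸ A) = QuotientGroup.mk (a * g)
  rw [QuotientGroup.mk_mul, (QuotientGroup.eq_one_iff a).mpr ha, one_mul]

/-- The conjugation action of a subgroup on a normal subgroup. -/
noncomputable def cact {E : Type} [Group E] (A E0 : Subgroup E) [A.Normal] : E0 →* MulAut A :=
  (MulAut.conjNormal (H := A)).comp E0.subtype

/-- The map from the external semidirect product. -/
noncomputable def sdMap {E : Type} [Group E] (A E0 : Subgroup E) [A.Normal] :
    A ⋊[cact A E0] E0 →* E :=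
  SemidirectProduct.lift A.subtype E0.subtype (by
    intro g
    ext a
    change ((MulAut.conjNormal (g : E) a : A) : E) = (g : E) * (a : E) * (g : E)⁻¹
    exact MulAut.conjNormal_apply _ _)

theorem sdMap_apply {E : Type} [Group E] (A E0 : Subgroup E) [A.Normal]
    (x : A ⋊[cact A E0] E0) : sdMap A E0 x = (x.left : E) * (x.right : E) := rfl

theorem sdMap_surjective {E : Type} [Group E] (A E0 : Subgroup E) [A.Normal]
    (h : A ⊔ E0 = ⊤) : Function.Surjective (sdMap A E0) := by
  intro y
  have h1 : y ∈ A ⊔ E0 := by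
    rw [h]
    exact Subgroup.mem_top y
  obtain ⟨a, ha, g, hg, rfl⟩ := Subgroup.mem_sup_of_normal_left.mp h1
  exact ⟨⟨⟨a, ha⟩, ⟨g, hg⟩⟩, rfl⟩

/-- **Supplements.** -/
theorem solvesOver_of_supplement {K F : Type u} [Field K] [Field F] [Algebra K F] {E : Type}
    [Group E] (A E0 : Subgroup E) [A.Normal] (h : A ⊔ E0 = ⊤)
    (h1 : SolvesOver K F (rightHom : A ⋊[cact A E0] E0 →* E0))
    (h2 : Solves K (QuotientGroup.mk' (A.subgroupOf E0))) :
    SolvesOver K F (QuotientGroup.mk' A) := by
  have h3 : Solves K ((QuotientGroup.mk' A).comp E0.subtype) := by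
    refine SolvesOver.of_mk (supplement_surjective A E0 h) ?_
    have h4 : ((QuotientGroup.mk' A).comp E0.subtype).ker = A.subgroupOf E0 := by
      rw [← MonoidHom.comap_ker, QuotientGroup.ker_mk']
      rfl
    have h5 : ∀ (N : Subgroup E0) (hN : N.Normal), N = A.subgroupOf E0 →
        Solves K (QuotientGroup.mk' N) := by
      intro N hN h6
      subst h6
      exact h2
    exact h5 _ _ h4
  refine (Solves.comp h3 h1).of_surjective (sdMap A E0) (sdMap_surjective A E0 h) ?_
  intro x
  rw [sdMap_apply]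
  change (QuotientGroup.mk ((x.left : E) * (x.right : E)) : E ⧸ A) =
    QuotientGroup.mk (x.right : E)
  rw [QuotientGroup.mk_mul, (QuotientGroup.eq_one_iff _).mpr x.left.2, one_mul]

/-- Complemented abelian kernels of order prime to the characteristic. -/
theorem solvesOver_of_complement {K : Type u} [Field K] [CharP K p] {E : Type} [Group E]
    [Finite E] (A E0 : Subgroup E) [A.Normal] (hc : ∀ a ∈ A, ∀ b ∈ A, a * b = b * a)
    (h : A ⊔ E0 = ⊤) (h' : A ⊓ E0 = ⊥) (hA : (Nat.card A).Coprime p) :
    ∃ r : ℕ, SolvesOver K (FractionRing (MvPolynomial (Fin r) K)) (QuotientGroup.mk' A) := by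
  obtain ⟨r, hr⟩ := solvesOver_split_prime_to' p (A := A)
    (fun a b => Subtype.ext (hc a a.2 b b.2)) (cact A E0) (K := K) hA
  refine ⟨r, solvesOver_of_supplement A E0 h hr ?_⟩
  have h4 : A.subgroupOf E0 = ⊥ := by
    rw [← Subgroup.inf_subgroupOf_right, h', Subgroup.bot_subgroupOf]
  have h5 : ∀ (N : Subgroup E0) (hN : N.Normal), N = ⊥ → Solves K (QuotientGroup.mk' N) := by
    intro N hN h6
    subst h6
    exact solves_mk_bot
  exact h5 _ _ h4

/-- **Complemented abelian kernels.** -/
theorem solves_of_complement {K : Type u} [Field K] [CharP K p]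
    (hspec : ∀ (r : ℕ) {E G : Type} [Group E] [Finite E] [Group G] (f : E →* G),
      SolvesOver K (FractionRing (MvPolynomial (Fin r) K)) f → Solves K f)
    (hpk : ∀ {E : Type} [Group E] [Finite E] (N : Subgroup E) [N.Normal],
      IsPGroup p N → Solves K (QuotientGroup.mk' N)) {E : Type} [Group E]
    [Finite E] (A E0 : Subgroup E) [hAn : A.Normal] (hc : ∀ a ∈ A, ∀ b ∈ A, a * b = b * a)
    (h : A ⊔ E0 = ⊤) (h' : A ⊓ E0 = ⊥) : Solves K (QuotientGroup.mk' A) := by
  let P : Subgroup E :=
    { carrier := {a | a ∈ A ∧ ∃ k : ℕ, a ^ p ^ k = 1}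
      mul_mem' := by
        rintro a b ⟨ha, k, hk⟩ ⟨hb, l, hl⟩
        refine ⟨mul_mem ha hb, k + l, ?_⟩
        rw [Commute.mul_pow (hc a ha b hb), pow_add, pow_mul, hk, one_pow, mul_comm, pow_mul,
          hl, one_pow, one_mul]
      one_mem' := ⟨one_mem _, 0, one_pow _⟩
      inv_mem' := by
        rintro a ⟨ha, k, hk⟩
        exact ⟨inv_mem ha, k, by rw [inv_pow, hk, inv_one]⟩ }
  have hPn : P.Normal := by
    constructor
    rintro a ⟨ha, k, hk⟩ g
    refine ⟨hAn.conj_mem a ha g, k, ?_⟩
    rw [conj_pow, hk, mul_one, mul_inv_cancel]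
  have hPA : P ≤ A := fun a ha => ha.1
  have hPp : IsPGroup p P := by
    rintro ⟨a, ha, k, hk⟩
    exact ⟨k, Subtype.ext hk⟩
  refine Solves.mk_of_le hPA ?_ (hpk P hPp)
  have hcop : (Nat.card (A.map (QuotientGroup.mk' P))).Coprime p := by
    rw [Nat.coprime_comm, hp.out.coprime_iff_not_dvd]
    intro hdvd
    obtain ⟨⟨x, hx⟩, hxo⟩ := exists_prime_orderOf_dvd_card' p hdvd
    obtain ⟨a, ha, rfl⟩ := hx
    have h1 : (QuotientGroup.mk' P a) ^ p = 1 := by
      have := pow_orderOf_eq_one
        (⟨QuotientGroup.mk' P a, a, ha, rfl⟩ : A.map (QuotientGroup.mk' P))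
      rw [hxo] at this
      exact congrArg Subtype.val this
    rw [← map_pow] at h1
    have h2 : a ^ p ∈ P := (QuotientGroup.eq_one_iff _).mp h1
    obtain ⟨-, k, hk⟩ := h2
    have h3 : a ∈ P := ⟨ha, k + 1, by rw [pow_succ', pow_mul, hk]⟩
    have h4 : (⟨QuotientGroup.mk' P a, a, ha, rfl⟩ : A.map (QuotientGroup.mk' P)) = 1 :=
      Subtype.ext ((QuotientGroup.eq_one_iff a).mpr h3)
    rw [h4, orderOf_one] at hxo
    exact hp.out.one_lt.ne hxo
  obtain ⟨r, hr⟩ := solvesOver_of_complement p (K := K) (A.map (QuotientGroup.mk' P))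
    (E0.map (QuotientGroup.mk' P)) (by
      rintro _ ⟨a, ha, rfl⟩ _ ⟨b, hb, rfl⟩
      rw [← map_mul, hc a ha b hb, map_mul]) (by
      rw [← Subgroup.map_sup, h]
      exact Subgroup.map_top_of_surjective _ (QuotientGroup.mk'_surjective P)) (by
      rw [eq_bot_iff]
      rintro _ ⟨⟨a, ha, rfl⟩, ⟨b, hb, hab⟩⟩
      have h1 : b⁻¹ * a ∈ P := QuotientGroup.eq.mp hab
      have h2 : b ∈ A := by
        have h3 : a * (b⁻¹ * a)⁻¹ ∈ A := mul_mem ha (inv_mem (hPA h1))
        have h4 : a * (b⁻¹ * a)⁻¹ = b := by group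
        rwa [h4] at h3
      have h3 : b = 1 := by
        have h4 : b ∈ A ⊓ E0 := ⟨h2, hb⟩
        rw [h'] at h4
        exact Subgroup.mem_bot.mp h4
      rw [h3, inv_one, one_mul] at h1
      exact Subgroup.mem_bot.mpr ((QuotientGroup.eq_one_iff a).mpr h1)) hcop
  exact hspec r _ hr

/-- The semidirect product version. -/
theorem solves_split_abelian {K : Type u} [Field K] [CharP K p]
    (hspec : ∀ (r : ℕ) {E G : Type} [Group E] [Finite E] [Group G] (f : E →* G),
      SolvesOver K (FractionRing (MvPolynomial (Fin r) K)) f → Solves K f)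
    (hpk : ∀ {E : Type} [Group E] [Finite E] (N : Subgroup E) [N.Normal],
      IsPGroup p N → Solves K (QuotientGroup.mk' N))
    {A : Type} [Group A] [Finite A] (hcomm : ∀ a b : A, a * b = b * a)
    {Γ : Type} [Group Γ] [Finite Γ] (φ : Γ →* MulAut A) :
    Solves K (rightHom : A ⋊[φ] Γ →* Γ) := by
  have hfin : Finite (A ⋊[φ] Γ) := Finite.of_equiv _ SemidirectProduct.equivProd.symm
  refine SolvesOver.of_mk rightHom_surjective ?_
  refine solves_of_complement p hspec hpk (rightHom : A ⋊[φ] Γ →* Γ).ker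
    (inr : Γ →* A ⋊[φ] Γ).range ?_ ?_ ?_
  · intro a ha b hb
    rw [← range_inl_eq_ker_rightHom] at ha hb
    obtain ⟨a, rfl⟩ := ha
    obtain ⟨b, rfl⟩ := hb
    rw [← map_mul, hcomm, map_mul]
  · rw [eq_top_iff]
    intro x _
    rw [← inl_left_mul_inr_right x]
    refine Subgroup.mul_mem_sup ?_ ⟨x.right, rfl⟩
    rw [← range_inl_eq_ker_rightHom]
    exact ⟨x.left, rfl⟩
  · rw [eq_bot_iff]
    rintro x ⟨hx, ⟨g, rfl⟩⟩
    have h1 : g = 1 := hx
    rw [h1, map_one]
    exact Subgroup.one_mem _

/-- **Supplemented abelian kernels.** -/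
theorem solves_of_abelian_supplement {K : Type u} [Field K] [CharP K p]
    (hspec : ∀ (r : ℕ) {E G : Type} [Group E] [Finite E] [Group G] (f : E →* G),
      SolvesOver K (FractionRing (MvPolynomial (Fin r) K)) f → Solves K f)
    (hpk : ∀ {E : Type} [Group E] [Finite E] (N : Subgroup E) [N.Normal],
      IsPGroup p N → Solves K (QuotientGroup.mk' N)) {E : Type} [Group E]
    [Finite E] (A E0 : Subgroup E) [hAn : A.Normal] (hc : ∀ a ∈ A, ∀ b ∈ A, a * b = b * a)
    (h : A ⊔ E0 = ⊤) (h' : Solves K (QuotientGroup.mk' (A.subgroupOf E0))) :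
    Solves K (QuotientGroup.mk' A) :=
  solvesOver_of_supplement A E0 h (solves_split_abelian p hspec hpk
    (fun a b => Subtype.ext (hc a a.2 b b.2)) (cact A E0)) h'

/-- If a finite group `E` is the product of an abelian normal subgroup and a subgroup which
occurs, then `E` occurs. -/
theorem occurs_of_abelian_supplement {K : Type u} [Field K] [CharP K p]
    (hspec : ∀ (r : ℕ) {E G : Type} [Group E] [Finite E] [Group G] (f : E →* G),
      SolvesOver K (FractionRing (MvPolynomial (Fin r) K)) f → Solves K f)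
    (hpk : ∀ {E : Type} [Group E] [Finite E] (N : Subgroup E) [N.Normal],
      IsPGroup p N → Solves K (QuotientGroup.mk' N)) {E : Type} [Group E]
    [Finite E] (A E0 : Subgroup E) [hAn : A.Normal] (hc : ∀ a ∈ A, ∀ b ∈ A, a * b = b * a)
    (h : A ⊔ E0 = ⊤) (h' : Occurs E0 K) : Occurs E K := by
  have h1 : Occurs (A ⋊[cact A E0] E0) K := (solves_split_abelian p hspec hpk
    (fun a b => Subtype.ext (hc a a.2 b b.2)) (cact A E0)).occurs h'
  exact occurs_of_surjective h1 (sdMap A E0) (sdMap_surjective A E0 h)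

end intern
end MP7fE
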