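import Pool.Agent.Lib.MP_7f581e_ntE.SolvesP
import Pool.Agent.Lib.MP_7f581e_ntE.SplitAb
import Pool.Agent.Lib.MP_7f581e_ntE.General

/-!
Embedding problems which have a weak solution: the formal part.
-/

set_option autoImplicit false

universe u

namespace MP7fE

open MP7fR MP7fC

/-- `Layered 𝒮 𝒬 A`, for a subgroup `A` of a group `E`: the smallest class of pairs `(E, A)` such
that `A` belongs to it if `A` is normal and abelian or a power of a group in `𝒬`; if `A` is the
product of two members; if `A` contains a normal subgroup `B` of `E` which has a subnormal series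
with factors in `𝒮`, such that the image of `A` in `E / B` is a member. -/
inductive Layered (𝒮 𝒬 : GroupClass) : {E : Type} → [Group E] → Subgroup E → Prop
  /-- abelian normal subgroups -/
  | ab {E : Type} [Group E] (A : Subgroup E) (hn : A.Normal)
      (h : ∀ a ∈ A, ∀ b ∈ A, a * b = b * a) : Layered 𝒮 𝒬 A
  /-- normal subgroups which are powers of a group in `𝒬` -/
  | pow {E : Type} [Group E] (A : Subgroup E) (hn : A.Normal) {H : Type} [Group H] (n : ℕ)
      (hH : 𝒬 H) (θ : A ≃* (Fin n → H)) : Layered 𝒮 𝒬 A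
  /-- products -/
  | sup {E : Type} [Group E] (A B : Subgroup E) (hA : Layered 𝒮 𝒬 A) (hB : Layered 𝒮 𝒬 B) :
      Layered 𝒮 𝒬 (A ⊔ B)
  /-- extensions by groups with factors in `𝒮` -/
  | ext {E : Type} [Group E] (A B : Subgroup E) (hn : B.Normal) (hBA : B ≤ A)
      (hB : HasFactors 𝒮 B) (hA : Layered 𝒮 𝒬 (A.map (QuotientGroup.mk' B))) : Layered 𝒮 𝒬 A

theorem Layered.normal {𝒮 𝒬 : GroupClass} {E : Type} [Group E] {A : Subgroup E}
    (h : Layered 𝒮 𝒬 A) : A.Normal := by
  induction h with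
  | ab A hn h => exact hn
  | pow A hn n hH θ => exact hn
  | sup A B hA hB h1 h2 => infer_instance
  | ext A B hn hBA hB hA ih =>
    have h1 : A = (A.map (QuotientGroup.mk' B)).comap (QuotientGroup.mk' B) := by
      rw [Subgroup.comap_map_eq, QuotientGroup.ker_mk', sup_eq_left.mpr hBA]
    rw [h1]
    exact ih.comap _

/-- Split embedding problems with abelian kernel. -/
theorem solves_split_ab {p : ℕ} [Fact p.Prime] {K : Type u} [Field K] [CharP K p]
    (hK : IsHilbertian K) {E Q : Type} [Group E] [Finite E] [Group Q] (f : E →* Q) (s : Q →* E)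
    (hs : ∀ q, f (s q) = q) (hk : ∀ a ∈ f.ker, ∀ b ∈ f.ker, a * b = b * a) : Solves K f := by
  have hf : Function.Surjective f := fun q => ⟨s q, hs q⟩
  have h1 : Solves K (QuotientGroup.mk' f.ker) :=
    solves_of_complement p (fun r {E G} _ _ _ f h => solves_of_mv hK f _ h)
      (fun {E} _ _ N _ hN => solves_of_pKernel (p := p) hK N hN) f.ker s.range hk
      (by
        rw [eq_top_iff]
        intro x _
        rw [← inv_mul_cancel_right x (s (f x))]
        refine mul_mem (Subgroup.mem_sup_left ?_) (Subgroup.mem_sup_right ⟨_, rfl⟩)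
        rw [MonoidHom.mem_ker, map_mul, map_inv, hs, mul_inv_cancel])
      (by
        rw [eq_bot_iff]
        rintro _ ⟨hx, q, rfl⟩
        have hx' : f (s q) = 1 := hx
        rw [hs] at hx'
        rw [hx', map_one]
        exact Subgroup.mem_bot.mpr rfl)
  exact SolvesOver.of_mk hf h1

section lift

variable {E : Type} [Group E] (A : Subgroup E) [A.Normal] {Q : Type} [Group Q] (β : Q →* E)

/-- The action on a normal subgroup by conjugation. -/
def conjAct : Q →* MulAut A := (MulAut.conjNormal (H := A)).comp β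

theorem conjAct_coe (q : Q) (a : A) : ((conjAct A β q a : A) : E) = β q * a * (β q)⁻¹ := rfl

/-- The extension of `β`. -/
def extHom : A ⋊[conjAct A β] Q →* E :=
  SemidirectProduct.lift A.subtype β fun q => by
    ext a
    rfl

theorem extHom_apply (x : A ⋊[conjAct A β] Q) : extHom A β x = x.left * β x.right := rfl

/-- The kernel of the projection. -/
noncomputable def kerEquiv :
    (SemidirectProduct.rightHom : A ⋊[conjAct A β] Q →* Q).ker ≃* A :=
  (MulEquiv.subgroupCongr SemidirectProduct.range_inl_eq_ker_rightHom.symm).trans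
    (MonoidHom.ofInjective (f := (SemidirectProduct.inl : A →* A ⋊[conjAct A β] Q))
      SemidirectProduct.inl_injective).symm

end lift

variable {p : ℕ} [Fact p.Prime] {k : Type} [Field k] [CharP k p] {𝒮 𝒬 : GroupClass}

include p in
/-- The main step. -/
theorem Layered.lift (h𝒮 : Good.{u} k 𝒮) (h𝒬 : GoodSplit.{u} k 𝒬) {K : Type u} [Field K]
    [Algebra k K] (hK : IsHilbertian K) {E : Type} [Group E] {A : Subgroup E}
    (h : Layered 𝒮 𝒬 A) : Finite E → ∀ (Q : Type) [Group Q] [Finite Q] (β : Q →* E),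
      ∃ (P : Type) (_ : Group P) (_ : Finite P) (π : P →* Q) (β' : P →* E),
        Function.Surjective π ∧ (∀ x, β' x * (β (π x))⁻¹ ∈ A) ∧ A ≤ β'.range ∧ Solves K π := by
  have hp : CharP K p := charP_of_injective_algebraMap (algebraMap k K).injective p
  have base : ∀ {E : Type} [Group E] [Finite E] (A : Subgroup E) [A.Normal] (Q : Type) [Group Q]
      [Finite Q] (β : Q →* E), Solves K (SemidirectProduct.rightHom : A ⋊[conjAct A β] Q →* Q) →
      ∃ (P : Type) (_ : Group P) (_ : Finite P) (π : P →* Q) (β' : P →* E),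
        Function.Surjective π ∧ (∀ x, β' x * (β (π x))⁻¹ ∈ A) ∧ A ≤ β'.range ∧ Solves K π := by
    intro E _ _ A _ Q _ _ β hs
    have hfin : Finite (A ⋊[conjAct A β] Q) := Finite.of_equiv _ SemidirectProduct.equivProd.symm
    refine ⟨A ⋊[conjAct A β] Q, inferInstance, hfin, SemidirectProduct.rightHom, extHom A β,
      SemidirectProduct.rightHom_surjective,
      fun x => ?_, fun a ha => ⟨SemidirectProduct.inl ⟨a, ha⟩, ?_⟩, hs⟩
    · rw [extHom_apply]
      change (x.left : E) * β x.right * (β x.right)⁻¹ ∈ A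
      rw [mul_inv_cancel_right]
      exact x.left.2
    · rw [extHom_apply, SemidirectProduct.left_inl, SemidirectProduct.right_inl, map_one, mul_one]
  induction h with
  | ab A hn hab =>
    intro hE Q _ _ β
    have hfin : Finite (A ⋊[conjAct A β] Q) := Finite.of_equiv _ SemidirectProduct.equivProd.symm
    refine base A Q β (solves_split_ab (p := p) hK _ SemidirectProduct.inr (fun q => rfl) ?_)
    intro a ha b hb
    have h1 : kerEquiv A β (⟨a, ha⟩ * ⟨b, hb⟩) = kerEquiv A β (⟨b, hb⟩ * ⟨a, ha⟩) := by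
      rw [map_mul, map_mul]
      apply Subtype.ext
      exact hab _ (kerEquiv A β ⟨a, ha⟩).2 _ (kerEquiv A β ⟨b, hb⟩).2
    exact congrArg Subtype.val ((kerEquiv A β).injective h1)
  | pow A hn n hH θ =>
    intro hE Q _ _ β
    have hfin : Finite (A ⋊[conjAct A β] Q) := Finite.of_equiv _ SemidirectProduct.equivProd.symm
    exact base A Q β (h𝒬.step hK _ _ _ SemidirectProduct.inr (fun q => rfl) _ n hH
      ((kerEquiv A β).trans θ))
  | sup A B hA hB ihA ihB =>
    intro hE Q _ _ β
    obtain ⟨P₁, _, _, π₁, β₁, h0, h1, h2, h3⟩ := ihA hE Q β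
    obtain ⟨P₂, _, _, π₂, β₂, h7, h4, h5, h6⟩ := ihB hE P₁ β₁
    refine ⟨P₂, inferInstance, inferInstance, π₁.comp π₂, β₂, h0.comp h7, fun x => ?_, ?_,
      h3.comp h6⟩
    · have h8 : β₂ x * (β (π₁ (π₂ x)))⁻¹ =
          (β₂ x * (β₁ (π₂ x))⁻¹) * (β₁ (π₂ x) * (β (π₁ (π₂ x)))⁻¹) := by group
      change β₂ x * (β (π₁ (π₂ x)))⁻¹ ∈ A ⊔ B
      rw [h8]
      exact mul_mem (Subgroup.mem_sup_right (h4 x)) (Subgroup.mem_sup_left (h1 _))
    · rw [sup_le_iff]
      refine ⟨fun a ha => ?_, h5⟩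
      obtain ⟨y, rfl⟩ := h2 ha
      obtain ⟨x, rfl⟩ := h7 y
      have h8 : β₁ (π₂ x) = (β₂ x * (β₁ (π₂ x))⁻¹)⁻¹ * β₂ x := by group
      rw [h8]
      exact mul_mem (inv_mem (h5 (h4 x))) ⟨x, rfl⟩
  | @ext E _ A B hn hBA hB hA ih =>
    intro hE Q _ _ β
    have hfin : Finite (_ ⧸ B) := Quotient.finite _
    obtain ⟨P₁, _, _, π₁, β₁, h0, h1, h2, h3⟩ := ih hfin Q ((QuotientGroup.mk' B).comp β)
    let P := (β₁.comp (MonoidHom.fst P₁ E)).eqLocus
      ((QuotientGroup.mk' B).comp (MonoidHom.snd P₁ E))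
    have hPmem : ∀ y, y ∈ P ↔ β₁ y.1 = QuotientGroup.mk' B y.2 := fun y => Iff.rfl
    let π₂ : P →* P₁ := (MonoidHom.fst P₁ E).comp P.subtype
    let β₂ : P →* E := (MonoidHom.snd P₁ E).comp P.subtype
    have hπ₂ : Function.Surjective π₂ := by
      intro x
      obtain ⟨e, he⟩ := QuotientGroup.mk'_surjective B (β₁ x)
      exact ⟨⟨(x, e), (hPmem _).mpr he.symm⟩, rfl⟩
    have hker : HasFactors 𝒮 π₂.ker := by
      have hmem : ∀ b : B, ((1 : P₁), (b : E)) ∈ P := by
        intro b
        rw [hPmem, map_one]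
        exact ((QuotientGroup.eq_one_iff (b : E)).mpr b.2).symm
      let φ : B →* π₂.ker :=
        { toFun := fun b => ⟨⟨(1, b), hmem b⟩, rfl⟩
          map_one' := rfl
          map_mul' := fun a b => Subtype.ext (Subtype.ext (Prod.ext (mul_one 1).symm rfl)) }
      refine hB.of_surjective h𝒮.congr h𝒮.simple _ φ ?_
      rintro ⟨⟨⟨x, e⟩, hxe⟩, hx⟩
      have hx' : x = 1 := hx
      subst hx'
      have he : QuotientGroup.mk' B e = 1 := by
        rw [← (hPmem _).mp hxe]
        exact map_one β₁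
      exact ⟨⟨e, (QuotientGroup.eq_one_iff e).mp he⟩, rfl⟩
    refine ⟨P, inferInstance, inferInstance, π₁.comp π₂, β₂, h0.comp hπ₂, ?_, ?_,
      h3.comp (h𝒮.solves_surjective hK hπ₂ hker)⟩
    · rintro ⟨⟨x, e⟩, hxe⟩
      change e * (β (π₁ x))⁻¹ ∈ A
      have h4 := h1 x
      rw [(hPmem _).mp hxe] at h4
      obtain ⟨a, ha, hae⟩ := h4
      have h5 : QuotientGroup.mk' B a = QuotientGroup.mk' B (e * (β (π₁ x))⁻¹) := by
        rw [hae, map_mul, map_inv]
        rfl
      have h6 : a⁻¹ * (e * (β (π₁ x))⁻¹) ∈ B := QuotientGroup.eq.mp h5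
      have h7 : e * (β (π₁ x))⁻¹ = a * (a⁻¹ * (e * (β (π₁ x))⁻¹)) := by group
      rw [h7]
      exact mul_mem ha (hBA h6)
    · intro a ha
      obtain ⟨x, hx⟩ := h2 ⟨a, ha, rfl⟩
      exact ⟨⟨(x, a), (hPmem _).mpr hx⟩, rfl⟩

end MP7fE
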