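import Pool.Agent.Lib.MP_7f581e_ntE.Embeds
import Pool.Agent.Lib.MP_7f581e_ntE.Layered

/-!
Embedding problems which have a weak solution have proper solutions.
-/

set_option autoImplicit false

universe u

namespace MP7fE

open MP7fR MP7fC

/-- Proper solutions of finite embedding problems. -/
def ProperSolution {K M : Type u} [Field K] [Field M] [Algebra K M] {G : Type} [Group G]
    (α : G →* (M ≃ₐ[K] M)) : Prop :=
  ∃ (L : Type u) (_ : Field L) (_ : Algebra K L) (_ : FiniteDimensional K L) (_ : IsGalois K L)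
    (i : M →ₐ[K] L) (γ : (L ≃ₐ[K] L) ≃* G), Compatible α i γ.toMonoidHom

/-- A surjection of a Galois group gives a proper solution. -/
theorem proper_of_surjective {K M L : Type u} [Field K] [Field M] [Algebra K M] [Field L]
    [Algebra K L] [FiniteDimensional K L] [IsGalois K L] {G : Type} [Group G]
    (α : G →* (M ≃ₐ[K] M)) (j : M →ₐ[K] L) (φ : (L ≃ₐ[K] L) →* G) (hφ : Function.Surjective φ)
    (h : ∀ (σ : L ≃ₐ[K] L) (x : M), σ (j x) = j (α (φ σ) x)) : ProperSolution α := by
  have hg : IsGalois K (IntermediateField.fixedField φ.ker) :=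
    IsGalois.of_fixedField_normal_subgroup φ.ker
  have hi : ∀ x : M, j x ∈ IntermediateField.fixedField φ.ker := by
    intro x
    rintro ⟨σ, hσ⟩
    change σ (j x) = j x
    have h3 : φ σ = 1 := hσ
    rw [h, h3, map_one]
    rfl
  let i : M →ₐ[K] IntermediateField.fixedField φ.ker :=
    j.codRestrict (IntermediateField.fixedField φ.ker).toSubalgebra hi
  refine ⟨IntermediateField.fixedField φ.ker, inferInstance, inferInstance, inferInstance, hg, i,
    (IsGalois.normalAutEquivQuotient φ.ker).symm.trans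
      (QuotientGroup.quotientKerEquivOfSurjective φ hφ), ?_⟩
  intro σ x
  obtain ⟨τ, hτ⟩ := (IsGalois.normalAutEquivQuotient φ.ker).surjective σ
  obtain ⟨τ, rfl⟩ := QuotientGroup.mk_surjective τ
  subst hτ
  change _ = i (α (((IsGalois.normalAutEquivQuotient φ.ker).symm.trans
    (QuotientGroup.quotientKerEquivOfSurjective φ hφ)) _) x)
  rw [MulEquiv.trans_apply, MulEquiv.symm_apply_apply]
  apply Subtype.ext
  rw [IsGalois.normalAutEquivQuotient_apply]
  exact (AlgEquiv.restrictNormal_commutes τ (IntermediateField.fixedField φ.ker)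
    ⟨j x, hi x⟩).trans (h τ x)

/-- Solutions can be lifted through extensions which are always solvable. -/
theorem ProperSolution.lift {K M : Type u} [Field K] [Field M] [Algebra K M] {E G : Type}
    [Group E] [Group G] {α : G →* (M ≃ₐ[K] M)} {f : E →* G} (hf : Solves K f)
    (h : ProperSolution α) : ProperSolution (α.comp f) := by
  obtain ⟨L, _, _, _, _, i, γ, h1⟩ := h
  obtain ⟨L', _, _, h3, h4, γ', i', h5, h6⟩ := hf L γ
  let i'' : L →ₐ[K] L' := { i' with commutes' := fun a => h5 a }
  refine ⟨L', inferInstance, inferInstance, h3, h4, i''.comp i, γ', ?_⟩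
  intro σ x
  change σ (i' (i x)) = i' (i (α (f (γ' σ)) x))
  have h7 : ∀ (τ : L ≃ₐ[K] L) (x : M), τ (i x) = i (α (γ τ) x) := h1
  rw [h6, h7, MulEquiv.apply_symm_apply]

/-- A section gives a weak solution. -/
theorem weak_of_section {K M : Type u} [Field K] [Field M] [Algebra K M] [FiniteDimensional K M]
    [IsGalois K M] {G : Type} [Group G] (α : G →* (M ≃ₐ[K] M)) (s : (M ≃ₐ[K] M) →* G)
    (hs : ∀ x, α (s x) = x) : WeakSolution α := by
  refine ⟨M, inferInstance, inferInstance, inferInstance, inferInstance, AlgHom.id K M, s, ?_⟩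
  intro σ x
  change σ x = α (s σ) x
  rw [hs]

variable {p : ℕ} [Fact p.Prime] {k : Type} [Field k] [CharP k p] {𝒮 𝒬 : GroupClass}

include p in
/-- **Weakly solvable embedding problems with layered kernel have proper solutions.** -/
theorem proper_of_weak_layered (h𝒮 : Good.{u} k 𝒮) (h𝒬 : GoodSplit.{u} k 𝒬) {K : Type u}
    [Field K] [Algebra k K] (hK : IsHilbertian K) {M : Type u} [Field M] [Algebra K M]
    [FiniteDimensional K M] [IsGalois K M] {E : Type} [Group E] [Finite E]
    (α : E →* (M ≃ₐ[K] M)) (hA : Layered 𝒮 𝒬 α.ker) (hw : WeakSolution α) :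
    ProperSolution α := by
  obtain ⟨M', _, _, _, _, i, γ, hγ'⟩ := hw
  have hγ : ∀ (σ : M' ≃ₐ[K] M') (x : M), σ (i x) = i (α (γ σ) x) := hγ'
  let e : (M' ≃ₐ[K] M') ≃* Shrink.{0} (M' ≃ₐ[K] M') := (Shrink.mulEquiv).symm
  have hfinQ : Finite (Shrink.{0} (M' ≃ₐ[K] M')) := Finite.of_equiv _ e.toEquiv
  let β : Shrink.{0} (M' ≃ₐ[K] M') →* E := γ.comp e.symm.toMonoidHom
  obtain ⟨P, _, _, π, β', h0, h1, h2, h3⟩ := hA.lift (p := p) h𝒮 h𝒬 hK inferInstance _ β
  obtain ⟨L, _, _, _, _, e', i', h5, h6⟩ := h3 M' e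
  have hαβ : ∀ y : P, α (β' y) = α (β (π y)) := by
    intro y
    have h7 : α (β' y * (β (π y))⁻¹) = 1 := MonoidHom.mem_ker.mp (h1 y)
    rw [map_mul, map_inv] at h7
    exact mul_inv_eq_one.mp h7
  have hsurj : Function.Surjective β' := by
    let _ : Algebra M M' := i.toRingHom.toAlgebra
    have htow : IsScalarTower K M M' := IsScalarTower.of_algebraMap_eq fun a => (i.commutes a).symm
    intro x
    let τ : M' ≃ₐ[K] M' := (α x).liftNormal M'
    have hτ : α (γ τ) = α x := by
      ext m
      apply i.injective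
      exact (hγ τ m).symm.trans (AlgEquiv.liftNormal_commutes (α x) M' m)
    obtain ⟨y, hy⟩ := h0 (e τ)
    have h7 : α (β' y) = α x := by
      rw [hαβ, hy]
      change α (γ (e.symm (e τ))) = α x
      rw [MulEquiv.symm_apply_apply, hτ]
    have h8 : (β' y)⁻¹ * x ∈ α.ker := by
      rw [MonoidHom.mem_ker, map_mul, map_inv, h7, inv_mul_cancel]
    have h9 : x = β' y * ((β' y)⁻¹ * x) := by group
    have h10 : x ∈ β'.range := by
      rw [h9]
      exact mul_mem ⟨y, rfl⟩ (h2 h8)
    exact h10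
  let j : M →ₐ[K] L := ({ i' with commutes' := fun a => h5 a } : M' →ₐ[K] L).comp i
  refine proper_of_surjective α j (β'.comp e'.toMonoidHom) (hsurj.comp e'.surjective) ?_
  intro σ x
  change σ (i' (i x)) = i' (i (α (β' (e' σ)) x))
  rw [h6, hαβ, hγ]
  rfl

end MP7fE
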